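import Mathlib

/-!
# Counting the integers `m` by the sum of the costs of their prime power components

`cost a m = ∑ a (p ^ k)` over the exact prime power divisors `p ^ k` of `m`, `W a n` is the number of
`m ≥ 1` with `cost a m ≤ n`. For `a q = q` these are the orders of the permutations of `n` points.
-/

set_option autoImplicit false

open Filter Topology

namespace Pool.Agent.Helper88.ZO

/-- the cost functions which we consider: `a q = q` and `a q = φ q` (with `a 2 = 0`) are examples -/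
structure Cost (a : ℕ → ℕ) : Prop where
  le : ∀ p k : ℕ, p.Prime → 1 ≤ k → a (p ^ k) ≤ p ^ k
  ge : ∀ p k : ℕ, p.Prime → 1 ≤ k → p ^ k ≤ 2 * a (p ^ k) + 2
  prime : ∀ p : ℕ, p.Prime → p ≤ a p + 2

/-- the sum of the costs of the exact prime power divisors of `m` -/
def cost (a : ℕ → ℕ) (m : ℕ) : ℕ := m.factorization.sum fun p k => a (p ^ k)

/-- the number of the `m ≥ 1` with cost at most `n` -/
noncomputable def W (a : ℕ → ℕ) (n : ℕ) : ℕ := {m : ℕ | 0 < m ∧ cost a m ≤ n}.ncard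

lemma cost_one (a : ℕ → ℕ) : cost a 1 = 0 := by simp [cost]

lemma cost_zero (a : ℕ → ℕ) : cost a 0 = 0 := by simp [cost]

lemma cost_mul (a : ℕ → ℕ) {m n : ℕ} (h : m.Coprime n) : cost a (m * n) = cost a m + cost a n := by
  rcases Nat.eq_zero_or_pos m with rfl | hm
  · rw [Nat.coprime_zero_left] at h
    subst h
    simp [cost_zero, cost_one]
  rcases Nat.eq_zero_or_pos n with rfl | hn
  · rw [Nat.coprime_zero_right] at h
    subst h
    simp [cost_zero, cost_one]
  unfold cost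
  rw [Nat.factorization_mul_of_coprime h, Finsupp.sum_add_index_of_disjoint]
  rw [Nat.support_factorization, Nat.support_factorization]
  exact h.disjoint_primeFactors

lemma cost_prime_pow (a : ℕ → ℕ) {p k : ℕ} (hp : p.Prime) (hk : 1 ≤ k) :
    cost a (p ^ k) = a (p ^ k) := by
  unfold cost
  rw [hp.factorization_pow, Finsupp.sum, Finsupp.support_single _ (by omega),
    Finset.sum_singleton, Finsupp.single_eq_same]

/-- each exact prime power divisor costs at most the cost of `m` -/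
lemma le_cost (a : ℕ → ℕ) {m p : ℕ} (hp : p ∈ m.primeFactors) :
    a (p ^ m.factorization p) ≤ cost a m := by
  unfold cost Finsupp.sum
  rw [Nat.support_factorization]
  exact Finset.single_le_sum (f := fun p => a (p ^ m.factorization p)) (fun _ _ => Nat.zero_le _) hp

variable {a : ℕ → ℕ}

lemma fact_pos {m p : ℕ} (hp : p ∈ m.primeFactors) : 1 ≤ m.factorization p := by
  have := Nat.mem_primeFactors.1 hp
  exact this.1.factorization_pos_of_dvd this.2.2 this.2.1

lemma pow_le_of_cost (ha : Cost a) {m p n : ℕ} (hp : p ∈ m.primeFactors) (h : cost a m ≤ n) :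
    p ^ m.factorization p ≤ 2 * n + 2 := by
  have h1 := ha.ge p _ (Nat.prime_of_mem_primeFactors hp) (fact_pos hp)
  have h2 := le_cost a hp
  omega

lemma prime_lt_of_cost (ha : Cost a) {m p n : ℕ} (hp : p ∈ m.primeFactors) (h : cost a m ≤ n) :
    p < 2 * n + 3 := by
  have h1 := pow_le_of_cost ha hp h
  have h2 : p ^ 1 ≤ p ^ m.factorization p :=
    Nat.pow_le_pow_right (Nat.prime_of_mem_primeFactors hp).pos (fact_pos hp)
  rw [pow_one] at h2
  omega

lemma mem_smooth_of_cost (ha : Cost a) {m n N : ℕ} (hm : 0 < m) (h : cost a m ≤ n)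
    (hN : 2 * n + 3 ≤ N) : m ∈ N.smoothNumbers := by
  rw [Nat.mem_smoothNumbers']
  intro p hp hd
  have := prime_lt_of_cost ha (Nat.mem_primeFactors.2 ⟨hp, hd, hm.ne'⟩) h
  omega

lemma W_finite (ha : Cost a) (n : ℕ) : {m : ℕ | 0 < m ∧ cost a m ≤ n}.Finite := by
  refine (Set.finite_Iic ((2 * n + 2) ^ (2 * n + 3))).subset ?_
  rintro m ⟨hm, h⟩
  rw [Set.mem_Iic]
  have h1 : m = ∏ p ∈ m.primeFactors, p ^ m.factorization p :=
    (Nat.prod_factorization_pow_eq_self hm.ne').symm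
  rw [h1]
  refine (Finset.prod_le_pow_card _ _ (2 * n + 2) fun p hp => pow_le_of_cost ha hp h).trans ?_
  refine Nat.pow_le_pow_right (by omega) ?_
  have h2 : m.primeFactors ⊆ Finset.range (2 * n + 3) := fun p hp =>
    Finset.mem_range.2 (prime_lt_of_cost ha hp h)
  simpa using Finset.card_le_card h2

lemma W_pos (ha : Cost a) (n : ℕ) : 0 < W a n := by
  unfold W
  rw [Set.ncard_pos (W_finite ha n)]
  exact ⟨1, by norm_num, by rw [cost_one]; exact Nat.zero_le _⟩

noncomputable section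

/-- the Boltzmann weight of `m` -/
def f (a : ℕ → ℕ) (t : ℝ) (m : ℕ) : ℝ := Real.exp (-t * cost a m)

lemma f_pos (a : ℕ → ℕ) (t : ℝ) (m : ℕ) : 0 < f a t m := Real.exp_pos _

lemma f_one (a : ℕ → ℕ) (t : ℝ) : f a t 1 = 1 := by simp [f, cost_one]

lemma f_mul (a : ℕ → ℕ) (t : ℝ) {m n : ℕ} (h : m.Coprime n) : f a t (m * n) = f a t m * f a t n := by
  unfold f
  rw [cost_mul a h, ← Real.exp_add]
  congr 1
  push_cast
  ring

/-- the costs of the powers of one prime -/
def cc (a : ℕ → ℕ) (p k : ℕ) : ℕ := cost a (p ^ k)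

lemma cc_zero (a : ℕ → ℕ) (p : ℕ) : cc a p 0 = 0 := by simp [cc, cost_one]

lemma cc_le (ha : Cost a) {p : ℕ} (hp : p.Prime) (k : ℕ) : cc a p k ≤ p ^ k := by
  rcases Nat.eq_zero_or_pos k with rfl | hk
  · rw [cc_zero]; exact Nat.zero_le _
  · unfold cc
    rw [cost_prime_pow a hp hk]
    exact ha.le p k hp hk

lemma cc_ge (ha : Cost a) {p : ℕ} (hp : p.Prime) (k : ℕ) : p ^ k ≤ 2 * cc a p k + 2 := by
  rcases Nat.eq_zero_or_pos k with rfl | hk
  · rw [cc_zero]; simp
  · unfold cc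
    rw [cost_prime_pow a hp hk]
    exact ha.ge p k hp hk

lemma exp_cc_le (ha : Cost a) {p : ℕ} (hp : p.Prime) (k : ℕ) {t : ℝ} (ht : 0 ≤ t) (ht1 : t ≤ 1) :
    Real.exp (-t * cc a p k) ≤ 3 * Real.exp (-(t / 2) * (p : ℝ) ^ k) := by
  have h1 : ((p : ℝ) ^ k) ≤ 2 * cc a p k + 2 := by exact_mod_cast cc_ge ha hp k
  have h2 : Real.exp 1 ≤ 3 := by have := Real.exp_one_lt_d9; linarith
  calc Real.exp (-t * cc a p k) ≤ Real.exp (1 + -(t / 2) * (p : ℝ) ^ k) := by
        rw [Real.exp_le_exp]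
        nlinarith
    _ = Real.exp 1 * Real.exp (-(t / 2) * (p : ℝ) ^ k) := Real.exp_add _ _
    _ ≤ _ := mul_le_mul_of_nonneg_right h2 (Real.exp_pos _).le

/-- the sum over `m ≥ 1` of the exponentials -/
lemma summable_exp_nat {c : ℝ} (hc : 0 < c) : Summable fun m : ℕ => Real.exp (-c * m) := by
  have h : (fun m : ℕ => Real.exp (-c * m)) = fun m : ℕ => (Real.exp (-c)) ^ m := by
    ext m
    rw [← Real.exp_nat_mul]
    ring_nf
  rw [h]
  exact summable_geometric_of_lt_one (Real.exp_pos _).le (Real.exp_lt_one_iff.2 (by linarith))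

lemma tsum_exp_nat_le {c : ℝ} (hc : 0 < c) : ∑' m : ℕ, Real.exp (-c * m) ≤ 1 + 1 / c := by
  have h : (fun m : ℕ => Real.exp (-c * m)) = fun m : ℕ => (Real.exp (-c)) ^ m := by
    ext m
    rw [← Real.exp_nat_mul]
    ring_nf
  rw [h, tsum_geometric_of_lt_one (Real.exp_pos _).le (Real.exp_lt_one_iff.2 (by linarith))]
  have h1 : Real.exp (-c) < 1 := Real.exp_lt_one_iff.2 (by linarith)
  have h2 : c + 1 ≤ Real.exp c := Real.add_one_le_exp c
  have h3 : Real.exp (-c) * Real.exp c = 1 := by rw [← Real.exp_add]; simp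
  have h4 : 0 < Real.exp (-c) := Real.exp_pos _
  rw [inv_le_iff_one_le_mul₀ (by linarith)]
  have h5 : (1 + 1 / c) * (1 - Real.exp (-c)) = 1 + (1 - Real.exp (-c) * (c + 1)) / c := by
    field_simp
    ring
  rw [h5]
  have h6 : Real.exp (-c) * (c + 1) ≤ 1 := by
    calc Real.exp (-c) * (c + 1) ≤ Real.exp (-c) * Real.exp c := mul_le_mul_of_nonneg_left h2 h4.le
      _ = 1 := h3
  have : 0 ≤ (1 - Real.exp (-c) * (c + 1)) / c := div_nonneg (by linarith) hc.le
  linarith

lemma sq_exp_le {c : ℝ} (hc : 0 < c) (x : ℝ) (hx : 0 ≤ x) :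
    x ^ 2 * Real.exp (-c * x) ≤ 16 / c ^ 2 * Real.exp (-(c / 2) * x) := by
  have h1 : (c * x / 4) ≤ Real.exp (c * x / 4) := by
    have := Real.add_one_le_exp (c * x / 4)
    linarith
  have h2 : (c * x / 4) ^ 2 ≤ Real.exp (c * x / 2) := by
    calc (c * x / 4) ^ 2 ≤ Real.exp (c * x / 4) ^ 2 := pow_le_pow_left₀ (by positivity) h1 2
      _ = Real.exp (c * x / 2) := by rw [← Real.exp_nat_mul]; congr 1; push_cast; ring
  have h3 : x ^ 2 ≤ 16 / c ^ 2 * Real.exp (c * x / 2) := by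
    have h4 : x ^ 2 = 16 / c ^ 2 * (c * x / 4) ^ 2 := by field_simp; ring
    rw [h4]
    exact mul_le_mul_of_nonneg_left h2 (by positivity)
  calc x ^ 2 * Real.exp (-c * x) ≤ 16 / c ^ 2 * Real.exp (c * x / 2) * Real.exp (-c * x) :=
        mul_le_mul_of_nonneg_right h3 (Real.exp_pos _).le
    _ = _ := by
        rw [mul_assoc, ← Real.exp_add]
        congr 2
        ring

/-- the sum over all prime powers is at most the sum over all integers -/
lemma sum_pp_le {g : ℕ → ℝ} (hg : Summable g) (h0 : ∀ n, 0 ≤ g n) :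
    (∀ p : ℕ, p.Prime → Summable fun k : ℕ => g (p ^ (k + 1))) ∧
    ∀ S : Finset ℕ, (∀ p ∈ S, p.Prime) → ∑ p ∈ S, ∑' k : ℕ, g (p ^ (k + 1)) ≤ ∑' n, g n := by
  have hinj : Function.Injective (fun x : Nat.Primes × ℕ => ((x.1 : ℕ) ^ (x.2 + 1) : ℕ)) := by
    intro x y h
    have h1 : Nat.Primes.prodNatEquiv x = Nat.Primes.prodNatEquiv y := Subtype.ext h
    exact Nat.Primes.prodNatEquiv.injective h1
  have hs : Summable (fun x : Nat.Primes × ℕ => g ((x.1 : ℕ) ^ (x.2 + 1))) := hg.comp_injective hinj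
  have hp : ∀ p : ℕ, p.Prime → Summable fun k : ℕ => g (p ^ (k + 1)) := fun p hp =>
    hs.prod_factor (⟨p, hp⟩ : Nat.Primes)
  refine ⟨hp, fun S hS => ?_⟩
  have h1 : ∑' x : Nat.Primes × ℕ, g ((x.1 : ℕ) ^ (x.2 + 1)) ≤ ∑' n, g n :=
    hs.tsum_le_tsum_of_inj _ hinj (fun n _ => h0 n) (fun _ => le_rfl) hg
  refine le_trans ?_ h1
  rw [hs.tsum_prod]
  have h2 : Summable fun p : Nat.Primes => ∑' k : ℕ, g ((p : ℕ) ^ (k + 1)) := hs.prod
  have key := fun T : Finset Nat.Primes => h2.sum_le_tsum T (fun p _ => tsum_nonneg fun k => h0 _)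
  let e : S ↪ Nat.Primes := ⟨fun q : S => (⟨q.1, hS q.1 q.2⟩ : Nat.Primes), fun x y h => by
    have := congrArg (fun z : Nat.Primes => (z : ℕ)) h
    exact Subtype.ext this⟩
  have h3 : ∑ p ∈ S, ∑' k : ℕ, g (p ^ (k + 1)) =
      ∑ p ∈ S.attach.map e, ∑' k : ℕ, g ((p : ℕ) ^ (k + 1)) := by
    rw [Finset.sum_map, ← Finset.sum_attach]
    rfl
  rw [h3]
  exact key _

lemma summable_f (ha : Cost a) {p : ℕ} (hp : p.Prime) {t : ℝ} (ht : 0 < t) :
    Summable fun k : ℕ => f a t (p ^ k) := by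
  have h1 : Summable fun m : ℕ => Real.exp t * Real.exp (-(t / 2) * m) :=
    (summable_exp_nat (by linarith)).mul_left _
  have hinj : Function.Injective (fun k : ℕ => p ^ k) := Nat.pow_right_injective hp.two_le
  refine Summable.of_nonneg_of_le (fun k => (f_pos a t _).le) (fun k => ?_) (h1.comp_injective hinj)
  have h1 : ((p : ℝ) ^ k) ≤ 2 * cc a p k + 2 := by exact_mod_cast cc_ge ha hp k
  unfold f
  change Real.exp (-t * cc a p k) ≤ Real.exp t * Real.exp (-(t / 2) * ((p ^ k : ℕ) : ℝ))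
  rw [← Real.exp_add, Real.exp_le_exp]
  push_cast
  nlinarith

/-- the partition function of the `N`-smooth numbers -/
def Z (a : ℕ → ℕ) (N : ℕ) (t : ℝ) : ℝ := ∏ p ∈ N.primesBelow, ∑' k : ℕ, f a t (p ^ k)

lemma hasSum_Z (ha : Cost a) (N : ℕ) {t : ℝ} (ht : 0 < t) :
    Summable (fun m : N.smoothNumbers => f a t m) ∧ HasSum (fun m : N.smoothNumbers => f a t m) (Z a N t) := by
  have h := EulerProduct.summable_and_hasSum_smoothNumbers_prod_primesBelow_tsum (R := ℝ) (f := f a t)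
    (f_one a t) (fun h => f_mul a t h) (fun {p} hp => (summable_f ha hp ht).norm) N
  exact ⟨h.2.summable, h.2⟩

lemma zp_ge_one (ha : Cost a) {p : ℕ} (hp : p.Prime) {t : ℝ} (ht : 0 < t) :
    1 ≤ ∑' k : ℕ, f a t (p ^ k) := by
  have h := (summable_f ha hp ht).le_tsum 0 fun k _ => (f_pos a t _).le
  simpa [f_one] using h

lemma Z_ge_one (ha : Cost a) (N : ℕ) {t : ℝ} (ht : 0 < t) : 1 ≤ Z a N t :=
  Finset.one_le_prod fun _ hp => zp_ge_one ha (Nat.prime_of_mem_primesBelow hp) ht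

end

end Pool.Agent.Helper88.ZO
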