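import Pool.Agent.Helper88.ZO.A

/-!
# The Chernoff bound for the Boltzmann measure
-/

set_option autoImplicit false

open Filter Topology

namespace Pool.Agent.Helper88.ZO

noncomputable section

variable {a : ℕ → ℕ}

lemma exp_le_quad (y : ℝ) : Real.exp y ≤ 1 + y + y ^ 2 * Real.exp |y| := by
  have h := Complex.norm_exp_sub_sum_le_norm_mul_exp (y : ℂ) 2
  have h1 : Complex.exp (y : ℂ) - ∑ m ∈ Finset.range 2, (y : ℂ) ^ m / (m.factorial : ℂ) =
      ((Real.exp y - (1 + y) : ℝ) : ℂ) := by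
    simp [Finset.sum_range_succ]
  rw [h1, Complex.norm_real, Complex.norm_real, Real.norm_eq_abs, Real.norm_eq_abs, sq_abs] at h
  have h2 := le_abs_self (Real.exp y - (1 + y))
  linarith

/-- the partition function of the powers of one prime, its first moment -/
def zp (a : ℕ → ℕ) (p : ℕ) (t : ℝ) : ℝ := ∑' k : ℕ, Real.exp (-t * cc a p k)

def m1 (a : ℕ → ℕ) (p : ℕ) (t : ℝ) : ℝ := ∑' k : ℕ, (cc a p k : ℝ) * Real.exp (-t * cc a p k)

def v2 (a : ℕ → ℕ) (p : ℕ) (t : ℝ) : ℝ := ∑' k : ℕ, (cc a p k : ℝ) ^ 2 * Real.exp (-(t / 2) * cc a p k)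

def mu (a : ℕ → ℕ) (N : ℕ) (t : ℝ) : ℝ := ∑ p ∈ N.primesBelow, m1 a p t / zp a p t

lemma Z_eq (a : ℕ → ℕ) (N : ℕ) (t : ℝ) : Z a N t = ∏ p ∈ N.primesBelow, zp a p t := rfl

lemma zp_summable (ha : Cost a) {p : ℕ} (hp : p.Prime) {t : ℝ} (ht : 0 < t) :
    Summable fun k : ℕ => Real.exp (-t * cc a p k) := summable_f ha hp ht

/-- the comparison function -/
def G (t : ℝ) (m : ℕ) : ℝ := 3 * ((m : ℝ) ^ 2 * Real.exp (-(t / 4) * m))

lemma G_nonneg (t : ℝ) (m : ℕ) : 0 ≤ G t m := by unfold G; positivity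

lemma G_le {t : ℝ} (ht : 0 < t) (m : ℕ) : G t m ≤ 768 / t ^ 2 * Real.exp (-(t / 8) * m) := by
  have h := sq_exp_le (c := t / 4) (by linarith) (m : ℝ) (Nat.cast_nonneg m)
  unfold G
  have e1 : 3 * (16 / (t / 4) ^ 2 * Real.exp (-(t / 4 / 2) * m)) = 768 / t ^ 2 * Real.exp (-(t / 8) * m) := by
    have : t / 4 / 2 = t / 8 := by ring
    rw [this]
    field_simp
    norm_num
  rw [← e1]
  linarith

lemma G_summable {t : ℝ} (ht : 0 < t) : Summable (G t) :=
  Summable.of_nonneg_of_le (G_nonneg t) (G_le ht) ((summable_exp_nat (by linarith)).mul_left _)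

lemma G_tsum_le {t : ℝ} (ht : 0 < t) (ht1 : t ≤ 1) : ∑' m, G t m ≤ 6912 / t ^ 3 := by
  have h1 := (G_summable ht).tsum_le_tsum (G_le ht) ((summable_exp_nat (c := t / 8) (by linarith)).mul_left _)
  rw [tsum_mul_left] at h1
  have h2 := tsum_exp_nat_le (c := t / 8) (by linarith)
  have h3 : 1 + 1 / (t / 8) ≤ 9 / t := by
    rw [le_div_iff₀ ht]
    have : 1 / (t / 8) * t = 8 := by field_simp
    nlinarith
  refine h1.trans ((mul_le_mul_of_nonneg_left (h2.trans h3) (by positivity)).trans (le_of_eq ?_))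
  field_simp
  norm_num

lemma v2_term_le (ha : Cost a) {p : ℕ} (hp : p.Prime) {t : ℝ} (ht : 0 < t) (ht1 : t ≤ 1) (k : ℕ) :
    (cc a p k : ℝ) ^ 2 * Real.exp (-(t / 2) * cc a p k) ≤ G t (p ^ k) := by
  have h1 := exp_cc_le ha hp k (t := t / 2) (by linarith) (by linarith)
  have h2 : (cc a p k : ℝ) ≤ (p : ℝ) ^ k := by exact_mod_cast cc_le ha hp k
  unfold G
  have e : t / 2 / 2 = t / 4 := by ring
  rw [e] at h1
  calc (cc a p k : ℝ) ^ 2 * Real.exp (-(t / 2) * cc a p k)
      ≤ ((p : ℝ) ^ k) ^ 2 * (3 * Real.exp (-(t / 4) * (p : ℝ) ^ k)) :=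
        mul_le_mul (pow_le_pow_left₀ (Nat.cast_nonneg _) h2 2) h1 (Real.exp_pos _).le (by positivity)
    _ = _ := by push_cast; ring

lemma G_pow_summable {p : ℕ} (hp : p.Prime) {t : ℝ} (ht : 0 < t) :
    Summable fun k : ℕ => G t (p ^ k) :=
  (G_summable ht).comp_injective (Nat.pow_right_injective hp.two_le)

lemma v2_summable (ha : Cost a) {p : ℕ} (hp : p.Prime) {t : ℝ} (ht : 0 < t) (ht1 : t ≤ 1) :
    Summable fun k : ℕ => (cc a p k : ℝ) ^ 2 * Real.exp (-(t / 2) * cc a p k) :=
  Summable.of_nonneg_of_le (fun k => by positivity) (v2_term_le ha hp ht ht1) (G_pow_summable hp ht)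

lemma v2_le (ha : Cost a) {p : ℕ} (hp : p.Prime) {t : ℝ} (ht : 0 < t) (ht1 : t ≤ 1) :
    v2 a p t ≤ ∑' k : ℕ, G t (p ^ (k + 1)) := by
  have hs := v2_summable ha hp ht ht1
  unfold v2
  rw [hs.tsum_eq_zero_add, cc_zero]
  simp only [Nat.cast_zero, ne_eq, OfNat.ofNat_ne_zero, not_false_eq_true, zero_pow, zero_mul, zero_add]
  exact ((summable_nat_add_iff 1).2 hs).tsum_le_tsum (fun k => v2_term_le ha hp ht ht1 (k + 1))
    ((summable_nat_add_iff 1).2 (G_pow_summable hp ht))

lemma sum_v2_le (ha : Cost a) {S : Finset ℕ} (hS : ∀ p ∈ S, p.Prime) {t : ℝ} (ht : 0 < t) (ht1 : t ≤ 1) :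
    ∑ p ∈ S, v2 a p t ≤ 6912 / t ^ 3 :=
  (Finset.sum_le_sum fun p hp => v2_le ha (hS p hp) ht ht1).trans
    (((sum_pp_le (G_summable ht) (G_nonneg t)).2 S hS).trans (G_tsum_le ht ht1))

lemma m1_summable (ha : Cost a) {p : ℕ} (hp : p.Prime) {t : ℝ} (ht : 0 < t) (ht1 : t ≤ 1) :
    Summable fun k : ℕ => (cc a p k : ℝ) * Real.exp (-t * cc a p k) := by
  refine Summable.of_nonneg_of_le (fun k => by positivity) (fun k => ?_) (v2_summable ha hp ht ht1)
  have h1 : (cc a p k : ℝ) ≤ (cc a p k : ℝ) ^ 2 := by exact_mod_cast Nat.le_self_pow (by norm_num) _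
  have h2 : Real.exp (-t * cc a p k) ≤ Real.exp (-(t / 2) * cc a p k) := by
    rw [Real.exp_le_exp]
    have : (0 : ℝ) ≤ cc a p k := Nat.cast_nonneg _
    nlinarith
  exact mul_le_mul h1 h2 (Real.exp_pos _).le (by positivity)

lemma one_le_zp (ha : Cost a) {p : ℕ} (hp : p.Prime) {t : ℝ} (ht : 0 < t) : 1 ≤ zp a p t :=
  zp_ge_one ha hp ht

/-- tilting the measure at one prime -/
lemma zp_tilt (ha : Cost a) {p : ℕ} (hp : p.Prime) {t h : ℝ} (ht : 0 < t) (ht1 : t ≤ 1) (hh : |h| ≤ t / 2) :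
    zp a p (t - h) ≤ zp a p t * Real.exp (h * (m1 a p t / zp a p t) + h ^ 2 * v2 a p t) := by
  have hth : 0 < t - h := by
    have := le_abs_self h
    linarith
  have s0 := zp_summable ha hp hth
  have s1 := zp_summable ha hp ht
  have s2 := m1_summable ha hp ht ht1
  have s3 := v2_summable ha hp ht ht1
  have hz := one_le_zp ha hp ht
  have h1 : zp a p (t - h) ≤ zp a p t + h * m1 a p t + h ^ 2 * v2 a p t := by
    unfold zp m1 v2
    rw [← tsum_mul_left, ← tsum_mul_left, ← s1.tsum_add (s2.mul_left h),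
      ← (s1.add (s2.mul_left h)).tsum_add (s3.mul_left (h ^ 2))]
    refine s0.tsum_le_tsum (fun k => ?_) ((s1.add (s2.mul_left h)).add (s3.mul_left (h ^ 2)))
    set c : ℝ := ((cc a p k : ℕ) : ℝ) with hc
    have hc0 : 0 ≤ c := Nat.cast_nonneg _
    have q := exp_le_quad (h * c)
    have e1 : Real.exp (-(t - h) * c) = Real.exp (-t * c) * Real.exp (h * c) := by
      rw [← Real.exp_add]; congr 1; ring
    have e2 : Real.exp (-t * c) * Real.exp |h * c| ≤ Real.exp (-(t / 2) * c) := by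
      rw [← Real.exp_add, Real.exp_le_exp, abs_mul, abs_of_nonneg hc0]
      nlinarith
    rw [e1]
    calc Real.exp (-t * c) * Real.exp (h * c)
        ≤ Real.exp (-t * c) * (1 + h * c + (h * c) ^ 2 * Real.exp |h * c|) :=
          mul_le_mul_of_nonneg_left q (Real.exp_pos _).le
      _ = Real.exp (-t * c) + h * (c * Real.exp (-t * c)) +
          h ^ 2 * (c ^ 2 * (Real.exp (-t * c) * Real.exp |h * c|)) := by ring
      _ ≤ _ := by
          have := mul_le_mul_of_nonneg_left e2 (by positivity : 0 ≤ h ^ 2 * c ^ 2)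
          nlinarith
  have hv : 0 ≤ v2 a p t := tsum_nonneg fun k => by positivity
  refine h1.trans ?_
  have h2 : zp a p t + h * m1 a p t + h ^ 2 * v2 a p t ≤
      zp a p t * (1 + (h * (m1 a p t / zp a p t) + h ^ 2 * v2 a p t)) := by
    have e : zp a p t * (1 + (h * (m1 a p t / zp a p t) + h ^ 2 * v2 a p t)) =
        zp a p t + h * m1 a p t + zp a p t * (h ^ 2 * v2 a p t) := by
      field_simp
      ring
    rw [e]
    have : h ^ 2 * v2 a p t ≤ zp a p t * (h ^ 2 * v2 a p t) :=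
      le_mul_of_one_le_left (by positivity) hz
    linarith
  refine h2.trans (mul_le_mul_of_nonneg_left ?_ (by linarith))
  rw [add_comm]
  exact Real.add_one_le_exp _

lemma Z_tilt (ha : Cost a) (N : ℕ) {t h : ℝ} (ht : 0 < t) (ht1 : t ≤ 1) (hh : |h| ≤ t / 2) :
    Z a N (t - h) ≤ Z a N t * Real.exp (h * mu a N t + h ^ 2 * (6912 / t ^ 3)) := by
  have hpr : ∀ p ∈ N.primesBelow, p.Prime := fun p hp => Nat.prime_of_mem_primesBelow hp
  have hth : 0 < t - h := by
    have := le_abs_self h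
    linarith
  calc Z a N (t - h) ≤ ∏ p ∈ N.primesBelow,
        (zp a p t * Real.exp (h * (m1 a p t / zp a p t) + h ^ 2 * v2 a p t)) := by
        rw [Z_eq]
        exact Finset.prod_le_prod (fun p hp => (zero_le_one.trans (one_le_zp ha (hpr p hp) hth)))
          (fun p hp => zp_tilt ha (hpr p hp) ht ht1 hh)
    _ = Z a N t * Real.exp (h * mu a N t + h ^ 2 * ∑ p ∈ N.primesBelow, v2 a p t) := by
        rw [Finset.prod_mul_distrib, ← Real.exp_sum, Finset.sum_add_distrib, ← Finset.mul_sum,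
          ← Finset.mul_sum]
        rfl
    _ ≤ _ := by
        refine mul_le_mul_of_nonneg_left ?_ (zero_le_one.trans (Z_ge_one ha N ht))
        rw [Real.exp_le_exp]
        have := mul_le_mul_of_nonneg_left (sum_v2_le ha hpr ht ht1) (sq_nonneg h)
        linarith

/-- **Chernoff.** -/
theorem chernoff (ha : Cost a) (N n : ℕ) {t D : ℝ} (ht : 0 < t) (ht1 : t ≤ 1)
    (hD : D = 3 * √(6912 / t ^ 3)) (hn : mu a N t + D ≤ n) :
    Z a N t ≤ 2 * (W a n * Real.exp (-t * (mu a N t - D))) := by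
  set V : ℝ := 6912 / t ^ 3 with hV
  have hV0 : 0 < V := by positivity
  set h : ℝ := 1 / √V with hh
  have hsV : 0 < √V := Real.sqrt_pos.2 hV0
  have hh0 : 0 < h := by positivity
  have hhV : h ^ 2 * V = 1 := by
    rw [hh, div_pow, Real.sq_sqrt hV0.le]
    field_simp
  have hhD : h * D = 3 := by rw [hD, hh]; field_simp
  have hht : |h| ≤ t / 2 := by
    rw [abs_of_pos hh0, hh, div_le_iff₀ hsV]
    have h1 : 2 / t ≤ √V := by
      refine Real.le_sqrt_of_sq_le ?_
      rw [hV, div_pow, div_le_div_iff₀ (by positivity) (by positivity)]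
      have h2 : t ^ 3 ≤ t ^ 2 := pow_le_pow_of_le_one ht.le ht1 (by norm_num)
      have h3 : 0 < t ^ 2 := by positivity
      nlinarith
    have h2 : t / 2 * (2 / t) = 1 := by field_simp
    have := mul_le_mul_of_nonneg_left h1 (by positivity : 0 ≤ t / 2)
    linarith
  set m := mu a N t with hm
  obtain ⟨s0, hs0⟩ := hasSum_Z ha N ht
  have ht' : 0 < t - h := by
    have := le_abs_self h
    linarith
  have ht'' : 0 < t - -h := by linarith
  obtain ⟨s1, hs1⟩ := hasSum_Z ha N ht'
  obtain ⟨s2, hs2⟩ := hasSum_Z ha N ht''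
  -- the three parts
  let g : N.smoothNumbers → ℝ := fun x => if |(cost a x : ℝ) - m| < D then f a t x else 0
  have hg0 : ∀ x, 0 ≤ g x := fun x => by
    simp only [g]; split_ifs
    · exact (f_pos a t _).le
    · exact le_rfl
  have hg1 : ∀ x, g x ≤ f a t x := fun x => by
    simp only [g]; split_ifs
    · exact le_rfl
    · exact (f_pos a t _).le
  have s3 : Summable g := Summable.of_nonneg_of_le hg0 hg1 s0
  have key : ∀ x : N.smoothNumbers, f a t x ≤
      Real.exp (-h * (m + D)) * f a (t - h) x + Real.exp (h * (m - D)) * f a (t - -h) x + g x := by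
    intro x
    set c : ℝ := (cost a x : ℝ) with hc
    have p1 : 0 < Real.exp (-h * (m + D)) * f a (t - h) x := mul_pos (Real.exp_pos _) (f_pos _ _ _)
    have p2 : 0 < Real.exp (h * (m - D)) * f a (t - -h) x := mul_pos (Real.exp_pos _) (f_pos _ _ _)
    rcases lt_or_ge |c - m| D with h1 | h1
    · have : g x = f a t x := if_pos h1
      linarith
    · have hgx := hg0 x
      rcases le_abs.1 h1 with h2 | h2
      · have : f a t x ≤ Real.exp (-h * (m + D)) * f a (t - h) x := by
          unfold f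
          rw [← Real.exp_add, Real.exp_le_exp, ← hc]
          nlinarith
        linarith
      · have : f a t x ≤ Real.exp (h * (m - D)) * f a (t - -h) x := by
          unfold f
          rw [← Real.exp_add, Real.exp_le_exp, ← hc]
          nlinarith
        linarith
  have hsum : Z a N t ≤ Real.exp (-h * (m + D)) * Z a N (t - h) + Real.exp (h * (m - D)) * Z a N (t - -h) +
      ∑' x, g x := by
    rw [← hs0.tsum_eq, ← hs1.tsum_eq, ← hs2.tsum_eq, ← tsum_mul_left, ← tsum_mul_left,
      ← (s1.mul_left _).tsum_add (s2.mul_left _),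
      ← ((s1.mul_left _).add (s2.mul_left _)).tsum_add s3]
    exact s0.tsum_le_tsum key (((s1.mul_left _).add (s2.mul_left _)).add s3)
  -- the two tails
  have hZ := Z_ge_one ha N ht
  have t1 : Real.exp (-h * (m + D)) * Z a N (t - h) ≤ Real.exp (-2) * Z a N t := by
    have := Z_tilt ha N ht ht1 hht
    calc Real.exp (-h * (m + D)) * Z a N (t - h) ≤
        Real.exp (-h * (m + D)) * (Z a N t * Real.exp (h * m + h ^ 2 * V)) :=
          mul_le_mul_of_nonneg_left this (Real.exp_pos _).le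
      _ = Real.exp (-2) * Z a N t := by
          rw [mul_left_comm, ← Real.exp_add, mul_comm]
          congr 2
          rw [hhV]
          linarith
  have t2 : Real.exp (h * (m - D)) * Z a N (t - -h) ≤ Real.exp (-2) * Z a N t := by
    have := Z_tilt ha N (h := -h) ht ht1 (by rwa [abs_neg])
    calc Real.exp (h * (m - D)) * Z a N (t - -h) ≤
        Real.exp (h * (m - D)) * (Z a N t * Real.exp (-h * m + (-h) ^ 2 * V)) :=
          mul_le_mul_of_nonneg_left this (Real.exp_pos _).le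
      _ = Real.exp (-2) * Z a N t := by
          rw [mul_left_comm, ← Real.exp_add, mul_comm]
          congr 2
          rw [neg_sq, hhV]
          linarith
  -- the middle
  have t3 : ∑' x, g x ≤ W a n * Real.exp (-t * (m - D)) := by
    refine s3.tsum_le_of_sum_le fun (S : Finset N.smoothNumbers) => ?_
    classical
    have h1 : ∑ x ∈ S, g x ≤ ∑ x ∈ S.filter (fun x : N.smoothNumbers => |(cost a x : ℝ) - m| < D), Real.exp (-t * (m - D)) := by
      rw [Finset.sum_filter]
      refine Finset.sum_le_sum fun x _ => ?_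
      simp only [g]
      split_ifs with h2
      · unfold f
        rw [Real.exp_le_exp]
        have := (abs_lt.1 h2).1
        nlinarith
      · exact le_rfl
    refine h1.trans ?_
    rw [Finset.sum_const, nsmul_eq_mul]
    refine mul_le_mul_of_nonneg_right ?_ (Real.exp_pos _).le
    norm_cast
    unfold W
    have h2 : (S.filter (fun x : N.smoothNumbers => |(cost a x : ℝ) - m| < D)).card =
        ((S.filter (fun x : N.smoothNumbers => |(cost a x : ℝ) - m| < D)).map ⟨Subtype.val, Subtype.val_injective⟩).card :=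
      (Finset.card_map _).symm
    rw [h2, ← Set.ncard_coe_finset]
    refine Set.ncard_le_ncard ?_ (W_finite ha n)
    intro y hy
    rw [Finset.mem_coe, Finset.mem_map] at hy
    obtain ⟨x, hx, rfl⟩ := hy
    rw [Finset.mem_filter] at hx
    refine ⟨Nat.pos_of_ne_zero (Nat.ne_zero_of_mem_smoothNumbers x.2), ?_⟩
    have h3 := (abs_lt.1 hx.2).2
    have h4 : (cost a x : ℝ) < n := by linarith
    exact_mod_cast h4.le
  have e2 : Real.exp (-2) ≤ 1 / 4 := by
    rw [Real.exp_neg, inv_le_comm₀ (Real.exp_pos _) (by norm_num)]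
    have h1 := Real.exp_one_gt_d9
    have h2 : Real.exp 2 = Real.exp 1 * Real.exp 1 := by rw [← Real.exp_add]; norm_num
    rw [h2]
    norm_num
    nlinarith
  nlinarith

end

end Pool.Agent.Helper88.ZO
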