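import Pool.Agent.Helper88.ZO.B

/-!
# The logarithm of the partition function and of the counting function
-/

set_option autoImplicit false

open Filter Topology

namespace Pool.Agent.Helper88.ZO

noncomputable section

variable {a : ℕ → ℕ}

/-- the contribution of one prime -/
def ell (a : ℕ → ℕ) (t : ℝ) (p : ℕ) : ℝ := if p.Prime then Real.log (zp a p t) else 0

/-- the logarithm of the full partition function -/
def H (a : ℕ → ℕ) (t : ℝ) : ℝ := ∑' p : ℕ, ell a t p

lemma ell_nonneg (ha : Cost a) {t : ℝ} (ht : 0 < t) (p : ℕ) : 0 ≤ ell a t p := by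
  unfold ell
  split_ifs with hp
  · exact Real.log_nonneg (one_le_zp ha hp ht)
  · exact le_rfl

/-- exponentials, as function of the prime power -/
def E (t : ℝ) (m : ℕ) : ℝ := 3 * Real.exp (-(t / 2) * m)

lemma E_nonneg (t : ℝ) (m : ℕ) : 0 ≤ E t m := by unfold E; positivity

lemma E_summable {t : ℝ} (ht : 0 < t) : Summable (E t) := (summable_exp_nat (by linarith)).mul_left _

lemma E_tsum_le {t : ℝ} (ht : 0 < t) (ht1 : t ≤ 1) : ∑' m, E t m ≤ 9 / t := by
  unfold E
  rw [tsum_mul_left]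
  have h2 := tsum_exp_nat_le (c := t / 2) (by linarith)
  have h3 : 3 * (1 + 1 / (t / 2)) ≤ 9 / t := by
    rw [le_div_iff₀ ht]
    have : 1 / (t / 2) * t = 2 := by field_simp
    nlinarith
  linarith

lemma ell_le (ha : Cost a) {t : ℝ} (ht : 0 < t) (ht1 : t ≤ 1) {p : ℕ} (hp : p.Prime) :
    ell a t p ≤ ∑' k : ℕ, E t (p ^ (k + 1)) := by
  unfold ell
  rw [if_pos hp]
  have hs := zp_summable ha hp ht
  have h1 := Real.log_le_sub_one_of_pos (zero_lt_one.trans_le (one_le_zp ha hp ht))
  refine h1.trans ?_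
  unfold zp
  rw [hs.tsum_eq_zero_add, cc_zero]
  simp only [Nat.cast_zero, mul_zero, Real.exp_zero, add_sub_cancel_left]
  refine ((summable_nat_add_iff 1).2 hs).tsum_le_tsum (fun k => ?_)
    ((sum_pp_le (E_summable ht) (E_nonneg t)).1 p hp)
  unfold E
  push_cast
  exact exp_cc_le ha hp (k + 1) ht.le ht1

lemma sum_ell_le (ha : Cost a) {t : ℝ} (ht : 0 < t) (ht1 : t ≤ 1) (S : Finset ℕ) :
    ∑ p ∈ S, ell a t p ≤ 9 / t := by
  classical
  have h1 : ∑ p ∈ S, ell a t p = ∑ p ∈ S.filter Nat.Prime, ell a t p := by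
    rw [Finset.sum_filter]
    refine Finset.sum_congr rfl fun p _ => ?_
    by_cases hp : p.Prime
    · rw [if_pos hp]
    · rw [if_neg hp, ell, if_neg hp]
  rw [h1]
  have hS : ∀ p ∈ S.filter Nat.Prime, p.Prime := fun p hp => (Finset.mem_filter.1 hp).2
  exact (Finset.sum_le_sum fun p hp => ell_le ha ht ht1 (hS p hp)).trans
    (((sum_pp_le (E_summable ht) (E_nonneg t)).2 _ hS).trans (E_tsum_le ht ht1))

lemma ell_summable (ha : Cost a) {t : ℝ} (ht : 0 < t) (ht1 : t ≤ 1) : Summable (ell a t) :=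
  summable_of_sum_le (ell_nonneg ha ht) (sum_ell_le ha ht ht1)

lemma H_le (ha : Cost a) {t : ℝ} (ht : 0 < t) (ht1 : t ≤ 1) : H a t ≤ 9 / t :=
  (ell_summable ha ht ht1).tsum_le_of_sum_le (sum_ell_le ha ht ht1)

lemma H_nonneg (ha : Cost a) {t : ℝ} (ht : 0 < t) : 0 ≤ H a t := tsum_nonneg (ell_nonneg ha ht)

lemma logZ_eq (ha : Cost a) (N : ℕ) {t : ℝ} (ht : 0 < t) :
    Real.log (Z a N t) = ∑ p ∈ Finset.range N, ell a t p := by
  rw [Z_eq, Real.log_prod fun p hp => (zero_lt_one.trans_le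
    (one_le_zp ha (Nat.prime_of_mem_primesBelow hp) ht)).ne']
  unfold Nat.primesBelow
  rw [Finset.sum_filter]
  rfl

lemma logZ_le_H (ha : Cost a) (N : ℕ) {t : ℝ} (ht : 0 < t) (ht1 : t ≤ 1) : Real.log (Z a N t) ≤ H a t := by
  rw [logZ_eq ha N ht]
  exact (ell_summable ha ht ht1).sum_le_tsum _ fun p _ => ell_nonneg ha ht p

/-- the tail of `H` -/
lemma H_le_logZ (ha : Cost a) (N : ℕ) {t : ℝ} (ht : 0 < t) (ht1 : t ≤ 1) :
    H a t ≤ Real.log (Z a N t) + 9 / t * Real.exp (-(t / 2) * N) := by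
  rw [logZ_eq ha N ht, ← sub_le_iff_le_add']
  unfold H
  rw [← (ell_summable ha ht ht1).sum_add_tsum_nat_add N, add_sub_cancel_left]
  have hsh : Summable fun p => ell a t (p + N) := (summable_nat_add_iff N).2 (ell_summable ha ht ht1)
  refine hsh.tsum_le_of_sum_le fun S => ?_
  classical
  -- the function cut at `N`
  let g : ℕ → ℝ := fun m => if N ≤ m then E t m else 0
  have hg0 : ∀ m, 0 ≤ g m := fun m => by simp only [g]; split_ifs <;> [exact E_nonneg t m; exact le_rfl]
  have hg1 : ∀ m, g m ≤ E t m := fun m => by simp only [g]; split_ifs <;> [exact le_rfl; exact E_nonneg t m]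
  have hgs : Summable g := Summable.of_nonneg_of_le hg0 hg1 (E_summable ht)
  have h1 : ∑ p ∈ S, ell a t (p + N) ≤ ∑' m, g m := by
    have e1 : ∑ p ∈ S, ell a t (p + N) = ∑ q ∈ (S.map (addRightEmbedding N)).filter Nat.Prime, ell a t q := by
      rw [Finset.sum_filter, Finset.sum_map]
      refine Finset.sum_congr rfl fun p _ => ?_
      simp only [addRightEmbedding_apply]
      by_cases hp : (p + N).Prime
      · rw [if_pos hp]
      · rw [if_neg hp, ell, if_neg hp]
    rw [e1]
    have hS : ∀ p ∈ (S.map (addRightEmbedding N)).filter Nat.Prime, p.Prime ∧ N ≤ p := fun p hp => by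
      rw [Finset.mem_filter, Finset.mem_map] at hp
      obtain ⟨⟨q, _, rfl⟩, h2⟩ := hp
      exact ⟨h2, by simp⟩
    refine le_trans ?_ ((sum_pp_le hgs hg0).2 _ fun p hp => (hS p hp).1)
    refine Finset.sum_le_sum fun p hp => ?_
    obtain ⟨hp1, hp2⟩ := hS p hp
    refine (ell_le ha ht ht1 hp1).trans (le_of_eq ?_)
    refine tsum_congr fun k => ?_
    simp only [g]
    rw [if_pos]
    exact hp2.trans (Nat.le_self_pow (by omega) p)
  refine h1.trans ?_
  have h2 : ∑' m, g m = ∑' m, E t (m + N) := by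
    rw [← hgs.sum_add_tsum_nat_add N, Finset.sum_eq_zero, zero_add]
    · refine tsum_congr fun m => ?_
      simp only [g]
      rw [if_pos (by omega)]
    · intro m hm
      rw [Finset.mem_range] at hm
      simp only [g]
      rw [if_neg (by omega)]
  rw [h2]
  have h3 : (fun m : ℕ => E t (m + N)) = fun m => Real.exp (-(t / 2) * N) * E t m := by
    ext m
    unfold E
    push_cast
    rw [mul_add, Real.exp_add]
    ring
  rw [h3, tsum_mul_left, mul_comm]
  exact mul_le_mul_of_nonneg_right (E_tsum_le ht ht1) (Real.exp_pos _).le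

/-- the trivial upper bound for the counting function -/
lemma logW_le (ha : Cost a) (n : ℕ) {t : ℝ} (ht : 0 < t) {N : ℕ} (hN : 2 * n + 3 ≤ N) :
    Real.log (W a n) ≤ t * n + Real.log (Z a N t) := by
  obtain ⟨s0, hs0⟩ := hasSum_Z ha N ht
  have hW := W_pos ha n
  have hfin := W_finite ha n
  have h1 : (W a n : ℝ) * Real.exp (-t * n) ≤ Z a N t := by
    classical
    let S : Finset N.smoothNumbers := (hfin.toFinset).subtype (fun m => m ∈ N.smoothNumbers)
    have h2 : S.card = W a n := by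
      unfold W
      rw [Set.ncard_eq_toFinset_card _ hfin, Finset.card_subtype]
      congr 1
      rw [Finset.filter_eq_self]
      intro m hm
      rw [Set.Finite.mem_toFinset] at hm
      exact mem_smooth_of_cost ha hm.1 hm.2 hN
    have h3 : ∑ x ∈ S, Real.exp (-t * n) ≤ ∑ x ∈ S, f a t x := by
      refine Finset.sum_le_sum fun x hx => ?_
      rw [Finset.mem_subtype, Set.Finite.mem_toFinset] at hx
      unfold f
      rw [Real.exp_le_exp]
      have : (cost a x : ℝ) ≤ n := by exact_mod_cast hx.2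
      nlinarith
    rw [Finset.sum_const, nsmul_eq_mul, h2] at h3
    refine h3.trans ?_
    rw [← hs0.tsum_eq]
    exact s0.sum_le_tsum _ fun x _ => (f_pos a t _).le
  have h4 : Real.log (W a n * Real.exp (-t * n)) ≤ Real.log (Z a N t) :=
    Real.log_le_log (by positivity) h1
  rw [Real.log_mul (by exact_mod_cast hW.ne') (Real.exp_pos _).ne', Real.log_exp] at h4
  linarith

lemma logW_le_H (ha : Cost a) (n : ℕ) {t : ℝ} (ht : 0 < t) (ht1 : t ≤ 1) :
    Real.log (W a n) ≤ t * n + H a t :=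
  (logW_le ha n ht le_rfl).trans (by linarith [logZ_le_H ha (2 * n + 3) ht ht1])

/-- many primes contribute -/
lemma ell_ge (ha : Cost a) {t : ℝ} (ht : 0 < t) {p : ℕ} (hp : p.Prime) (hpt : p * t ≤ 1) :
    3 / 10 ≤ ell a t p := by
  unfold ell
  rw [if_pos hp]
  have hs := zp_summable ha hp ht
  have h1 : 1 + Real.exp (-1) ≤ zp a p t := by
    have h2 := hs.sum_le_tsum (Finset.range 2) fun k _ => (Real.exp_pos _).le
    rw [Finset.sum_range_succ, Finset.sum_range_one, cc_zero] at h2
    simp only [Nat.cast_zero, mul_zero, Real.exp_zero] at h2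
    refine le_trans ?_ h2
    have h3 : Real.exp (-1) ≤ Real.exp (-t * cc a p 1) := by
      rw [Real.exp_le_exp]
      have h4 : (cc a p 1 : ℝ) ≤ p := by
        have := cc_le ha hp 1
        rw [pow_one] at this
        exact_mod_cast this
      nlinarith
    linarith
  have h2 : 1 / 3 ≤ Real.exp (-1) := by
    rw [Real.exp_neg, le_inv_comm₀ (by norm_num) (Real.exp_pos _)]
    have := Real.exp_one_lt_d9
    norm_num
    linarith
  have h3 : Real.exp (3 / 10) ≤ 4 / 3 + 1 / 30 := by
    have h4 := Real.exp_bound' (x := 3 / 10) (by norm_num) (by norm_num) (n := 3) (by norm_num)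
    norm_num [Finset.sum_range_succ, Nat.factorial] at h4
    linarith
  have h4 : Real.exp (-1) ≥ 11 / 30 := by
    rw [Real.exp_neg, ge_iff_le, le_inv_comm₀ (by norm_num) (Real.exp_pos _)]
    have := Real.exp_one_lt_d9
    norm_num
    linarith
  rw [Real.le_log_iff_exp_le (by linarith [Real.exp_pos (-1)])]
  linarith

/-- a lower bound for the number of primes -/
lemma primes_many {δ : ℝ} (hδ : 0 < δ) : ∀ᶠ x : ℝ in atTop, x ^ (1 - δ) ≤ (Nat.primeCounting ⌊x⌋₊ : ℝ) := by
  have h1 : ∀ᶠ x : ℝ in atTop, Real.log x ≤ (1 / 8) * x ^ δ := by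
    have := (isLittleO_log_rpow_atTop hδ).bound (by norm_num : (0 : ℝ) < 1 / 8)
    filter_upwards [this, eventually_ge_atTop 1] with x hx hx1
    rwa [Real.norm_of_nonneg (Real.log_nonneg hx1), Real.norm_of_nonneg (by positivity)] at hx
  have h2 : ∀ᶠ x : ℝ in atTop, Real.log x ≤ (1 / 8) * x ^ (1 : ℝ) := by
    have := (isLittleO_log_rpow_atTop (by norm_num : (0 : ℝ) < 1)).bound (by norm_num : (0 : ℝ) < 1 / 8)
    filter_upwards [this, eventually_ge_atTop 1] with x hx hx1
    rwa [Real.norm_of_nonneg (Real.log_nonneg hx1), Real.norm_of_nonneg (by positivity)] at hx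
  filter_upwards [h1, h2, eventually_ge_atTop 100] with x a1 a2 a3
  have hx0 : 0 < x := by linarith
  rw [Real.rpow_one] at a2
  have hl : 0 < Real.log x := Real.log_pos (by linarith)
  have b1 := Chebyshev.psi_le_primeCounting_mul_log' x
  have b2 := Chebyshev.psi_ge' (x := x) (by linarith)
  have b3 : Real.log (x + 2) ≤ Real.log x + 1 := by
    have : Real.log (x + 2) ≤ Real.log (x * Real.exp 1) := by
      refine Real.log_le_log (by linarith) ?_
      have := Real.exp_one_gt_d9
      nlinarith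
    rwa [Real.log_mul hx0.ne' (Real.exp_pos _).ne', Real.log_exp] at this
  have b4 := Real.log_two_gt_d9
  have b5 : x / 8 ≤ Chebyshev.psi x := by nlinarith
  have b6 : x / 8 ≤ (Nat.primeCounting ⌊x⌋₊ : ℝ) * Real.log x := b5.trans b1
  have b7 : x ^ (1 - δ) * Real.log x ≤ x / 8 := by
    calc x ^ (1 - δ) * Real.log x ≤ x ^ (1 - δ) * ((1 / 8) * x ^ δ) :=
          mul_le_mul_of_nonneg_left a1 (by positivity)
      _ = (1 / 8) * (x ^ (1 - δ) * x ^ δ) := by ring
      _ = x / 8 := by
          rw [← Real.rpow_add hx0, sub_add_cancel, Real.rpow_one]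
          ring
  exact le_of_mul_le_mul_right (b7.trans b6) hl

lemma logZ_ge (ha : Cost a) {N : ℕ} {t y : ℝ} (ht : 0 < t) (hy : 0 ≤ y) (hyN : y < N) (hyt : y * t ≤ 1) :
    3 / 10 * (Nat.primeCounting ⌊y⌋₊ : ℝ) ≤ Real.log (Z a N t) := by
  rw [logZ_eq ha N ht]
  have h1 : Nat.primeCounting ⌊y⌋₊ = ((Finset.range (⌊y⌋₊ + 1)).filter Nat.Prime).card := by
    rw [Nat.primeCounting, Nat.primeCounting', Nat.count_eq_card_filter_range]
  have hf : ⌊y⌋₊ < N := (Nat.floor_lt hy).2 hyN
  calc 3 / 10 * (Nat.primeCounting ⌊y⌋₊ : ℝ) = ∑ p ∈ (Finset.range (⌊y⌋₊ + 1)).filter Nat.Prime, (3 / 10 : ℝ) := by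
        rw [Finset.sum_const, nsmul_eq_mul, h1, mul_comm]
    _ ≤ ∑ p ∈ (Finset.range (⌊y⌋₊ + 1)).filter Nat.Prime, ell a t p := by
        refine Finset.sum_le_sum fun p hp => ?_
        rw [Finset.mem_filter, Finset.mem_range] at hp
        refine ell_ge ha ht hp.2 ?_
        have : (p : ℝ) ≤ y := (Nat.le_floor_iff hy).1 (by omega)
        nlinarith
    _ ≤ ∑ p ∈ Finset.range N, ell a t p := by
        refine Finset.sum_le_sum_of_subset_of_nonneg ?_ fun p _ _ => ell_nonneg ha ht p
        intro p hp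
        rw [Finset.mem_filter, Finset.mem_range] at hp
        rw [Finset.mem_range]
        omega

end

end Pool.Agent.Helper88.ZO
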