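import Pool.Agent.Helper88.ZO.C

/-!
# The counting function is close to its saddle point approximation
-/

set_option autoImplicit false

open Filter Topology

namespace Pool.Agent.Helper88.ZO

noncomputable section

variable {a : ℕ → ℕ}

lemma rpow_dom {α β : ℝ} (h : α < β) (K : ℝ) : ∀ᶠ x : ℝ in atTop, K * x ^ α ≤ x ^ β := by
  filter_upwards [(tendsto_rpow_atTop (by linarith : 0 < β - α)).eventually_ge_atTop K,
    eventually_gt_atTop 0] with x h2 hx
  calc K * x ^ α ≤ x ^ (β - α) * x ^ α := mul_le_mul_of_nonneg_right h2 (Real.rpow_nonneg hx.le _)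
    _ = x ^ β := by
        rw [← Real.rpow_add hx]
        ring_nf

/-- exponential decay beats powers -/
lemma exp_dom {α β : ℝ} (hβ : 0 < β) (K : ℝ) :
    ∀ᶠ x : ℝ in atTop, K * x ^ α * Real.exp (-x ^ β) ≤ 1 := by
  have h1 : Tendsto (fun y : ℝ => y ^ (α / β) * Real.exp (-y)) atTop (𝓝 0) :=
    tendsto_rpow_mul_exp_neg_mul_atTop_nhds_zero (α / β) 1 one_pos |>.congr fun y => by ring_nf
  have h2 := h1.comp (tendsto_rpow_atTop hβ)
  have h3 := (h2.const_mul K).eventually (gt_mem_nhds (by simp : K * 0 < (1 : ℝ)))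
  filter_upwards [h3, eventually_gt_atTop 0] with x hx hx0
  simp only [Function.comp_apply] at hx
  rw [← Real.rpow_mul hx0.le, mul_div_cancel₀ _ hβ.ne'] at hx
  rw [mul_assoc]
  exact hx.le

set_option maxHeartbeats 2000000 in
theorem core (ha : Cost a) {ε : ℝ} (hε : 0 < ε) (hε1 : ε < 1 / 6) :
    ∀ᶠ n : ℕ in atTop, ∃ t : ℝ, (n : ℝ) ^ (-(1 / 2) - ε) ≤ t ∧ t ≤ 22 * (n : ℝ) ^ (-(1 / 2) : ℝ) ∧ t ≤ 1 ∧
      t * n + H a t - (n : ℝ) ^ (1 / 4 + 2 * ε) ≤ Real.log (W a n) := by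
  have e1 := eventually_ge_atTop (10000 : ℝ)
  have e2 := rpow_dom (α := 3 / 4 + 3 / 2 * ε) (β := 1) (by linarith) (10 * 84)
  have e3 := (tendsto_rpow_atTop (by linarith : 0 < ε / 2)).eventually_gt_atTop 40
  have e4 := (tendsto_rpow_atTop (by linarith : 0 < 1 / 2 + ε)).eventually
    (primes_many (by linarith : 0 < ε / 2))
  have e5 := exp_dom (α := 1 / 2 + ε) (by linarith : 0 < 1 / 2 - ε) 9
  have e6 := rpow_dom (α := 1 / 4 + 3 / 2 * ε) (β := 1 / 4 + 2 * ε) (by linarith) 18482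
  have e7 := rpow_dom (α := 1 / 2 + ε) (β := 1) (by linarith) 1
  have hall := e1.and (e2.and (e3.and (e4.and (e5.and (e6.and e7)))))
  filter_upwards [tendsto_natCast_atTop_atTop.eventually hall] with n ⟨a1, a2, a3, a4, a5, a6, a7⟩
  set x : ℝ := (n : ℝ) with hx
  have hx0 : 0 < x := by linarith
  rw [Real.rpow_one] at a2 a7
  set N : ℕ := 2 * n + 3 with hN
  set R : ℝ := √(6912 * x ^ (3 / 2 + 3 * ε)) with hR
  have hR0 : 0 ≤ R := Real.sqrt_nonneg _
  have hR1 : R ≤ 84 * x ^ (3 / 4 + 3 / 2 * ε) := by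
    rw [hR]
    refine Real.sqrt_le_iff.2 ⟨by positivity, ?_⟩
    have h1 : (84 * x ^ (3 / 4 + 3 / 2 * ε)) ^ 2 = 7056 * x ^ (3 / 2 + 3 * ε) := by
      rw [mul_pow, ← Real.rpow_natCast (x ^ (3 / 4 + 3 / 2 * ε)), ← Real.rpow_mul hx0.le]
      norm_num
      congr 1
      ring
    rw [h1]
    have := Real.rpow_nonneg hx0.le (3 / 2 + 3 * ε)
    linarith
  set n' : ℝ := x - 5 * R with hn'
  have hn'1 : x / 2 ≤ n' := by rw [hn']; linarith
  have hn'0 : 0 < n' := by linarith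
  have hs : x ^ (1 / 2 : ℝ) ≥ 100 := by
    rw [← Real.sqrt_eq_rpow]
    refine Real.le_sqrt_of_sq_le ?_
    linarith
  have hsi : x ^ (-(1 / 2) : ℝ) * x ^ (1 / 2 : ℝ) = 1 := by
    rw [← Real.rpow_add hx0]; simp
  have hsx : x ^ (-(1 / 2) : ℝ) * x = x ^ (1 / 2 : ℝ) := by
    nth_rewrite 2 [← Real.rpow_one x]
    rw [← Real.rpow_add hx0]; norm_num
  have hsp : 0 < x ^ (-(1 / 2) : ℝ) := Real.rpow_pos_of_pos hx0 _
  have hsm : x ^ (-(1 / 2) : ℝ) ≤ 1 / 100 := by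
    have : x ^ (-(1 / 2) : ℝ) * 100 ≤ 1 :=
      (mul_le_mul_of_nonneg_left hs hsp.le).trans hsi.le
    linarith
  -- the near minimiser
  set F : ℝ → ℝ := fun t => Real.log (Z a N t) with hF
  set S : Set ℝ := (fun t => t * n' + F t) '' Set.Ioc 0 1 with hS
  have hF0 : ∀ t : ℝ, 0 < t → 0 ≤ F t := fun t ht => Real.log_nonneg (Z_ge_one ha N ht)
  have hSb : BddBelow S := by
    refine ⟨0, ?_⟩
    rintro _ ⟨t, ht, rfl⟩
    have := hF0 t ht.1
    have h2 : 0 ≤ t * n' := mul_nonneg ht.1.le hn'0.le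
    simp only
    linarith
  have hSn : S.Nonempty := ⟨_, 1, ⟨one_pos, le_rfl⟩, rfl⟩
  set c : ℝ := sInf S with hc
  have hcl : ∀ s : ℝ, 0 < s → s ≤ 1 → c ≤ s * n' + F s := fun s h1 h2 => csInf_le hSb ⟨s, ⟨h1, h2⟩, rfl⟩
  obtain ⟨_, ⟨t, ⟨ht0, ht1⟩, rfl⟩, htc⟩ := exists_lt_of_csInf_lt hSn (lt_add_one c)
  simp only at htc
  have hFt := hF0 t ht0
  -- the upper bound of the infimum
  have hc1 : c ≤ 10 * x ^ (1 / 2 : ℝ) := by
    have h1 := hcl _ hsp (by linarith)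
    have h2 : F (x ^ (-(1 / 2) : ℝ)) ≤ 9 / x ^ (-(1 / 2) : ℝ) :=
      (logZ_le_H ha N hsp (by linarith)).trans (H_le ha hsp (by linarith))
    have h3 : 9 / x ^ (-(1 / 2) : ℝ) = 9 * x ^ (1 / 2 : ℝ) := by
      rw [div_eq_iff hsp.ne', mul_assoc, mul_comm (x ^ (1 / 2 : ℝ)), hsi, mul_one]
    have h4 : x ^ (-(1 / 2) : ℝ) * n' ≤ x ^ (1 / 2 : ℝ) := by
      rw [← hsx]
      refine mul_le_mul_of_nonneg_left ?_ hsp.le
      rw [hn']; linarith
    linarith
  have htn : t * n' ≤ 11 * x ^ (1 / 2 : ℝ) := by linarith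
  have hFt1 : F t ≤ 11 * x ^ (1 / 2 : ℝ) := by
    have : 0 ≤ t * n' := mul_nonneg ht0.le hn'0.le
    linarith
  have htup : t ≤ 22 * x ^ (-(1 / 2) : ℝ) := by
    have h1 : t * (x / 2) ≤ 11 * x ^ (1 / 2 : ℝ) := (mul_le_mul_of_nonneg_left hn'1 ht0.le).trans htn
    rw [← hsx] at h1
    have h2 : t * x ≤ 22 * x ^ (-(1 / 2) : ℝ) * x := by linarith
    exact le_of_mul_le_mul_right h2 hx0
  -- the lower bound for `t`
  have htlow : x ^ (-(1 / 2) - ε) ≤ t := by
    by_contra hlt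
    rw [not_le] at hlt
    have hy : 0 < x ^ (1 / 2 + ε) := Real.rpow_pos_of_pos hx0 _
    have h1 : x ^ (1 / 2 + ε) * t ≤ 1 := by
      calc x ^ (1 / 2 + ε) * t ≤ x ^ (1 / 2 + ε) * x ^ (-(1 / 2) - ε) :=
            mul_le_mul_of_nonneg_left hlt.le hy.le
        _ = 1 := by
            rw [← Real.rpow_add hx0]
            ring_nf
            exact Real.rpow_zero x
    have h2 : x ^ (1 / 2 + ε) < (N : ℕ) := by
      have : ((N : ℕ) : ℝ) = 2 * x + 3 := by rw [hN]; push_cast; rfl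
      rw [this]
      linarith
    have h3 := logZ_ge ha ht0 hy.le h2 h1
    have h4 : (x ^ (1 / 2 + ε)) ^ (1 - ε / 2) ≤ (Nat.primeCounting ⌊x ^ (1 / 2 + ε)⌋₊ : ℝ) := a4
    have h5 : x ^ (1 / 2 : ℝ) * x ^ (ε / 2) ≤ (x ^ (1 / 2 + ε)) ^ (1 - ε / 2) := by
      rw [← Real.rpow_add hx0, ← Real.rpow_mul hx0.le]
      refine Real.rpow_le_rpow_of_exponent_le (by linarith) ?_
      nlinarith
    have h6 : x ^ (1 / 2 : ℝ) * 40 < x ^ (1 / 2 : ℝ) * x ^ (ε / 2) :=
      mul_lt_mul_of_pos_left a3 (by linarith)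
    have h7 : 3 / 10 * (Nat.primeCounting ⌊x ^ (1 / 2 + ε)⌋₊ : ℝ) ≤ 11 * x ^ (1 / 2 : ℝ) := h3.trans hFt1
    linarith
  -- the variance
  set V : ℝ := 6912 / t ^ 3 with hV
  have hV0 : 0 < V := by positivity
  have hsV : 0 < √V := Real.sqrt_pos.2 hV0
  have hVR : √V ≤ R := by
    refine Real.sqrt_le_sqrt ?_
    rw [hV, div_le_iff₀ (by positivity)]
    have h1 : 1 ≤ x ^ (3 / 2 + 3 * ε) * t ^ 3 := by
      have h2 : (x ^ (-(1 / 2) - ε)) ^ 3 ≤ t ^ 3 := pow_le_pow_left₀ (by positivity) htlow 3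
      have h3 : x ^ (3 / 2 + 3 * ε) * (x ^ (-(1 / 2) - ε)) ^ 3 = 1 := by
        rw [← Real.rpow_natCast (x ^ (-(1 / 2) - ε)), ← Real.rpow_mul hx0.le, ← Real.rpow_add hx0]
        norm_num
        ring_nf
        exact Real.rpow_zero x
      calc (1 : ℝ) = x ^ (3 / 2 + 3 * ε) * (x ^ (-(1 / 2) - ε)) ^ 3 := h3.symm
        _ ≤ _ := mul_le_mul_of_nonneg_left h2 (by positivity)
    calc (6912 : ℝ) = 6912 * 1 := by ring
      _ ≤ 6912 * (x ^ (3 / 2 + 3 * ε) * t ^ 3) := mul_le_mul_of_nonneg_left h1 (by norm_num)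
      _ = 6912 * x ^ (3 / 2 + 3 * ε) * t ^ 3 := by ring
  set h : ℝ := 1 / √V with hh
  have hh0 : 0 < h := by positivity
  have hhV : h ^ 2 * V = 1 := by
    rw [hh, div_pow, Real.sq_sqrt hV0.le]
    field_simp
  have hhs : h * √V = 1 := by rw [hh]; field_simp
  have hht : h ≤ t / 2 := by
    rw [hh, div_le_iff₀ hsV]
    have h1 : 2 / t ≤ √V := by
      refine Real.le_sqrt_of_sq_le ?_
      rw [hV, div_pow, div_le_div_iff₀ (by positivity) (by positivity)]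
      have h2 : t ^ 3 ≤ t ^ 2 := pow_le_pow_of_le_one ht0.le ht1 (by norm_num)
      have h3 : 0 < t ^ 2 := by positivity
      nlinarith
    have h2 : t / 2 * (2 / t) = 1 := by field_simp
    have := mul_le_mul_of_nonneg_left h1 (by positivity : 0 ≤ t / 2)
    linarith
  have hZ1 := Z_ge_one ha N ht0
  set m := mu a N t with hm
  have tiltF : ∀ u : ℝ, |u| ≤ t / 2 → F (t - u) ≤ F t + (u * m + u ^ 2 * V) := by
    intro u hu
    have h1 := Z_tilt ha N ht0 ht1 hu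
    have h2 : 0 < t - u := by
      have := le_abs_self u
      linarith
    simp only [hF]
    rw [← Real.log_exp (u * m + u ^ 2 * V), ← Real.log_mul (by linarith) (Real.exp_pos _).ne']
    exact Real.log_le_log (by linarith [Z_ge_one ha N h2]) h1
  have hmu1 : m ≤ n' + 2 * √V := by
    have h1 := tiltF (-h) (by rw [abs_neg, abs_of_pos hh0]; exact hht)
    have h2 := hcl (t - -h) (by linarith) (by linarith)
    rw [neg_sq, hhV] at h1
    have e1 : (t - -h) * n' = t * n' + h * n' := by ring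
    have e2 : h * (n' + 2 * √V) = h * n' + 2 * (h * √V) := by ring
    have h3 : h * m ≤ h * (n' + 2 * √V) := by
      rw [e2, hhs]
      rw [e1] at h2
      linarith
    exact le_of_mul_le_mul_left h3 hh0
  have hmu2 : n' - 2 * √V ≤ m := by
    have h1 := tiltF h (by rw [abs_of_pos hh0]; exact hht)
    have h2 := hcl (t - h) (by linarith) (by linarith)
    rw [hhV] at h1
    have e1 : (t - h) * n' = t * n' - h * n' := by ring
    have e2 : h * (n' - 2 * √V) = h * n' - 2 * (h * √V) := by ring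
    have h3 : h * (n' - 2 * √V) ≤ h * m := by
      rw [e2, hhs]
      rw [e1] at h2
      linarith
    exact le_of_mul_le_mul_left h3 hh0
  -- Chernoff
  have hch := chernoff ha N n (D := 3 * √V) ht0 ht1 rfl (by
    rw [← hm, ← hx]
    rw [hn'] at hmu1
    linarith)
  rw [← hm] at hch
  have hW : 0 < (W a n : ℝ) := by exact_mod_cast W_pos ha n
  have hlog : F t ≤ Real.log 2 + (Real.log (W a n) + -t * (m - 3 * √V)) := by
    have h1 := Real.log_le_log (by linarith) hch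
    rwa [Real.log_mul (by norm_num) (by positivity), Real.log_mul hW.ne' (Real.exp_pos _).ne',
      Real.log_exp] at h1
  have hl2 : Real.log 2 ≤ 1 := by have := Real.log_two_lt_d9; linarith
  have hH := H_le_logZ ha N ht0 ht1
  have htail : 9 / t * Real.exp (-(t / 2) * (N : ℕ)) ≤ 1 := by
    have h1 : 9 / t ≤ 9 * x ^ (1 / 2 + ε) := by
      rw [div_le_iff₀ ht0]
      have h2 : 1 ≤ x ^ (1 / 2 + ε) * t := by
        calc (1 : ℝ) = x ^ (1 / 2 + ε) * x ^ (-(1 / 2) - ε) := by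
              rw [← Real.rpow_add hx0]
              ring_nf
              exact (Real.rpow_zero x).symm
          _ ≤ _ := mul_le_mul_of_nonneg_left htlow (by positivity)
      linarith
    have h2 : Real.exp (-(t / 2) * (N : ℕ)) ≤ Real.exp (-x ^ (1 / 2 - ε)) := by
      rw [Real.exp_le_exp]
      have h3 : ((N : ℕ) : ℝ) = 2 * x + 3 := by rw [hN]; push_cast; rfl
      rw [h3]
      have h4 : x ^ (1 / 2 - ε) = x ^ (-(1 / 2) - ε) * x := by
        nth_rewrite 3 [← Real.rpow_one x]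
        rw [← Real.rpow_add hx0]
        ring_nf
      rw [h4]
      have := mul_le_mul_of_nonneg_right htlow hx0.le
      nlinarith
    calc 9 / t * Real.exp (-(t / 2) * (N : ℕ)) ≤ 9 * x ^ (1 / 2 + ε) * Real.exp (-x ^ (1 / 2 - ε)) :=
          mul_le_mul h1 h2 (Real.exp_pos _).le (by positivity)
      _ ≤ 1 := a5
  refine ⟨t, htlow, htup, ht1, ?_⟩
  have hfin : 10 * (t * R) + 2 ≤ x ^ (1 / 4 + 2 * ε) := by
    have h1 : t * R ≤ 22 * x ^ (-(1 / 2) : ℝ) * (84 * x ^ (3 / 4 + 3 / 2 * ε)) :=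
      mul_le_mul htup hR1 hR0 (by positivity)
    have h2 : x ^ (-(1 / 2) : ℝ) * x ^ (3 / 4 + 3 / 2 * ε) = x ^ (1 / 4 + 3 / 2 * ε) := by
      rw [← Real.rpow_add hx0]
      ring_nf
    have h3 : 1 ≤ x ^ (1 / 4 + 3 / 2 * ε) := Real.one_le_rpow (by linarith) (by linarith)
    have h4 : 22 * x ^ (-(1 / 2) : ℝ) * (84 * x ^ (3 / 4 + 3 / 2 * ε)) = 1848 * x ^ (1 / 4 + 3 / 2 * ε) := by
      rw [← h2]; ring
    rw [h4] at h1
    linarith
  have h1 : t * √V ≤ t * R := mul_le_mul_of_nonneg_left hVR ht0.le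
  have h2 : t * m ≥ t * (n' - 2 * √V) := mul_le_mul_of_nonneg_left hmu2 ht0.le
  have h3 : t * n' = t * x - 5 * (t * R) := by rw [hn']; ring
  have hH' : H a t ≤ F t + 1 := by linarith
  have e1 : t * (n' - 2 * √V) = t * n' - 2 * (t * √V) := by ring
  have e2 : -t * (m - 3 * √V) = -(t * m) + 3 * (t * √V) := by ring
  rw [e1] at h2
  rw [e2] at hlog
  linarith

end

end Pool.Agent.Helper88.ZO
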