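import Pool.Agent.Helper88.ZO.Main

/-!
# Comparison of two counting functions, and the explicit form of `L`
-/

set_option autoImplicit false

open Filter Topology

namespace Pool.Agent.Helper88.ZO

noncomputable section

lemma W_compare_aux {a a' : ℕ → ℕ} (ha : Cost a) (ha' : Cost a') {ε : ℝ} (hε : 0 < ε) (hε1 : ε < 1 / 6) :
    ∀ᶠ n : ℕ in atTop, Real.log (W a' n) - Real.log (W a n) ≤ (n : ℝ) ^ (1 / 4 + 3 * ε) := by
  obtain ⟨C1, hC1, h1⟩ := H_sub_P ha (β := 1 / 2 + ε) (by linarith) (by linarith)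
  obtain ⟨C2, hC2, h2⟩ := H_sub_P ha' (β := 1 / 2 + ε) (by linarith) (by linarith)
  have e1 := tendsto_natCast_atTop_atTop.eventually
    (rpow_dom (α := 1 / 4 + 2 * ε) (β := 1 / 4 + 3 * ε) (by linarith) (1 + (C1 + C2)))
  filter_upwards [e1, core ha hε hε1, eventually_ge_atTop 1] with n hn hc hn1
  obtain ⟨t, ht, -, ht1, hW⟩ := hc
  have hn0 : (1 : ℝ) ≤ n := by exact_mod_cast hn1
  have h5 : 0 < (n : ℝ) ^ (-(1 / 2) - ε) := Real.rpow_pos_of_pos (by linarith) _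
  have ht0 : 0 < t := by linarith
  have h6 := logW_le_H ha' n ht0 ht1
  have h7 := (abs_le.1 (h1 t ht0 ht1)).1
  have h8 := (abs_le.1 (h2 t ht0 ht1)).2
  have h9 : t ^ (-(1 / 2 + ε)) ≤ (n : ℝ) ^ (1 / 4 + 2 * ε) := by
    calc t ^ (-(1 / 2 + ε)) ≤ ((n : ℝ) ^ (-(1 / 2) - ε)) ^ (-(1 / 2 + ε)) :=
          Real.rpow_le_rpow_of_nonpos h5 ht (by linarith)
      _ = (n : ℝ) ^ ((-(1 / 2) - ε) * (-(1 / 2 + ε))) := by rw [← Real.rpow_mul (by linarith)]
      _ ≤ (n : ℝ) ^ (1 / 4 + 2 * ε) := Real.rpow_le_rpow_of_exponent_le hn0 (by nlinarith)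
  have h10 : (C1 + C2) * t ^ (-(1 / 2 + ε)) ≤ (C1 + C2) * (n : ℝ) ^ (1 / 4 + 2 * ε) :=
    mul_le_mul_of_nonneg_left h9 (by linarith)
  rw [add_mul] at h10
  rw [add_mul] at hn
  rw [one_mul] at hn
  linarith

/-- two counting functions are close, unconditionally -/
theorem W_compare {a a' : ℕ → ℕ} (ha : Cost a) (ha' : Cost a') {ε : ℝ} (hε : 0 < ε) :
    ∀ᶠ n : ℕ in atTop, |Real.log (W a n) - Real.log (W a' n)| ≤ (n : ℝ) ^ (1 / 4 + ε) := by
  set δ := min (ε / 3) (1 / 12) with hδ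
  have h0 : 0 < δ := lt_min (by linarith) (by norm_num)
  have h1 : δ ≤ ε / 3 := min_le_left _ _
  have h2 : δ ≤ 1 / 12 := min_le_right _ _
  filter_upwards [W_compare_aux ha ha' h0 (by linarith), W_compare_aux ha' ha h0 (by linarith),
    eventually_ge_atTop 1] with n h3 h4 hn
  have h5 : (n : ℝ) ^ (1 / 4 + 3 * δ) ≤ (n : ℝ) ^ (1 / 4 + ε) :=
    Real.rpow_le_rpow_of_exponent_le (by exact_mod_cast hn) (by linarith)
  rw [abs_le]
  constructor <;> linarith

/-- the explicit form of `I` -/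
lemma I_eq {t : ℝ} (ht : 0 < t) :
    I t = ∑' m : ℕ, Real.log (1 + Real.exp (-(t * (m + 2)))) / Real.log (m + 2) := by
  unfold I
  rw [← (iT_summable ht).sum_add_tsum_nat_add 2]
  have h1 : ∑ i ∈ Finset.range 2, iT t i = 0 := by
    refine Finset.sum_eq_zero fun i hi => ?_
    rw [Finset.mem_range] at hi
    unfold iT
    rw [if_neg (by omega)]
  rw [h1, zero_add]
  refine tsum_congr fun m => ?_
  unfold iT phi
  rw [if_pos (by omega)]
  push_cast
  rfl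

end

end Pool.Agent.Helper88.ZO
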