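import Pool.Agent.Helper88.ZO.C

/-!
# The explicit approximation `I` and the sum `P` over the primes
-/

set_option autoImplicit false

open Filter Topology

namespace Pool.Agent.Helper88.ZO

noncomputable section

variable {a : ℕ → ℕ}

/-- `log (1 + e ^ (-v))` -/
def phi (v : ℝ) : ℝ := Real.log (1 + Real.exp (-v))

lemma phi_pos (v : ℝ) : 0 < phi v := Real.log_pos (by linarith [Real.exp_pos (-v)])

lemma phi_le (v : ℝ) : phi v ≤ Real.exp (-v) := by
  have := Real.log_le_sub_one_of_pos (x := 1 + Real.exp (-v)) (by linarith [Real.exp_pos (-v)])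
  unfold phi
  linarith

lemma phi_anti {u v : ℝ} (h : u ≤ v) : phi v ≤ phi u := by
  unfold phi
  refine Real.log_le_log (by linarith [Real.exp_pos (-v)]) ?_
  have := Real.exp_le_exp.2 (neg_le_neg h)
  linarith

/-- the terms of the approximation -/
def iT (t : ℝ) (m : ℕ) : ℝ := if 2 ≤ m then phi (t * m) / Real.log m else 0

/-- the approximation: `∑_{m ≥ 2} log (1 + e ^ (-t m)) / log m` -/
def I (t : ℝ) : ℝ := ∑' m : ℕ, iT t m

/-- the terms of the sum over the primes -/
def pT (t : ℝ) (m : ℕ) : ℝ := if m.Prime then phi (t * m) else 0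

/-- `∑_p log (1 + e ^ (-t p))` -/
def P (t : ℝ) : ℝ := ∑' m : ℕ, pT t m

lemma log_two_half : 1 / 2 < Real.log 2 := by have := Real.log_two_gt_d9; linarith

lemma log_ge_half {m : ℕ} (hm : 2 ≤ m) : 1 / 2 < Real.log m := by
  have h : Real.log 2 ≤ Real.log m := Real.log_le_log (by norm_num) (by exact_mod_cast hm)
  have := log_two_half
  linarith

lemma iT_nonneg (t : ℝ) (m : ℕ) : 0 ≤ iT t m := by
  unfold iT
  split_ifs with h
  · exact div_nonneg (phi_pos _).le (by linarith [log_ge_half h])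
  · exact le_rfl

lemma iT_le (t : ℝ) (m : ℕ) : iT t m ≤ 2 * Real.exp (-t * m) := by
  unfold iT
  split_ifs with h
  · have h1 := log_ge_half h
    rw [div_le_iff₀ (by linarith)]
    have h2 := phi_le (t * m)
    rw [neg_mul]
    have h3 := Real.exp_pos (-(t * m))
    nlinarith
  · positivity

lemma pT_nonneg (t : ℝ) (m : ℕ) : 0 ≤ pT t m := by
  unfold pT
  split_ifs with h
  · exact (phi_pos _).le
  · exact le_rfl

lemma pT_le (t : ℝ) (m : ℕ) : pT t m ≤ Real.exp (-t * m) := by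
  unfold pT
  split_ifs with h
  · rw [neg_mul]; exact phi_le _
  · positivity

lemma iT_summable {t : ℝ} (ht : 0 < t) : Summable (iT t) :=
  Summable.of_nonneg_of_le (iT_nonneg t) (iT_le t) ((summable_exp_nat ht).mul_left _)

lemma pT_summable {t : ℝ} (ht : 0 < t) : Summable (pT t) :=
  Summable.of_nonneg_of_le (pT_nonneg t) (pT_le t) (summable_exp_nat ht)

lemma I_nonneg (t : ℝ) : 0 ≤ I t := tsum_nonneg (iT_nonneg t)

lemma I_le {t : ℝ} (ht : 0 < t) (ht1 : t ≤ 1) : I t ≤ 4 / t := by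
  have h1 := (iT_summable ht).tsum_le_tsum (iT_le t) ((summable_exp_nat ht).mul_left _)
  rw [tsum_mul_left] at h1
  have h2 := tsum_exp_nat_le ht
  have h3 : 2 * (1 + 1 / t) ≤ 4 / t := by
    rw [le_div_iff₀ ht]
    have : 1 / t * t = 1 := by field_simp
    nlinarith
  unfold I
  linarith

/-- a lower bound for `I` -/
lemma I_ge {t y : ℝ} (ht : 0 < t) (hy : 2 ≤ y) (hyt : y * t ≤ 1) :
    3 / 10 * (y - 2) / Real.log y ≤ I t := by
  have hly : 0 < Real.log y := Real.log_pos (by linarith)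
  have h1 : ∑ m ∈ Finset.Icc 2 ⌊y⌋₊, (3 / 10) / Real.log y ≤ ∑ m ∈ Finset.Icc 2 ⌊y⌋₊, iT t m := by
    refine Finset.sum_le_sum fun m hm => ?_
    rw [Finset.mem_Icc] at hm
    have hmy : (m : ℝ) ≤ y := (Nat.le_floor_iff (by linarith)).1 hm.2
    unfold iT
    rw [if_pos hm.1]
    have h2 : phi 1 ≤ phi (t * m) := phi_anti (by nlinarith)
    have h3 : 3 / 10 ≤ phi 1 := by
      unfold phi
      have h4 : Real.exp (3 / 10) ≤ 4 / 3 + 1 / 30 := by
        have h4 := Real.exp_bound' (x := 3 / 10) (by norm_num) (by norm_num) (n := 3) (by norm_num)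
        norm_num [Finset.sum_range_succ, Nat.factorial] at h4
        linarith
      have h5 : Real.exp (-1) ≥ 11 / 30 := by
        rw [Real.exp_neg, ge_iff_le, le_inv_comm₀ (by norm_num) (Real.exp_pos _)]
        have := Real.exp_one_lt_d9
        norm_num
        linarith
      rw [Real.le_log_iff_exp_le (by linarith [Real.exp_pos (-1)])]
      linarith
    exact div_le_div₀ (by linarith) (by linarith) (by linarith [log_ge_half hm.1])
      (Real.log_le_log (by have := hm.1; positivity) hmy)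
  rw [Finset.sum_const, Nat.card_Icc, nsmul_eq_mul] at h1
  have h2 : y - 2 ≤ ((⌊y⌋₊ + 1 - 2 : ℕ) : ℝ) := by
    have h3 : 2 ≤ ⌊y⌋₊ := Nat.le_floor (by exact_mod_cast hy)
    have h4 := Nat.lt_floor_add_one y
    rw [Nat.cast_sub (by omega)]
    push_cast
    linarith
  have h3 : ∑ m ∈ Finset.Icc 2 ⌊y⌋₊, iT t m ≤ I t :=
    (iT_summable ht).sum_le_tsum _ fun m _ => iT_nonneg t m
  refine le_trans ?_ (h1.trans h3)
  rw [mul_div_assoc', mul_comm (3 / 10 : ℝ)]
  exact div_le_div_of_nonneg_right (mul_le_mul_of_nonneg_right h2 (by norm_num)) hly.le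

/-! ## the comparison of `H` and `P` -/

lemma exp_neg_le_rpow {v β : ℝ} (hv : 0 < v) (h0 : 0 ≤ β) (h1 : β ≤ 1) : Real.exp (-v) ≤ v ^ (-β) := by
  rw [Real.exp_neg, Real.rpow_neg hv.le]
  refine inv_anti₀ (by positivity) ?_
  rcases le_or_gt v 1 with h | h
  · exact (Real.rpow_le_one hv.le h h0).trans (Real.one_le_exp hv.le)
  · calc v ^ β ≤ v ^ (1 : ℝ) := Real.rpow_le_rpow_of_exponent_le h.le h1
      _ = v := Real.rpow_one v
      _ ≤ Real.exp v := by linarith [Real.add_one_le_exp v]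

lemma abs_log_sub_le {A B : ℝ} (hA : 1 ≤ A) (hB : 1 ≤ B) : |Real.log A - Real.log B| ≤ |A - B| := by
  wlog h : B ≤ A generalizing A B
  · rw [abs_sub_comm, abs_sub_comm A B]
    exact this hB hA (not_le.1 h).le
  have h1 : 0 ≤ Real.log A - Real.log B := sub_nonneg.2 (Real.log_le_log (by linarith) h)
  rw [abs_of_nonneg h1, abs_of_nonneg (by linarith), ← Real.log_div (by linarith) (by linarith)]
  have h2 := Real.log_le_sub_one_of_pos (x := A / B) (by positivity)
  refine h2.trans ?_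
  rw [div_sub_one (by linarith), div_le_iff₀ (by linarith)]
  nlinarith

lemma ell_sub (ha : Cost a) {t β : ℝ} (ht : 0 < t) (ht1 : t ≤ 1) (hβ : 1 / 2 < β) (hβ1 : β ≤ 1) (p : ℕ) :
    |ell a t p - pT t p| ≤ 16 * t * Real.exp (-t * p) + 24 * t ^ (-β) * (p : ℝ) ^ (-(2 * β)) := by
  by_cases hp : p.Prime
  swap
  · unfold ell pT
    rw [if_neg hp, if_neg hp, sub_zero, abs_zero]
    positivity
  have hs := zp_summable ha hp ht
  have hp2 : (2 : ℝ) ≤ p := by exact_mod_cast hp.two_le
  have hp0 : (0 : ℝ) < p := by linarith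
  unfold ell pT phi
  rw [if_pos hp, if_pos hp]
  refine (abs_log_sub_le (one_le_zp ha hp ht) (by linarith [Real.exp_pos (-(t * p))])).trans ?_
  have e1 : zp a p t = 1 + (Real.exp (-t * cc a p 1) + ∑' k : ℕ, Real.exp (-t * cc a p (k + 2))) := by
    unfold zp
    rw [hs.tsum_eq_zero_add, ((summable_nat_add_iff 1).2 hs).tsum_eq_zero_add, cc_zero]
    simp
  rw [e1]
  have e2 : 1 + (Real.exp (-t * cc a p 1) + ∑' k : ℕ, Real.exp (-t * cc a p (k + 2))) -
      (1 + Real.exp (-(t * p))) = (Real.exp (-t * cc a p 1) - Real.exp (-(t * p))) +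
      ∑' k : ℕ, Real.exp (-t * cc a p (k + 2)) := by ring
  rw [e2]
  refine (abs_add_le _ _).trans (add_le_add ?_ ?_)
  · -- the prime itself
    have h1 : (cc a p 1 : ℝ) ≤ p := by
      have := cc_le ha hp 1
      rw [pow_one] at this
      exact_mod_cast this
    have h2 : (p : ℝ) ≤ cc a p 1 + 2 := by
      have h3 : cc a p 1 = a p := by
        unfold cc
        rw [cost_prime_pow a hp le_rfl, pow_one]
      rw [h3]
      exact_mod_cast ha.prime p hp
    have h3 : 0 ≤ Real.exp (-t * cc a p 1) - Real.exp (-(t * p)) := by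
      rw [sub_nonneg, Real.exp_le_exp]
      nlinarith
    rw [abs_of_nonneg h3]
    have h4 : Real.exp (-t * cc a p 1) ≤ Real.exp (2 * t) * Real.exp (-t * p) := by
      rw [← Real.exp_add, Real.exp_le_exp]
      nlinarith
    have h5 : Real.exp (2 * t) ≤ 1 + 16 * t := by
      have h6 := exp_le_quad (2 * t)
      rw [abs_of_nonneg (by linarith)] at h6
      have h7 : Real.exp (2 * t) ≤ 7.5 := by
        calc Real.exp (2 * t) ≤ Real.exp 2 := Real.exp_le_exp.2 (by linarith)
          _ = Real.exp 1 * Real.exp 1 := by rw [← Real.exp_add]; norm_num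
          _ ≤ 7.5 := by
              have h8 := Real.exp_one_lt_d9
              have h9 := Real.exp_pos 1
              nlinarith
      have h8 : (2 * t) ^ 2 * Real.exp (2 * t) ≤ 4 * t * Real.exp (2 * t) := by
        have : (2 * t) ^ 2 ≤ 4 * t := by nlinarith
        exact mul_le_mul_of_nonneg_right this (Real.exp_pos _).le
      -- a second bound: convexity
      have h9 : Real.exp (2 * t) ≤ 1 + t * (Real.exp 2 - 1) := by
        have hc := convexOn_exp.2 (Set.mem_univ (0 : ℝ)) (Set.mem_univ (2 : ℝ))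
          (by linarith : 0 ≤ 1 - t) ht.le (by ring)
        simp only [smul_eq_mul, mul_zero, zero_add, Real.exp_zero, mul_one] at hc
        rw [mul_comm t 2] at hc
        linarith
      have h10 : Real.exp 2 ≤ 17 := by
        have : Real.exp 2 = Real.exp 1 * Real.exp 1 := by rw [← Real.exp_add]; norm_num
        rw [this]
        have h8 := Real.exp_one_lt_d9
        have h9 := Real.exp_pos 1
        nlinarith
      nlinarith
    have h6 : Real.exp (-(t * p)) = Real.exp (-t * p) := by rw [neg_mul]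
    rw [h6]
    have h7 := Real.exp_pos (-t * p)
    nlinarith
  · -- the higher powers
    have hs2 : Summable fun k : ℕ => Real.exp (-t * cc a p (k + 2)) := (summable_nat_add_iff 2).2 hs
    rw [abs_of_nonneg (tsum_nonneg fun k => (Real.exp_pos _).le)]
    have hr : (p : ℝ) ^ (-β) ≤ 3 / 4 := by
      calc (p : ℝ) ^ (-β) ≤ (2 : ℝ) ^ (-β) := Real.rpow_le_rpow_of_nonpos (by norm_num) hp2 (by linarith)
        _ ≤ (2 : ℝ) ^ (-(1 / 2) : ℝ) := Real.rpow_le_rpow_of_exponent_le (by norm_num) (by linarith)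
        _ ≤ 3 / 4 := by
            rw [Real.rpow_neg (by norm_num), ← Real.sqrt_eq_rpow, inv_le_comm₀ (by positivity) (by norm_num)]
            refine Real.le_sqrt_of_sq_le ?_
            norm_num
    have hr0 : 0 < (p : ℝ) ^ (-β) := Real.rpow_pos_of_pos hp0 _
    have hterm : ∀ k : ℕ, Real.exp (-t * cc a p (k + 2)) ≤
        6 * t ^ (-β) * (p : ℝ) ^ (-(2 * β)) * ((p : ℝ) ^ (-β)) ^ k := by
      intro k
      have h1 := exp_cc_le ha hp (k + 2) ht.le ht1
      have h2 := exp_neg_le_rpow (v := t / 2 * (p : ℝ) ^ (k + 2)) (by positivity) (by linarith : 0 ≤ β) hβ1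
      rw [Real.mul_rpow (by positivity) (by positivity), Real.div_rpow ht.le (by norm_num)] at h2
      have h3 : (2 : ℝ) ^ (-β) ≥ 1 / 2 := by
        calc (2 : ℝ) ^ (-β) ≥ (2 : ℝ) ^ (-1 : ℝ) := Real.rpow_le_rpow_of_exponent_le (by norm_num) (by linarith)
          _ = 1 / 2 := by rw [Real.rpow_neg (by norm_num), Real.rpow_one]; norm_num
      have h4 : t ^ (-β) / (2 : ℝ) ^ (-β) ≤ 2 * t ^ (-β) := by
        rw [div_le_iff₀ (by positivity)]
        have : 0 < t ^ (-β) := Real.rpow_pos_of_pos ht _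
        nlinarith
      have h5 : ((p : ℝ) ^ (k + 2)) ^ (-β) = (p : ℝ) ^ (-(2 * β)) * ((p : ℝ) ^ (-β)) ^ k := by
        rw [← Real.rpow_natCast (p : ℝ) (k + 2), ← Real.rpow_mul hp0.le, ← Real.rpow_natCast ((p : ℝ) ^ (-β)) k,
          ← Real.rpow_mul hp0.le, ← Real.rpow_add hp0]
        congr 1
        push_cast
        ring
      rw [h5] at h2
      have h6 : 0 < (p : ℝ) ^ (-(2 * β)) * ((p : ℝ) ^ (-β)) ^ k := by positivity
      have e3 : -(t / 2) * (p : ℝ) ^ (k + 2) = -(t / 2 * (p : ℝ) ^ (k + 2)) := by ring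
      rw [e3] at h1
      calc Real.exp (-t * cc a p (k + 2)) ≤ 3 * (t ^ (-β) / (2 : ℝ) ^ (-β) * ((p : ℝ) ^ (-(2 * β)) * ((p : ℝ) ^ (-β)) ^ k)) := by
            linarith
        _ ≤ 3 * (2 * t ^ (-β) * ((p : ℝ) ^ (-(2 * β)) * ((p : ℝ) ^ (-β)) ^ k)) := by
            have := mul_le_mul_of_nonneg_right h4 h6.le
            linarith
        _ = _ := by ring
    have hg : Summable fun k : ℕ => ((p : ℝ) ^ (-β)) ^ k := summable_geometric_of_lt_one hr0.le (by linarith)
    refine (hs2.tsum_le_tsum hterm (hg.mul_left _)).trans ?_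
    rw [tsum_mul_left, tsum_geometric_of_lt_one hr0.le (by linarith)]
    have h7 : (1 - (p : ℝ) ^ (-β))⁻¹ ≤ 4 := by
      rw [inv_le_comm₀ (by linarith) (by norm_num)]
      linarith
    have h8 : 0 ≤ 6 * t ^ (-β) * (p : ℝ) ^ (-(2 * β)) := by positivity
    calc 6 * t ^ (-β) * (p : ℝ) ^ (-(2 * β)) * (1 - (p : ℝ) ^ (-β))⁻¹ ≤
        6 * t ^ (-β) * (p : ℝ) ^ (-(2 * β)) * 4 := mul_le_mul_of_nonneg_left h7 h8
      _ = _ := by ring

/-- the difference of `H` and `P` -/
theorem H_sub_P (ha : Cost a) {β : ℝ} (hβ : 1 / 2 < β) (hβ1 : β ≤ 1) :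
    ∃ C : ℝ, 0 < C ∧ ∀ t : ℝ, 0 < t → t ≤ 1 → |H a t - P t| ≤ C * t ^ (-β) := by
  have hz : Summable fun p : ℕ => (p : ℝ) ^ (-(2 * β)) := Real.summable_nat_rpow.2 (by linarith)
  set K := ∑' p : ℕ, (p : ℝ) ^ (-(2 * β)) with hK
  have hK0 : 0 ≤ K := tsum_nonneg fun p => by positivity
  refine ⟨32 + 24 * K, by linarith, fun t ht ht1 => ?_⟩
  have h1 : Summable fun p : ℕ => 16 * t * Real.exp (-t * p) + 24 * t ^ (-β) * (p : ℝ) ^ (-(2 * β)) :=
    ((summable_exp_nat ht).mul_left _).add (hz.mul_left _)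
  have h2 : Summable fun p : ℕ => |ell a t p - pT t p| :=
    Summable.of_nonneg_of_le (fun _ => abs_nonneg _) (ell_sub ha ht ht1 hβ hβ1) h1
  unfold H P
  rw [← (ell_summable ha ht ht1).tsum_sub (pT_summable ht)]
  have h3 : |∑' p, (ell a t p - pT t p)| ≤ ∑' p, |ell a t p - pT t p| := by
    have := norm_tsum_le_tsum_norm (f := fun p => ell a t p - pT t p) (by simpa [Real.norm_eq_abs] using h2)
    simpa [Real.norm_eq_abs] using this
  refine h3.trans ((h2.tsum_le_tsum (ell_sub ha ht ht1 hβ hβ1) h1).trans ?_)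
  rw [((summable_exp_nat ht).mul_left _).tsum_add (hz.mul_left _), tsum_mul_left, tsum_mul_left, ← hK]
  have h4 := tsum_exp_nat_le ht
  have h5 : 16 * t * ∑' m : ℕ, Real.exp (-t * m) ≤ 32 := by
    have h6 : 16 * t * ∑' m : ℕ, Real.exp (-t * m) ≤ 16 * t * (1 + 1 / t) :=
      mul_le_mul_of_nonneg_left h4 (by positivity)
    have h7 : 16 * t * (1 + 1 / t) = 16 * t + 16 := by field_simp
    linarith
  have h6 : 1 ≤ t ^ (-β) := by
    rw [Real.rpow_neg ht.le]
    exact (one_le_inv₀ (by positivity)).2 (Real.rpow_le_one ht.le ht1 (by linarith))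
  nlinarith

/-! ## Abel summation -/

lemma abel_bound {d g c : ℕ → ℝ} (hc0 : ∀ n, |∑ i ∈ Finset.range n, d i| ≤ c n)
    (hg : ∀ n, g (n + 1) ≤ g n) (hg0 : ∀ n, 0 ≤ g n) (M : ℕ) :
    |∑ n ∈ Finset.range M, d n * g n| ≤ ∑ n ∈ Finset.range M, (c (n + 1) - c n) * g n + c 0 * g 0 := by
  have key : |∑ n ∈ Finset.range M, d n * g n - (∑ i ∈ Finset.range M, d i) * g M| ≤
      ∑ n ∈ Finset.range M, (c (n + 1) - c n) * g n + c 0 * g 0 - c M * g M := by
    induction M with
    | zero => simp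
    | succ M ih =>
      have e1 : ∑ n ∈ Finset.range (M + 1), d n * g n - (∑ i ∈ Finset.range (M + 1), d i) * g (M + 1) =
          (∑ n ∈ Finset.range M, d n * g n - (∑ i ∈ Finset.range M, d i) * g M) +
            (∑ i ∈ Finset.range (M + 1), d i) * (g M - g (M + 1)) := by
        rw [Finset.sum_range_succ, Finset.sum_range_succ (fun i => d i)]
        ring
      rw [e1, Finset.sum_range_succ (fun n => (c (n + 1) - c n) * g n)]
      refine (abs_add_le _ _).trans ?_
      rw [abs_mul, abs_of_nonneg (sub_nonneg.2 (hg M))]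
      have := mul_le_mul_of_nonneg_right (hc0 (M + 1)) (sub_nonneg.2 (hg M))
      linarith
  have h2 : |(∑ i ∈ Finset.range M, d i) * g M| ≤ c M * g M := by
    rw [abs_mul, abs_of_nonneg (hg0 M)]
    exact mul_le_mul_of_nonneg_right (hc0 M) (hg0 M)
  have h3 : ∑ n ∈ Finset.range M, d n * g n = (∑ n ∈ Finset.range M, d n * g n - (∑ i ∈ Finset.range M, d i) * g M) +
      (∑ i ∈ Finset.range M, d i) * g M := by ring
  rw [h3]
  refine (abs_add_le _ _).trans ?_
  linarith

/-- the coefficients `1_prime log n - 1`, `n ≥ 2` -/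
def dd (n : ℕ) : ℝ := if 2 ≤ n then (if n.Prime then Real.log n else 0) - 1 else 0

lemma theta_succ (N : ℕ) : Chebyshev.theta ((N + 1 : ℕ) : ℝ) =
    Chebyshev.theta (N : ℝ) + (if (N + 1).Prime then Real.log ((N + 1 : ℕ) : ℝ) else 0) := by
  rw [Chebyshev.theta_eq_sum_Icc, Chebyshev.theta_eq_sum_Icc, Nat.floor_natCast, Nat.floor_natCast,
    Finset.sum_filter, Finset.sum_filter, Finset.sum_Icc_succ_top (by omega)]

lemma sum_dd (N : ℕ) (hN : 1 ≤ N) : ∑ n ∈ Finset.range (N + 1), dd n = Chebyshev.theta N - (N - 1) := by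
  induction N, hN using Nat.le_induction with
  | base =>
    have : Chebyshev.theta ((1 : ℕ) : ℝ) = 0 := by rw [Nat.cast_one]; exact Chebyshev.theta_one
    rw [this]
    simp [dd, Finset.sum_range_succ]
  | succ N hN ih =>
    rw [Finset.sum_range_succ, ih, theta_succ]
    unfold dd
    rw [if_pos (by omega : 2 ≤ N + 1)]
    push_cast
    ring

end

end Pool.Agent.Helper88.ZO
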