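import Pool.Agent.Helper88.ZO.E

/-!
# The forward bound: `P - I = O (t ^ (-β))`
-/

set_option autoImplicit false

open Filter Topology

namespace Pool.Agent.Helper88.ZO

noncomputable section

variable {a : ℕ → ℕ}

/-- the weight -/
def gg (t : ℝ) (n : ℕ) : ℝ := phi (t * (max n 2 : ℕ)) / Real.log (max n 2 : ℕ)

lemma gg_nonneg (t : ℝ) (n : ℕ) : 0 ≤ gg t n :=
  div_nonneg (phi_pos _).le (by linarith [log_ge_half (le_max_right n 2)])

lemma gg_anti {t : ℝ} (ht : 0 < t) (n : ℕ) : gg t (n + 1) ≤ gg t n := by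
  unfold gg
  have h1 : ((max n 2 : ℕ) : ℝ) ≤ (max (n + 1) 2 : ℕ) := by
    exact_mod_cast max_le_max (Nat.le_succ n) le_rfl
  have h2 := log_ge_half (le_max_right n 2)
  have h3 : (2 : ℝ) ≤ (max n 2 : ℕ) := by exact_mod_cast le_max_right n 2
  exact div_le_div₀ (phi_pos _).le (phi_anti (mul_le_mul_of_nonneg_left h1 ht.le)) (by linarith)
    (Real.log_le_log (by linarith) h1)

lemma gg_le {t : ℝ} (ht : 0 < t) (n : ℕ) : gg t n ≤ 2 * Real.exp (-t * n) := by
  unfold gg
  have h2 := log_ge_half (le_max_right n 2)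
  rw [div_le_iff₀ (by linarith)]
  have h3 := phi_le (t * (max n 2 : ℕ))
  have h4 : Real.exp (-(t * (max n 2 : ℕ))) ≤ Real.exp (-t * n) := by
    rw [Real.exp_le_exp, neg_mul, neg_le_neg_iff]
    exact mul_le_mul_of_nonneg_left (by exact_mod_cast le_max_left n 2) ht.le
  have h5 := Real.exp_pos (-t * n)
  nlinarith

lemma dd_mul_gg (t : ℝ) (n : ℕ) : dd n * gg t n = pT t n - iT t n := by
  unfold dd gg pT iT
  by_cases h : 2 ≤ n
  · rw [if_pos h, if_pos h, max_eq_left h]
    have h1 := log_ge_half h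
    by_cases hp : n.Prime
    · rw [if_pos hp, if_pos hp]
      field_simp
    · rw [if_neg hp, if_neg hp]
      ring
  · rw [if_neg h, if_neg h, if_neg (fun hp => h hp.two_le)]
    ring

/-- Abel summation for `P - I` -/
theorem P_sub_I {β K : ℝ} (hβ : 0 ≤ β) (hβ1 : β ≤ 1) (hK : 0 ≤ K)
    (hd : ∀ N : ℕ, |∑ n ∈ Finset.range N, dd n| ≤ K * (N : ℝ) ^ β) {t : ℝ} (ht : 0 < t) (ht1 : t ≤ 1) :
    |P t - I t| ≤ 6 * K * t ^ (-β) := by
  have ht' : 0 < t ^ (-β) := Real.rpow_pos_of_pos ht _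
  have key : ∀ M : ℕ, |∑ n ∈ Finset.range M, (pT t n - iT t n)| ≤ 6 * K * t ^ (-β) := by
    intro M
    have h1 := abel_bound (d := dd) (g := gg t) (c := fun N => K * t ^ (-β) * (1 + t * N)) (fun N => by
      refine (hd N).trans ?_
      rw [mul_assoc]
      refine mul_le_mul_of_nonneg_left ?_ hK
      have h2 : (N : ℝ) ^ β = t ^ (-β) * (t * N) ^ β := by
        rw [Real.mul_rpow ht.le (Nat.cast_nonneg _), Real.rpow_neg ht.le]
        have : t ^ β ≠ 0 := (Real.rpow_pos_of_pos ht _).ne'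
        field_simp
      rw [h2]
      refine mul_le_mul_of_nonneg_left ?_ ht'.le
      rcases le_or_gt (t * N) 1 with h | h
      · have := Real.rpow_le_one (by positivity : 0 ≤ t * N) h hβ
        have h0 : 0 ≤ t * (N : ℝ) := by positivity
        linarith
      · have := Real.rpow_le_rpow_of_exponent_le h.le hβ1
        rw [Real.rpow_one] at this
        linarith) (gg_anti ht) (gg_nonneg t) M
    simp only [dd_mul_gg] at h1
    refine h1.trans ?_
    have h3 : ∀ n : ℕ, (K * t ^ (-β) * (1 + t * ((n + 1 : ℕ) : ℝ)) - K * t ^ (-β) * (1 + t * (n : ℝ))) * gg t n =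
        K * t ^ (-β) * t * gg t n := by
      intro n
      push_cast
      ring
    simp only [h3]
    rw [← Finset.mul_sum]
    have h4 : ∑ n ∈ Finset.range M, gg t n ≤ 2 * (1 + 1 / t) := by
      refine (Finset.sum_le_sum fun n _ => gg_le ht n).trans ?_
      rw [← Finset.mul_sum]
      refine mul_le_mul_of_nonneg_left ?_ (by norm_num)
      exact ((summable_exp_nat ht).sum_le_tsum _ fun _ _ => (Real.exp_pos _).le).trans (tsum_exp_nat_le ht)
    have h5 : gg t 0 ≤ 2 := by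
      have := gg_le ht 0
      simpa using this
    have h6 : K * t ^ (-β) * t * ∑ n ∈ Finset.range M, gg t n ≤ K * t ^ (-β) * t * (2 * (1 + 1 / t)) :=
      mul_le_mul_of_nonneg_left h4 (by positivity)
    have h7 : K * t ^ (-β) * t * (2 * (1 + 1 / t)) = K * t ^ (-β) * (2 * t + 2) := by field_simp
    have h8 : K * t ^ (-β) * (2 * t + 2) ≤ K * t ^ (-β) * 4 :=
      mul_le_mul_of_nonneg_left (by linarith) (by positivity)
    have h9 : K * t ^ (-β) * (1 + t * ((0 : ℕ) : ℝ)) * gg t 0 ≤ K * t ^ (-β) * 2 := by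
      rw [Nat.cast_zero, mul_zero, add_zero, mul_one]
      exact mul_le_mul_of_nonneg_left h5 (by positivity)
    linarith
  have h1 : Tendsto (fun M => ∑ n ∈ Finset.range M, (pT t n - iT t n)) atTop (𝓝 (P t - I t)) := by
    have := ((pT_summable ht).sub (iT_summable ht)).hasSum.tendsto_sum_nat
    rwa [(pT_summable ht).tsum_sub (iT_summable ht)] at this
  exact le_of_tendsto h1.abs (Eventually.of_forall key)

/-- the partial sums of `dd` from a bound on `ψ` -/
lemma dd_bound {β C : ℝ} (hβ : 1 / 2 < β) (hC : 0 < C) (h : ∀ y : ℝ, 1 ≤ y → |Chebyshev.psi y - y| ≤ C * y ^ β) :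
    ∃ K : ℝ, 0 < K ∧ ∀ N : ℕ, |∑ n ∈ Finset.range N, dd n| ≤ K * (N : ℝ) ^ β := by
  refine ⟨C + 2 / (β - 1 / 2) + 1, by have : 0 < β - 1 / 2 := by linarith
                                      positivity, fun N => ?_⟩
  have hb : 0 < β - 1 / 2 := by linarith
  rcases Nat.eq_zero_or_pos N with rfl | hN
  · simp only [Finset.range_zero, Finset.sum_empty, abs_zero]
    positivity
  obtain ⟨M, rfl⟩ : ∃ M, N = M + 1 := ⟨N - 1, by omega⟩
  rcases Nat.eq_zero_or_pos M with rfl | hM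
  · have e : ∑ n ∈ Finset.range (0 + 1), dd n = 0 := by simp [dd]
    rw [e, abs_zero]
    positivity
  rw [sum_dd M hM]
  have hM1 : (1 : ℝ) ≤ M := by exact_mod_cast hM
  have h1 := h M hM1
  have h2 := Chebyshev.abs_psi_sub_theta_le_sqrt_mul_log hM1
  have h3 : √(M : ℝ) * Real.log M ≤ (M : ℝ) ^ β / (β - 1 / 2) := by
    have h4 := Real.log_le_rpow_div (by positivity : (0 : ℝ) ≤ M) hb
    calc √(M : ℝ) * Real.log M ≤ (M : ℝ) ^ (1 / 2 : ℝ) * ((M : ℝ) ^ (β - 1 / 2) / (β - 1 / 2)) := by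
          rw [Real.sqrt_eq_rpow]
          exact mul_le_mul_of_nonneg_left h4 (by positivity)
      _ = (M : ℝ) ^ β / (β - 1 / 2) := by
          rw [mul_div_assoc', ← Real.rpow_add (by positivity)]
          congr 2
          ring
  have h5 : (1 : ℝ) ≤ (M : ℝ) ^ β := Real.one_le_rpow hM1 (by linarith)
  have h6 : (M : ℝ) ^ β ≤ ((M + 1 : ℕ) : ℝ) ^ β :=
    Real.rpow_le_rpow (by positivity) (by push_cast; linarith) (by linarith)
  have h7 : |Chebyshev.theta (M : ℝ) - ((M : ℝ) - 1)| ≤ (C + 2 / (β - 1 / 2) + 1) * (M : ℝ) ^ β := by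
    have e : Chebyshev.theta (M : ℝ) - ((M : ℝ) - 1) =
        (Chebyshev.psi (M : ℝ) - M) + (-(Chebyshev.psi (M : ℝ) - Chebyshev.theta (M : ℝ))) + 1 := by ring
    rw [e]
    refine (abs_add_le _ _).trans ?_
    have := abs_add_le (Chebyshev.psi (M : ℝ) - M) (-(Chebyshev.psi (M : ℝ) - Chebyshev.theta (M : ℝ)))
    rw [abs_neg] at this
    rw [abs_one]
    have e2 : (C + 2 / (β - 1 / 2) + 1) * (M : ℝ) ^ β =
        C * (M : ℝ) ^ β + 2 * ((M : ℝ) ^ β / (β - 1 / 2)) + (M : ℝ) ^ β := by ring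
    rw [e2]
    nlinarith
  exact h7.trans (mul_le_mul_of_nonneg_left h6 (by positivity))

end

end Pool.Agent.Helper88.ZO
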