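import Pool.Agent.Helper88.ZO.D
import Pool.Agent.Helper88.ZO.F

/-!
# The Legendre transform, forward direction
-/

set_option autoImplicit false

open Filter Topology

namespace Pool.Agent.Helper88.ZO

noncomputable section

variable {a : ℕ → ℕ}

/-- the Legendre transform of `I` -/
def L (x : ℝ) : ℝ := ⨅ t : Set.Ioi (0 : ℝ), ((t : ℝ) * x + I t)

lemma L_le {x t : ℝ} (hx : 0 ≤ x) (ht : 0 < t) : L x ≤ t * x + I t := by
  refine ciInf_le (f := fun t : Set.Ioi (0 : ℝ) => ((t : ℝ) * x + I t)) ⟨0, ?_⟩ (⟨t, ht⟩ : Set.Ioi (0 : ℝ))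
  rintro _ ⟨s, rfl⟩
  have h1 : (0 : ℝ) < s := s.2
  have h2 := I_nonneg (s : ℝ)
  positivity

lemma L_near (x : ℝ) {η : ℝ} (hη : 0 < η) : ∃ t : ℝ, 0 < t ∧ t * x + I t < L x + η := by
  haveI : Nonempty (Set.Ioi (0 : ℝ)) := ⟨⟨1, by simp⟩⟩
  obtain ⟨s, hs⟩ := exists_lt_of_ciInf_lt (f := fun t : Set.Ioi (0 : ℝ) => ((t : ℝ) * x + I t))
    (show (⨅ t : Set.Ioi (0 : ℝ), ((t : ℝ) * x + I t)) < L x + η by unfold L; linarith)
  exact ⟨s, s.2, hs⟩

lemma L_le_sqrt {n : ℕ} (hn : 1 ≤ n) : L n ≤ 5 * (n : ℝ) ^ (1 / 2 : ℝ) := by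
  have hn0 : (1 : ℝ) ≤ n := by exact_mod_cast hn
  have h1 : (0 : ℝ) < (n : ℝ) ^ (-(1 / 2) : ℝ) := Real.rpow_pos_of_pos (by linarith) _
  have h2 : (n : ℝ) ^ (-(1 / 2) : ℝ) ≤ 1 := Real.rpow_le_one_of_one_le_of_nonpos hn0 (by norm_num)
  have h3 := L_le (x := n) (by linarith) h1
  have h4 := I_le h1 h2
  have h5 : (n : ℝ) ^ (-(1 / 2) : ℝ) * n = (n : ℝ) ^ (1 / 2 : ℝ) := by
    nth_rewrite 2 [← Real.rpow_one (n : ℝ)]
    rw [← Real.rpow_add (by linarith)]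
    norm_num
  have h6 : 4 / (n : ℝ) ^ (-(1 / 2) : ℝ) = 4 * (n : ℝ) ^ (1 / 2 : ℝ) := by
    rw [Real.rpow_neg (by linarith), div_inv_eq_mul]
  rw [h5] at h3
  rw [h6] at h4
  linarith

/-- the range of the near-minimisers -/
lemma near_range {ε : ℝ} (hε : 0 < ε) (hε1 : ε < 1 / 6) : ∀ᶠ n : ℕ in atTop, ∀ t : ℝ, 0 < t →
    t * n + I t < L n + 1 → (n : ℝ) ^ (-(1 / 2) - ε) ≤ t ∧ t ≤ 1 := by
  have e1 := (rpow_dom (α := 1 / 2 + ε / 2) (β := 1 / 2 + ε) (by linarith) (81 / ε))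
  filter_upwards [tendsto_natCast_atTop_atTop.eventually e1, eventually_ge_atTop 256] with n h1 hn t ht hlt
  have hn0 : (256 : ℝ) ≤ n := by exact_mod_cast hn
  have hL := L_le_sqrt (n := n) (by omega)
  set q := (n : ℝ) ^ (1 / 2 : ℝ) with hq
  have hqq : q * q = n := by
    rw [hq, ← Real.rpow_add (by linarith)]
    norm_num
  have hq0 : 0 < q := Real.rpow_pos_of_pos (by linarith) _
  have hq16 : 16 ≤ q := by nlinarith
  have hI := I_nonneg t
  constructor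
  · by_contra hcon
    push Not at hcon
    set y := (n : ℝ) ^ (1 / 2 + ε) with hy
    have hy0 : 0 < y := Real.rpow_pos_of_pos (by linarith) _
    have hyq : q ≤ y := Real.rpow_le_rpow_of_exponent_le (by linarith) (by linarith)
    have hyt : y * t ≤ 1 := by
      have : y * (n : ℝ) ^ (-(1 / 2) - ε) = 1 := by
        rw [hy, ← Real.rpow_add (by linarith)]
        norm_num
      nlinarith
    have h2 := I_ge ht (by linarith) hyt
    have hlog : Real.log y ≤ 2 / ε * (n : ℝ) ^ (ε / 2) := by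
      rw [hy, Real.log_rpow (by linarith)]
      have h3 := Real.log_le_rpow_div (x := n) (by linarith) (ε := ε / 2) (by linarith)
      have h4 : 0 ≤ Real.log n := Real.log_nonneg (by linarith)
      calc (1 / 2 + ε) * Real.log n ≤ 1 * Real.log n := mul_le_mul_of_nonneg_right (by linarith) h4
        _ ≤ (n : ℝ) ^ (ε / 2) / (ε / 2) := by linarith
        _ = 2 / ε * (n : ℝ) ^ (ε / 2) := by field_simp
    have hly : 0 < Real.log y := Real.log_pos (by linarith)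
    rw [div_le_iff₀ hly] at h2
    have h5 : I t ≤ 6 * q := by
      have : 0 ≤ t * n := by positivity
      linarith
    have h6 : I t * Real.log y ≤ 6 * q * (2 / ε * (n : ℝ) ^ (ε / 2)) :=
      mul_le_mul h5 hlog hly.le (by positivity)
    have h7 : q * (n : ℝ) ^ (ε / 2) = (n : ℝ) ^ (1 / 2 + ε / 2) := by
      rw [hq, ← Real.rpow_add (by linarith)]
    have h8 : 6 * q * (2 / ε * (n : ℝ) ^ (ε / 2)) = 12 / ε * (n : ℝ) ^ (1 / 2 + ε / 2) := by
      rw [← h7]; ring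
    rw [h8] at h6
    have h9 : 0 < (n : ℝ) ^ (1 / 2 + ε / 2) := Real.rpow_pos_of_pos (by linarith) _
    have h10 : 81 / ε * (n : ℝ) ^ (1 / 2 + ε / 2) = 81 / 12 * (12 / ε * (n : ℝ) ^ (1 / 2 + ε / 2)) := by
      field_simp
    rw [h10] at h1
    have h11 : 0 < 12 / ε * (n : ℝ) ^ (1 / 2 + ε / 2) := by positivity
    nlinarith
  · by_contra hcon
    push Not at hcon
    nlinarith

/-- the forward direction -/
theorem forward (ha : Cost a) {β C : ℝ} (hβ : 1 / 2 < β) (hβ1 : β ≤ 1) (hC : 0 ≤ C)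
    (hHI : ∀ t : ℝ, 0 < t → t ≤ 1 → |H a t - I t| ≤ C * t ^ (-β)) {ε : ℝ} (hε : 0 < ε) (hε1 : ε < 1 / 6) :
    ∀ᶠ n : ℕ in atTop, |Real.log (W a n) - L n| ≤ (n : ℝ) ^ (β / 2 + 3 * ε) := by
  have e1 := tendsto_natCast_atTop_atTop.eventually
    (rpow_dom (α := β / 2 + ε) (β := β / 2 + 3 * ε) (by linarith) (4 * C))
  have e2 := tendsto_natCast_atTop_atTop.eventually
    (rpow_dom (α := 1 / 4 + 2 * ε) (β := β / 2 + 3 * ε) (by linarith) 4)
  filter_upwards [e1, e2, near_range hε hε1, core ha hε hε1, eventually_ge_atTop 1] with n h1 h2 h3 h4 hn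
  have hn0 : (1 : ℝ) ≤ n := by exact_mod_cast hn
  have hone : 1 ≤ (n : ℝ) ^ (1 / 4 + 2 * ε) := Real.one_le_rpow hn0 (by linarith)
  -- the error term at `t ≥ n ^ (-1/2 - ε)`
  have herr : ∀ t : ℝ, (n : ℝ) ^ (-(1 / 2) - ε) ≤ t → t ≤ 1 → |H a t - I t| ≤ C * (n : ℝ) ^ (β / 2 + ε) := by
    intro t ht ht1
    have h5 : 0 < (n : ℝ) ^ (-(1 / 2) - ε) := Real.rpow_pos_of_pos (by linarith) _
    refine (hHI t (by linarith) ht1).trans (mul_le_mul_of_nonneg_left ?_ hC)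
    calc t ^ (-β) ≤ ((n : ℝ) ^ (-(1 / 2) - ε)) ^ (-β) := Real.rpow_le_rpow_of_nonpos h5 ht (by linarith)
      _ = (n : ℝ) ^ ((-(1 / 2) - ε) * (-β)) := by rw [← Real.rpow_mul (by linarith)]
      _ ≤ (n : ℝ) ^ (β / 2 + ε) := Real.rpow_le_rpow_of_exponent_le hn0 (by nlinarith)
  rw [abs_le]
  constructor
  · obtain ⟨t, ht, -, ht1, hW⟩ := h4
    have h5 : 0 < (n : ℝ) ^ (-(1 / 2) - ε) := Real.rpow_pos_of_pos (by linarith) _
    have h6 := L_le (x := n) (by linarith) (show 0 < t by linarith)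
    have h7 := abs_le.1 (herr t ht ht1)
    linarith
  · obtain ⟨t, ht, hlt⟩ := L_near (n : ℝ) (η := 1) one_pos
    obtain ⟨h5, h6⟩ := h3 t ht hlt
    have h7 := abs_le.1 (herr t h5 h6)
    have h8 := logW_le_H ha n ht h6
    linarith

end

end Pool.Agent.Helper88.ZO
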