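import Pool.Agent.Helper88.ZO.Sym

/-!
# Finite orders of elements of `GL_n(ℤ)` (the crystallographic restriction)
-/

set_option autoImplicit false

open Polynomial

namespace Pool.Agent.Helper88.ZO

/-- the cost of a prime power for integer matrices: Euler's function, except that `2` is free -/
def aphi (q : ℕ) : ℕ := if q = 2 then 0 else q.totient

lemma aphi_le (q : ℕ) : aphi q ≤ q.totient := by
  unfold aphi
  split_ifs
  · exact Nat.zero_le _
  · exact le_rfl

lemma cost_aphi : Cost aphi where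
  le := fun p k _ _ => (aphi_le _).trans (Nat.totient_le _)
  ge := fun p k hp hk => by
    unfold aphi
    split_ifs with h
    · omega
    · rw [Nat.totient_prime_pow hp hk]
      have h2 := hp.two_le
      obtain ⟨j, rfl⟩ : ∃ j, k = j + 1 := ⟨k - 1, by omega⟩
      rw [Nat.add_sub_cancel, pow_succ]
      obtain ⟨r, rfl⟩ : ∃ r, p = r + 2 := ⟨p - 2, by omega⟩
      have : r + 2 - 1 = r + 1 := by omega
      rw [this]
      nlinarith [Nat.zero_le ((r + 2) ^ j * r)]
  prime := fun p hp => by
    unfold aphi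
    split_ifs with h
    · omega
    · rw [Nat.totient_prime hp]
      omega

lemma cost_aphi_le (m : ℕ) (hm : m ≠ 0) : cost aphi m ≤ m.totient := by
  induction m using Nat.recOnPosPrimePosCoprime with
  | prime_pow p n hp hn => rw [cost_prime_pow aphi hp hn]; exact aphi_le _
  | zero => exact absurd rfl hm
  | one => rw [cost_one]; exact Nat.zero_le _
  | coprime a b ha hb hab iha ihb =>
    have iha := iha (by omega)
    have ihb := ihb (by omega)
    rw [cost_mul aphi hab, Nat.totient_mul hab]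
    have h2 : cost aphi 2 = 0 := by
      have := cost_prime_pow aphi Nat.prime_two (k := 1) le_rfl
      rw [pow_one] at this
      rw [this]
      rfl
    have hge : ∀ c : ℕ, 1 < c → c ≠ 2 → 2 ≤ c.totient := by
      intro c hc hc2
      have h3 := Nat.totient_even (n := c) (by omega)
      have h4 : 0 < c.totient := Nat.totient_pos.2 (by omega)
      obtain ⟨r, hr⟩ := h3
      omega
    by_cases ha2 : a = 2
    · rw [ha2, h2, Nat.totient_two, zero_add, one_mul]
      exact ihb
    · by_cases hb2 : b = 2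
      · rw [hb2, h2, Nat.totient_two, add_zero, mul_one]
        exact iha
      · have h5 := hge a ha ha2
        have h6 := hge b hb hb2
        nlinarith

/-! ## the upper bound -/

theorem cost_le_of_matrix {n m : ℕ} (A : Matrix (Fin n) (Fin n) ℤ) (hm : 0 < m) (hA : orderOf A = m) :
    cost aphi m ≤ n := by
  classical
  set B : Matrix (Fin n) (Fin n) ℚ := (Int.castRingHom ℚ).mapMatrix A with hB
  have hinj : Function.Injective ((Int.castRingHom ℚ).mapMatrix : Matrix (Fin n) (Fin n) ℤ →+* Matrix (Fin n) (Fin n) ℚ) := by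
    intro X Y hXY
    ext i j
    have := congrFun (congrFun hXY i) j
    simpa using this
  have hpow : ∀ k, B ^ k = 1 ↔ m ∣ k := by
    intro k
    rw [← hA, orderOf_dvd_iff_pow_eq_one, hB, ← map_pow]
    constructor
    · intro h
      exact hinj (by rw [h, map_one])
    · intro h
      rw [h, map_one]
  set q := minpoly ℚ B with hq
  have hqk : ∀ k, q ∣ X ^ k - 1 ↔ B ^ k = 1 := by
    intro k
    rw [hq, minpoly.dvd_iff]
    simp [sub_eq_zero]
  have hqm : q ∣ X ^ m - 1 := (hqk m).2 ((hpow m).2 dvd_rfl)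
  set D := m.divisors.filter (fun d => cyclotomic d ℚ ∣ q) with hD
  have hDm : ∀ d ∈ D, d ∣ m ∧ 0 < d := by
    intro d hd
    rw [hD, Finset.mem_filter, Nat.mem_divisors] at hd
    exact ⟨hd.1.1, Nat.pos_of_dvd_of_pos hd.1.1 hm⟩
  -- step 1
  have h1 : ∏ d ∈ D, cyclotomic d ℚ ∣ q := by
    refine Finset.prod_dvd_of_coprime ?_ ?_
    · intro x _ y _ hxy
      exact cyclotomic.isCoprime_rat hxy
    · intro d hd
      rw [hD, Finset.mem_filter] at hd
      exact hd.2
  have h2 : ∑ d ∈ D, d.totient ≤ n := by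
    have h3 : ∏ d ∈ D, cyclotomic d ℚ ∣ B.charpoly := h1.trans (Matrix.minpoly_dvd_charpoly B)
    have h4 := natDegree_le_of_dvd h3 (Matrix.charpoly_monic B).ne_zero
    rw [Matrix.charpoly_natDegree_eq_dim, Fintype.card_fin,
      natDegree_prod_of_monic _ _ fun d _ => cyclotomic.monic d ℚ] at h4
    simpa only [natDegree_cyclotomic] using h4
  -- step 2
  have h3 : q ∣ ∏ d ∈ D, cyclotomic d ℚ := by
    have h4 : q ∣ (∏ d ∈ D, cyclotomic d ℚ) * ∏ d ∈ m.divisors.filter (fun d => ¬cyclotomic d ℚ ∣ q), cyclotomic d ℚ := by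
      rw [hD, Finset.prod_filter_mul_prod_filter_not, prod_cyclotomic_eq_X_pow_sub_one hm]
      exact hqm
    refine IsCoprime.dvd_of_dvd_mul_right ?_ h4
    refine IsCoprime.prod_right fun d hd => ?_
    rw [Finset.mem_filter, Nat.mem_divisors] at hd
    have hd0 : 0 < d := Nat.pos_of_dvd_of_pos hd.1.1 hm
    exact ((cyclotomic.irreducible_rat hd0).coprime_iff_not_dvd.2 hd.2).symm
  -- step 3
  set M := D.val.lcm with hM
  have hMd : ∀ d ∈ D, d ∣ M := fun d hd => Multiset.dvd_lcm hd
  obtain ⟨hM0, hMc⟩ := cost_multiset_lcm_le aphi D.val fun d hd => (hDm d hd).2.ne'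
  have hMm : M ∣ m := Multiset.lcm_dvd.2 fun d hd => (hDm d hd).1
  have h4 : ∏ d ∈ D, cyclotomic d ℚ ∣ X ^ M - 1 := by
    rw [← prod_cyclotomic_eq_X_pow_sub_one (Nat.pos_of_ne_zero hM0)]
    exact Finset.prod_dvd_prod_of_subset _ _ _ fun d hd => Nat.mem_divisors.2 ⟨hMd d hd, hM0⟩
  have h5 : m ∣ M := (hpow M).1 ((hqk M).1 (h3.trans h4))
  have h6 : m = M := Nat.dvd_antisymm h5 hMm
  rw [h6]
  refine hMc.trans (le_trans ?_ h2)
  change (D.val.map (cost aphi)).sum ≤ (D.val.map Nat.totient).sum
  exact Multiset.sum_map_le_sum_map _ _ fun d hd => cost_aphi_le d (hDm d hd).2.ne'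

/-! ## the construction -/

lemma orderOf_root {q : ℕ} (hq : 0 < q) : orderOf (AdjoinRoot.root (cyclotomic q ℤ)) = q := by
  have hirr : Irreducible (cyclotomic q ℤ) := cyclotomic.irreducible hq
  have : IsDomain (AdjoinRoot (cyclotomic q ℤ)) := AdjoinRoot.isDomain_of_prime hirr.prime
  have hdeg : (cyclotomic q ℤ).degree ≠ 0 := by
    rw [degree_cyclotomic]
    have := Nat.totient_pos.2 hq
    exact_mod_cast this.ne'
  have hinj := AdjoinRoot.of.injective_of_degree_ne_zero hdeg
  have : NeZero ((q : ℕ) : AdjoinRoot (cyclotomic q ℤ)) := ⟨fun h => by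
    have h1 : AdjoinRoot.of (cyclotomic q ℤ) (q : ℤ) = AdjoinRoot.of (cyclotomic q ℤ) 0 := by
      rw [map_zero, map_natCast]
      exact h
    have h2 := hinj h1
    have : q = 0 := by exact_mod_cast h2
    omega⟩
  have h1 := AdjoinRoot.isRoot_root (cyclotomic q ℤ)
  rw [map_cyclotomic, isRoot_cyclotomic_iff] at h1
  exact h1.eq_orderOf.symm

/-- a ring with an element of order `m` -/
theorem exists_ring {m : ℕ} (hm : m ≠ 0) (h2 : m.factorization 2 ≠ 1) (k : ℕ) :
    ∃ A : Matrix (Fin (cost aphi m + k)) (Fin (cost aphi m + k)) ℤ, orderOf A = m := by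
  classical
  let R : m.primeFactors → Type := fun i => AdjoinRoot (cyclotomic ((i : ℕ) ^ m.factorization i) ℤ)
  let _ : ∀ i, CommRing (R i) := fun i => inferInstanceAs (CommRing (AdjoinRoot _))
  have : ∀ i, Module.Free ℤ (R i) := fun i =>
    Module.Free.of_basis (AdjoinRoot.powerBasis' (cyclotomic.monic ((i : ℕ) ^ m.factorization i) ℤ)).basis
  have : ∀ i, Module.Finite ℤ (R i) := fun i =>
    Module.Finite.of_basis (AdjoinRoot.powerBasis' (cyclotomic.monic ((i : ℕ) ^ m.factorization i) ℤ)).basis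
  have hfr : ∀ i : m.primeFactors, Module.finrank ℤ (R i) = ((i : ℕ) ^ m.factorization i).totient := by
    intro i
    have h := (AdjoinRoot.powerBasis' (cyclotomic.monic ((i : ℕ) ^ m.factorization i) ℤ)).finrank
    rw [AdjoinRoot.powerBasis'_dim, natDegree_cyclotomic] at h
    exact h
  let S := (∀ i, R i) × (Fin k → ℤ)
  let u : S := (fun i => (AdjoinRoot.root (cyclotomic ((i : ℕ) ^ m.factorization i) ℤ) : R i), 1)
  have hS : Module.finrank ℤ S = cost aphi m + k := by
    rw [Module.finrank_prod, Module.finrank_pi_fintype, Module.finrank_fin_fun]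
    congr 1
    simp only [hfr]
    rw [cost_eq_sum, Finset.sum_coe_sort m.primeFactors fun p => (p ^ m.factorization p).totient]
    refine Finset.sum_congr rfl fun p hp => ?_
    unfold aphi
    rw [if_neg]
    intro h
    have hp' := Nat.prime_of_mem_primeFactors hp
    have hf := fact_pos hp
    have h3 : p = 2 := by
      have h4 : p ∣ 2 := by
        rw [← h]
        exact dvd_pow_self p (by omega)
      exact (Nat.prime_dvd_prime_iff_eq hp' Nat.prime_two).1 h4
    subst h3
    have h4 : m.factorization 2 = 1 := by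
      have : 2 ^ m.factorization 2 = 2 ^ 1 := by rw [h, pow_one]
      exact Nat.pow_right_injective le_rfl this
    exact h2 h4
  have hu : orderOf u = m := by
    rw [Prod.orderOf, Pi.orderOf]
    have h3 : orderOf u.2 = 1 := orderOf_one
    rw [h3, Nat.lcm_one_right]
    have h4 : ∀ i : m.primeFactors, orderOf (u.1 i) = (i : ℕ) ^ m.factorization i := fun i =>
      orderOf_root (pow_pos (Nat.prime_of_mem_primeFactors i.2).pos _)
    simp only [h4]
    refine Nat.dvd_antisymm (Finset.lcm_dvd fun i _ => Nat.ordProj_dvd m i) ?_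
    rw [Nat.dvd_iff_prime_pow_dvd_dvd]
    intro p j hp hd
    rcases Nat.eq_zero_or_pos j with rfl | hj
    · rw [pow_zero]; exact one_dvd _
    have h1 : j ≤ m.factorization p := (hp.pow_dvd_iff_le_factorization hm).1 hd
    have hmem : p ∈ m.primeFactors := Nat.mem_primeFactors.2 ⟨hp, (dvd_pow_self p hj.ne').trans hd, hm⟩
    exact (pow_dvd_pow p h1).trans
      (Finset.dvd_lcm (f := fun i : m.primeFactors => (i : ℕ) ^ m.factorization i) (Finset.mem_univ ⟨p, hmem⟩))
  let b : Module.Basis (Fin (cost aphi m + k)) ℤ S := Module.finBasisOfFinrankEq ℤ S hS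
  refine ⟨Algebra.leftMulMatrix b u, ?_⟩
  have h5 := orderOf_injective (Algebra.leftMulMatrix b).toRingHom.toMonoidHom
    (fun x y h => Algebra.leftMulMatrix_injective b h) u
  exact h5.trans hu

theorem exists_matrix {n m : ℕ} (hn : 0 < n) (hm : 0 < m) (h : cost aphi m ≤ n) :
    ∃ A : Matrix (Fin n) (Fin n) ℤ, orderOf A = m := by
  by_cases h2 : m.factorization 2 = 1
  · -- `m = 2 m'` with `m'` odd
    obtain ⟨m', hm'⟩ : 2 ∣ m := Nat.dvd_of_factorization_pos (by omega)
    have hm0 : m' ≠ 0 := by rintro rfl; omega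
    have hodd : ¬2 ∣ m' := by
      intro h3
      have h4 : 2 ^ 2 ∣ m := by
        rw [hm', pow_two]
        exact mul_dvd_mul_left 2 h3
      have := (Nat.prime_two.pow_dvd_iff_le_factorization hm.ne').1 h4
      omega
    have hco : Nat.Coprime 2 m' := (Nat.Prime.coprime_iff_not_dvd Nat.prime_two).2 hodd
    have hf : m'.factorization 2 ≠ 1 := by
      rw [Nat.factorization_eq_zero_of_not_dvd hodd]
      norm_num
    have hc : cost aphi m = cost aphi m' := by
      have h3 : cost aphi 2 = 0 := by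
        have := cost_prime_pow aphi Nat.prime_two (k := 1) le_rfl
        rw [pow_one] at this
        rw [this]
        rfl
      rw [hm', cost_mul aphi hco, h3, zero_add]
    obtain ⟨k, rfl⟩ : ∃ k, n = cost aphi m' + k := ⟨n - cost aphi m', by omega⟩
    obtain ⟨A, hA⟩ := exists_ring hm0 hf k
    have hneg : orderOf (-1 : Matrix (Fin (cost aphi m' + k)) (Fin (cost aphi m' + k)) ℤ) = 2 := by
      refine orderOf_eq_prime (by simp) ?_
      intro h1
      have h3 := congrFun (congrFun h1 ⟨0, hn⟩) ⟨0, hn⟩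
      simp at h3
    have hcomm : Commute (-1 : Matrix (Fin (cost aphi m' + k)) (Fin (cost aphi m' + k)) ℤ) A :=
      (Commute.one_left A).neg_left
    refine ⟨-1 * A, ?_⟩
    rw [hcomm.orderOf_mul_eq_mul_orderOf_of_coprime (by rw [hneg, hA]; exact hco), hneg, hA, hm']
  · obtain ⟨k, rfl⟩ : ∃ k, n = cost aphi m + k := ⟨n - cost aphi m, by omega⟩
    exact exists_ring hm.ne' h2 k

/-- the finite orders of the elements of `GL_n(ℤ)` -/
theorem gl_orders {n : ℕ} (hn : 0 < n) :
    {m : ℕ | 0 < m ∧ ∃ g : Matrix.GeneralLinearGroup (Fin n) ℤ, orderOf g = m} =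
      {m : ℕ | 0 < m ∧ cost aphi m ≤ n} := by
  ext m
  constructor
  · rintro ⟨hm, g, hg⟩
    refine ⟨hm, cost_le_of_matrix (g : Matrix (Fin n) (Fin n) ℤ) hm ?_⟩
    rw [orderOf_units, hg]
  · rintro ⟨hm, h⟩
    obtain ⟨A, hA⟩ := exists_matrix hn hm h
    have h1 : A ^ m = 1 := by rw [← hA]; exact pow_orderOf_eq_one A
    refine ⟨hm, Units.ofPowEqOne A m h1 hm.ne', ?_⟩
    rw [← orderOf_units, Units.val_ofPowEqOne, hA]

end Pool.Agent.Helper88.ZO
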