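import Pool.Agent.Helper88.ZO.G

/-!
# The converse direction: from the counting function back to `H`
-/

set_option autoImplicit false

open Filter Topology

namespace Pool.Agent.Helper88.ZO

noncomputable section

variable {a : ℕ → ℕ}

lemma Z_le_of (ha : Cost a) (N : ℕ) {t : ℝ} (ht : 0 < t) {B : ℝ}
    (hB : ∀ M : ℕ, ∑ n ∈ Finset.range M, (W a n : ℝ) * Real.exp (-t * n) ≤ B) : Z a N t ≤ B := by
  classical
  obtain ⟨s0, hs0⟩ := hasSum_Z ha N ht
  rw [← hs0.tsum_eq]
  refine s0.tsum_le_of_sum_le fun S => ?_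
  have hmaps : ∀ m ∈ S, cost a (m : ℕ) ∈ Finset.range (S.sup (fun m => cost a (m : ℕ)) + 1) := fun m hm =>
    Finset.mem_range.2 (Nat.lt_succ_of_le (Finset.le_sup (f := fun m : N.smoothNumbers => cost a (m : ℕ)) hm))
  refine le_trans ?_ (hB (S.sup (fun m => cost a (m : ℕ)) + 1))
  rw [← Finset.sum_fiberwise_of_maps_to hmaps]
  refine Finset.sum_le_sum fun n _ => ?_
  have h1 : ∑ m ∈ S.filter (fun m : N.smoothNumbers => cost a (m : ℕ) = n), f a t (m : ℕ) =
      ((S.filter (fun m : N.smoothNumbers => cost a (m : ℕ) = n)).card : ℝ) * Real.exp (-t * n) := by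
    rw [← nsmul_eq_mul, ← Finset.sum_const]
    refine Finset.sum_congr rfl fun m hm => ?_
    rw [Finset.mem_filter] at hm
    unfold f
    rw [hm.2]
  rw [h1]
  refine mul_le_mul_of_nonneg_right ?_ (Real.exp_pos _).le
  have h2 : (S.filter (fun m : N.smoothNumbers => cost a (m : ℕ) = n)).card ≤ (W_finite ha n).toFinset.card := by
    refine Finset.card_le_card_of_injOn (fun m => (m : ℕ)) (fun m hm => ?_) (fun x _ y _ h => Subtype.ext h)
    rw [Finset.mem_coe, Finset.mem_filter] at hm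
    rw [Finset.mem_coe, Set.Finite.mem_toFinset]
    exact ⟨Nat.pos_of_ne_zero (Nat.ne_zero_of_mem_smoothNumbers m.2), hm.2.le⟩
  unfold W
  rw [Set.ncard_eq_toFinset_card _ (W_finite ha n)]
  exact_mod_cast h2

lemma H_le_log (ha : Cost a) {t : ℝ} (ht : 0 < t) (ht1 : t ≤ 1) {B : ℝ}
    (hB : ∀ M : ℕ, ∑ n ∈ Finset.range M, (W a n : ℝ) * Real.exp (-t * n) ≤ B) : H a t ≤ Real.log B := by
  have h1 : ∀ N : ℕ, H a t ≤ Real.log B + 9 / t * Real.exp (-(t / 2) * N) := by
    intro N
    refine (H_le_logZ ha N ht ht1).trans ?_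
    have := Real.log_le_log (zero_lt_one.trans_le (Z_ge_one ha N ht)) (Z_le_of ha N ht hB)
    linarith
  have h2 : Tendsto (fun N : ℕ => Real.log B + 9 / t * Real.exp (-(t / 2) * N)) atTop
      (𝓝 (Real.log B + 9 / t * 0)) := by
    refine tendsto_const_nhds.add (Tendsto.const_mul _ ?_)
    exact (summable_exp_nat (by linarith : 0 < t / 2)).tendsto_atTop_zero
  have h3 := ge_of_tendsto h2 (Eventually.of_forall h1)
  rwa [mul_zero, add_zero] at h3

/-- upper bound of `H` -/
lemma H_upper (ha : Cost a) {C κ : ℝ} (hC : 0 ≤ C) (hκ : 0 < κ)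
    (hW : ∀ n : ℕ, |Real.log (W a n) - L n| ≤ C * ((n : ℝ) + 1) ^ κ) {t : ℝ} (ht : 0 < t) (ht1 : t ≤ 1) :
    H a t ≤ I t + (C + 1 / κ) * (149 / t ^ 2) ^ κ := by
  have hW0 : ∀ n, (0 : ℝ) < W a n := fun n => by exact_mod_cast W_pos ha n
  set n0 := ⌈144 / t ^ 2⌉₊ with hn0
  set E0 := Real.exp (I t + C * ((n0 : ℝ) + 1) ^ κ) with hE0
  have ht2 : 1 ≤ 1 / t ^ 2 := by
    rw [le_div_iff₀ (by positivity)]
    nlinarith
  have hti : 1 / t ≤ 1 / t ^ 2 := by
    rw [div_le_div_iff₀ ht (by positivity)]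
    nlinarith
  have hn0' : (n0 : ℝ) ≤ 145 / t ^ 2 := by
    have := (Nat.ceil_lt_add_one (by positivity : 0 ≤ 144 / t ^ 2)).le
    rw [← hn0] at this
    have e1 : 145 / t ^ 2 = 144 / t ^ 2 + 1 / t ^ 2 := by ring
    linarith
  have hE1 : 1 ≤ E0 := by
    rw [hE0]
    refine Real.one_le_exp ?_
    have := I_nonneg t
    positivity
  have hterm : ∀ n : ℕ, (W a n : ℝ) * Real.exp (-t * n) ≤ (if n ≤ n0 then E0 else 0) + Real.exp (-(t / 2) * n) := by
    intro n
    by_cases hn : n ≤ n0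
    · rw [if_pos hn]
      have h1 : (W a n : ℝ) * Real.exp (-t * n) = Real.exp (Real.log (W a n) - t * n) := by
        rw [sub_eq_add_neg, Real.exp_add, Real.exp_log (hW0 n), neg_mul]
      have h2 : Real.log (W a n) - t * n ≤ I t + C * ((n0 : ℝ) + 1) ^ κ := by
        have h3 := (abs_le.1 (hW n)).2
        have h4 := L_le (x := n) (by positivity) ht
        have h5 : ((n : ℝ) + 1) ^ κ ≤ ((n0 : ℝ) + 1) ^ κ :=
          Real.rpow_le_rpow (by positivity) (by have : (n : ℝ) ≤ n0 := by exact_mod_cast hn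
                                                linarith) hκ.le
        have := mul_le_mul_of_nonneg_left h5 hC
        linarith
      rw [h1]
      have := Real.exp_le_exp.2 h2
      have h6 := Real.exp_pos (-(t / 2) * n)
      linarith
    · rw [if_neg hn, zero_add]
      push Not at hn
      have h1 : (W a n : ℝ) * Real.exp (-t * n) = Real.exp (Real.log (W a n) - t * n) := by
        rw [sub_eq_add_neg, Real.exp_add, Real.exp_log (hW0 n), neg_mul]
      rw [h1, Real.exp_le_exp]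
      have h2 := logW_le_H ha n (t := t / 4) (by linarith) (by linarith)
      have h3 := H_le ha (t := t / 4) (by linarith) (by linarith)
      have h4 : 144 / t ^ 2 ≤ n := (Nat.le_ceil _).trans (by exact_mod_cast hn.le)
      have h5 : 9 / (t / 4) ≤ t / 4 * n := by
        rw [div_le_iff₀ (by positivity)] at h4
        rw [div_le_iff₀ (by positivity)]
        nlinarith
      linarith
  have hB : ∀ M : ℕ, ∑ n ∈ Finset.range M, (W a n : ℝ) * Real.exp (-t * n) ≤ (n0 + 1) * E0 + (1 + 1 / (t / 2)) := by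
    intro M
    refine (Finset.sum_le_sum fun n _ => hterm n).trans ?_
    rw [Finset.sum_add_distrib]
    refine add_le_add ?_ ?_
    · rw [← Finset.sum_filter, Finset.sum_const, nsmul_eq_mul]
      refine mul_le_mul_of_nonneg_right ?_ (by linarith)
      have : ((Finset.range M).filter fun n => n ≤ n0) ⊆ Finset.range (n0 + 1) := by
        intro n hn
        rw [Finset.mem_filter] at hn
        rw [Finset.mem_range]
        omega
      have := Finset.card_le_card this
      rw [Finset.card_range] at this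
      exact_mod_cast this
    · exact ((summable_exp_nat (by linarith : 0 < t / 2)).sum_le_tsum _ fun _ _ => (Real.exp_pos _).le).trans
        (tsum_exp_nat_le (by linarith))
  refine (H_le_log ha ht ht1 hB).trans ?_
  have h1 : ((n0 : ℝ) + 1) * E0 + (1 + 1 / (t / 2)) ≤ 149 / t ^ 2 * E0 := by
    have e1 : 1 / (t / 2) = 2 * (1 / t) := by field_simp
    have e2 : (149 : ℝ) / t ^ 2 = 145 / t ^ 2 + 4 * (1 / t ^ 2) := by ring
    rw [e1, e2]
    have h3 : (0 : ℝ) < 1 / t := by positivity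
    nlinarith
  have hn1 : (0 : ℝ) < (n0 : ℝ) + 1 := by positivity
  refine (Real.log_le_log (by positivity) h1).trans ?_
  rw [Real.log_mul (by positivity) (by linarith), hE0, Real.log_exp]
  have h2 : Real.log (149 / t ^ 2) ≤ 1 / κ * (149 / t ^ 2) ^ κ := by
    have := Real.log_le_rpow_div (x := 149 / t ^ 2) (by positivity) hκ
    calc _ ≤ _ := this
      _ = _ := by ring
  have h3 : ((n0 : ℝ) + 1) ^ κ ≤ (149 / t ^ 2) ^ κ := by
    refine Real.rpow_le_rpow (by positivity) ?_ hκ.le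
    have e2 : (149 : ℝ) / t ^ 2 = 145 / t ^ 2 + 4 * (1 / t ^ 2) := by ring
    rw [e2]
    linarith
  have h4 := mul_le_mul_of_nonneg_left h3 hC
  rw [add_mul]
  linarith

/-! ## the subgradient -/

lemma phi_convex (u v : ℝ) : phi v - (u - v) * (1 / (1 + Real.exp v)) ≤ phi u := by
  have hv := Real.exp_pos v
  have h0 : 0 < 1 + Real.exp v := by linarith
  set p := 1 / (1 + Real.exp v) with hp
  have hp0 : 0 < p := by positivity
  have hp1 : p ≤ 1 := by
    rw [hp, div_le_one h0]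
    linarith
  have hc := convexOn_exp.2 (Set.mem_univ (0 : ℝ)) (Set.mem_univ (-(u - v)))
    (by linarith : 0 ≤ 1 - p) hp0.le (by ring)
  simp only [smul_eq_mul, mul_zero, zero_add, Real.exp_zero, mul_one] at hc
  have h1 : 0 < 1 + Real.exp (-v) := by linarith [Real.exp_pos (-v)]
  have h2 : 0 < 1 + Real.exp (-u) := by linarith [Real.exp_pos (-u)]
  have h3 : (1 - p + p * Real.exp (-(u - v))) * (1 + Real.exp (-v)) = 1 + Real.exp (-u) := by
    have e1 : Real.exp (-(u - v)) = Real.exp (-u) * Real.exp v := by rw [← Real.exp_add]; ring_nf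
    have e2 : Real.exp (-v) * Real.exp v = 1 := by rw [← Real.exp_add]; simp
    have e3 : p * (1 + Real.exp v) = 1 := by rw [hp]; field_simp
    have e4 : p * Real.exp v * (1 + Real.exp (-v)) = 1 := by
      have : p * Real.exp v * (1 + Real.exp (-v)) = p * (Real.exp v + Real.exp (-v) * Real.exp v) := by ring
      rw [this, e2, add_comm, e3]
    have e5 : (1 - p) * (1 + Real.exp (-v)) = 1 := by
      have h5 : 1 - p = p * Real.exp v := by linarith
      rw [h5, e4]
    calc (1 - p + p * Real.exp (-(u - v))) * (1 + Real.exp (-v)) =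
        (1 - p) * (1 + Real.exp (-v)) + Real.exp (-u) * (p * Real.exp v * (1 + Real.exp (-v))) := by rw [e1]; ring
      _ = 1 + Real.exp (-u) := by rw [e5, e4, mul_one]
  have h4 : Real.exp (p * (-(u - v))) * (1 + Real.exp (-v)) ≤ 1 + Real.exp (-u) := by
    rw [← h3]
    exact mul_le_mul_of_nonneg_right hc h1.le
  have h5 := Real.log_le_log (by positivity) h4
  rw [Real.log_mul (Real.exp_pos _).ne' h1.ne', Real.log_exp] at h5
  unfold phi
  linarith

/-- the terms of the derivative -/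
def xT (t : ℝ) (m : ℕ) : ℝ := if 2 ≤ m then m * (1 / (1 + Real.exp (t * m))) / Real.log m else 0

lemma xT_nonneg (t : ℝ) (m : ℕ) : 0 ≤ xT t m := by
  unfold xT
  split_ifs with h
  · have := log_ge_half h
    have h2 := Real.exp_pos (t * m)
    exact div_nonneg (by positivity) (by linarith)
  · exact le_rfl

lemma xT_le {t : ℝ} (ht : 0 < t) (m : ℕ) : xT t m ≤ 4 / t * Real.exp (-(t / 2) * m) := by
  unfold xT
  split_ifs with h
  · have h1 := log_ge_half h
    have h2 := Real.exp_pos (t * m)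
    rw [div_le_iff₀ (by linarith)]
    have h3 : 1 / (1 + Real.exp (t * m)) ≤ Real.exp (-(t * m)) := by
      rw [Real.exp_neg, one_div]
      exact inv_anti₀ h2 (by linarith)
    have h4 : (m : ℝ) * Real.exp (-(t * m)) ≤ 2 / t * Real.exp (-(t / 2) * m) := by
      have h5 := Real.add_one_le_exp (t / 2 * m)
      have h6 : (m : ℝ) ≤ 2 / t * Real.exp (t / 2 * m) := by
        rw [div_mul_eq_mul_div, le_div_iff₀ ht]
        linarith
      calc (m : ℝ) * Real.exp (-(t * m)) ≤ 2 / t * Real.exp (t / 2 * m) * Real.exp (-(t * m)) :=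
            mul_le_mul_of_nonneg_right h6 (Real.exp_pos _).le
        _ = 2 / t * Real.exp (-(t / 2) * m) := by
            rw [mul_assoc, ← Real.exp_add]
            congr 2
            ring
    have h5 : (m : ℝ) * (1 / (1 + Real.exp (t * m))) ≤ m * Real.exp (-(t * m)) :=
      mul_le_mul_of_nonneg_left h3 (by positivity)
    have h6 : 0 < 2 / t * Real.exp (-(t / 2) * m) := by positivity
    calc (m : ℝ) * (1 / (1 + Real.exp (t * m))) ≤ 2 / t * Real.exp (-(t / 2) * m) := h5.trans h4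
      _ = 4 / t * Real.exp (-(t / 2) * m) * (1 / 2) := by ring
      _ ≤ 4 / t * Real.exp (-(t / 2) * m) * Real.log m := mul_le_mul_of_nonneg_left h1.le (by positivity)
  · positivity

lemma xT_summable {t : ℝ} (ht : 0 < t) : Summable (xT t) :=
  Summable.of_nonneg_of_le (xT_nonneg t) (xT_le ht) ((summable_exp_nat (by linarith)).mul_left _)

lemma tsum_xT_le {t : ℝ} (ht : 0 < t) (ht1 : t ≤ 1) : ∑' m, xT t m ≤ 12 / t ^ 2 := by
  have h1 := (xT_summable ht).tsum_le_tsum (xT_le ht) ((summable_exp_nat (by linarith)).mul_left _)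
  rw [tsum_mul_left] at h1
  have h2 := tsum_exp_nat_le (c := t / 2) (by linarith)
  have h3 : 4 / t * ∑' m : ℕ, Real.exp (-(t / 2) * m) ≤ 4 / t * (1 + 1 / (t / 2)) :=
    mul_le_mul_of_nonneg_left h2 (by positivity)
  have h4 : 4 / t * (1 + 1 / (t / 2)) ≤ 12 / t ^ 2 := by
    rw [le_div_iff₀ (by positivity)]
    have : 4 / t * (1 + 1 / (t / 2)) * t ^ 2 = 4 * t + 8 := by
      field_simp
      ring
    linarith
  linarith

/-- the subgradient inequality -/
lemma I_subgrad {s t : ℝ} (hs : 0 < s) (ht : 0 < t) : I t - (s - t) * ∑' m, xT t m ≤ I s := by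
  unfold I
  rw [← tsum_mul_left, ← (iT_summable ht).tsum_sub ((xT_summable ht).mul_left _)]
  refine ((iT_summable ht).sub ((xT_summable ht).mul_left _)).tsum_le_tsum (fun m => ?_) (iT_summable hs)
  unfold iT xT
  split_ifs with h
  · have h1 := log_ge_half h
    have h2 := phi_convex (s * m) (t * m)
    rw [mul_div_assoc', ← sub_div]
    refine div_le_div_of_nonneg_right ?_ (by linarith)
    calc _ = phi (t * m) - (s * m - t * m) * (1 / (1 + Real.exp (t * m))) := by ring
      _ ≤ _ := h2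
  · simp

/-- lower bound of `H` -/
lemma H_lower (ha : Cost a) {C κ : ℝ} (hC : 0 ≤ C) (hκ : 0 < κ)
    (hW : ∀ n : ℕ, |Real.log (W a n) - L n| ≤ C * ((n : ℝ) + 1) ^ κ) {t : ℝ} (ht : 0 < t) (ht1 : t ≤ 1) :
    I t - 1 - C * (149 / t ^ 2) ^ κ ≤ H a t := by
  set x := ∑' m, xT t m with hx
  have hx0 : 0 ≤ x := tsum_nonneg (xT_nonneg t)
  set n := ⌈x⌉₊ with hn
  have hnx : x ≤ n := Nat.le_ceil _
  have hnx' : (n : ℝ) ≤ x + 1 := (Nat.ceil_lt_add_one hx0).le
  have ht2 : 1 ≤ 1 / t ^ 2 := by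
    rw [le_div_iff₀ (by positivity)]
    nlinarith
  have h1 : I t + t * n - 1 ≤ L n := by
    haveI : Nonempty (Set.Ioi (0 : ℝ)) := ⟨⟨1, by simp⟩⟩
    refine le_ciInf fun s => ?_
    have hs : (0 : ℝ) < s := s.2
    have h2 := I_subgrad hs ht
    rw [← hx] at h2
    have h3 : t * (n - x) ≤ 1 := by nlinarith
    nlinarith
  have h2 := (abs_le.1 (hW n)).1
  have h3 := logW_le_H ha n ht ht1
  have h4 : ((n : ℝ) + 1) ^ κ ≤ (149 / t ^ 2) ^ κ := by
    refine Real.rpow_le_rpow (by positivity) ?_ hκ.le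
    have h5 := tsum_xT_le ht ht1
    rw [← hx] at h5
    have e2 : (149 : ℝ) / t ^ 2 = 12 / t ^ 2 + 137 * (1 / t ^ 2) := by ring
    rw [e2]
    linarith
  have h5 := mul_le_mul_of_nonneg_left h4 hC
  linarith

/-- the converse direction for `H` -/
theorem H_sub_I (ha : Cost a) {C κ : ℝ} (hC : 0 ≤ C) (hκ : 0 < κ)
    (hW : ∀ n : ℕ, |Real.log (W a n) - L n| ≤ C * ((n : ℝ) + 1) ^ κ) :
    ∃ C' : ℝ, 0 < C' ∧ ∀ t : ℝ, 0 < t → t ≤ 1 → |H a t - I t| ≤ C' * t ^ (-(2 * κ)) := by
  refine ⟨(C + 1 / κ) * 149 ^ κ + 1 , by positivity, fun t ht ht1 => ?_⟩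
  have h1 := H_upper ha hC hκ hW ht ht1
  have h2 := H_lower ha hC hκ hW ht ht1
  have h3 : (149 / t ^ 2) ^ κ = 149 ^ κ * t ^ (-(2 * κ)) := by
    rw [Real.div_rpow (by norm_num) (by positivity), div_eq_mul_inv, ← Real.rpow_natCast, ← Real.rpow_mul ht.le,
      ← Real.rpow_neg ht.le]
    norm_num
  rw [h3] at h1 h2
  have h4 : 1 ≤ t ^ (-(2 * κ)) := by
    rw [Real.rpow_neg ht.le]
    exact (one_le_inv₀ (by positivity)).2 (Real.rpow_le_one ht.le ht1 (by linarith))
  have h5 : 0 < (149 : ℝ) ^ κ * t ^ (-(2 * κ)) := by positivity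
  have h6 : 0 < 1 / κ := by positivity
  have h7 : 0 < 1 / κ * ((149 : ℝ) ^ κ * t ^ (-(2 * κ))) := by positivity
  rw [abs_le]
  constructor
  · nlinarith
  · nlinarith

end

end Pool.Agent.Helper88.ZO
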