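import Pool.Agent.Helper88.ZO.E

/-!
# Zero-free half-planes from the continuation of `∑ (1_prime - 1 / log n) n ^ (-s)`
-/

set_option autoImplicit false

open Filter Topology Complex LSeries

namespace Pool.Agent.Helper88.ZO

noncomputable section

/-- the coefficients `1_prime - 1 / log n` -/
def cR (n : ℕ) : ℝ := if 2 ≤ n then (if n.Prime then 1 else 0) - 1 / Real.log n else 0

/-- the complex version of `cR` -/
def cC (n : ℕ) : ℂ := (cR n : ℂ)

lemma abs_cR_le (n : ℕ) : |cR n| ≤ 3 := by
  unfold cR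
  split_ifs with h hp
  · have h1 := log_ge_half h
    have h2 : 1 / Real.log n ≤ 2 := by rw [div_le_iff₀ (by linarith)]; linarith
    have h3 : 0 < 1 / Real.log n := by have : 0 < Real.log n := by linarith
                                       positivity
    rw [abs_le]; constructor <;> linarith
  · have h1 := log_ge_half h
    have h2 : 1 / Real.log n ≤ 2 := by rw [div_le_iff₀ (by linarith)]; linarith
    have h3 : 0 < 1 / Real.log n := by have : 0 < Real.log n := by linarith
                                       positivity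
    rw [abs_le]; constructor <;> linarith
  · norm_num

lemma cC_absc : abscissaOfAbsConv cC ≤ 1 :=
  abscissaOfAbsConv_le_of_le_const ⟨3, fun n _ => by
    unfold cC
    rw [Complex.norm_real, Real.norm_eq_abs]
    exact abs_cR_le n⟩

/-- `Λ - 1_prime log` -/
def dL (n : ℕ) : ℝ := ArithmeticFunction.vonMangoldt n - (if n.Prime then Real.log n else 0)

lemma dL_nonneg (n : ℕ) : 0 ≤ dL n := by
  unfold dL
  split_ifs with h
  · rw [ArithmeticFunction.vonMangoldt_apply_prime h, sub_self]
  · rw [sub_zero]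
    exact ArithmeticFunction.vonMangoldt_nonneg

lemma sum_dL (n : ℕ) : ∑ k ∈ Finset.Icc 1 n, dL k = Chebyshev.psi n - Chebyshev.theta n := by
  unfold dL Chebyshev.psi Chebyshev.theta
  rw [Finset.sum_sub_distrib, Nat.floor_natCast, Finset.sum_filter]
  rfl

lemma dL_summable {s : ℂ} (hs : 1 / 2 < s.re) : LSeriesSummable (fun n => (dL n : ℂ)) s := by
  obtain ⟨r, h1, h2⟩ := exists_between hs
  refine LSeriesSummable_of_sum_norm_bigO_and_nonneg (f := dL) ?_ dL_nonneg (by linarith) h2
  refine Asymptotics.IsBigO.of_bound (2 / (r - 1 / 2)) ?_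
  filter_upwards [eventually_ge_atTop 1] with n hn
  have hn1 : (1 : ℝ) ≤ n := by exact_mod_cast hn
  rw [sum_dL, Real.norm_eq_abs, Real.norm_of_nonneg (by positivity)]
  refine (Chebyshev.abs_psi_sub_theta_le_sqrt_mul_log hn1).trans ?_
  have h4 := Real.log_le_rpow_div (by positivity : (0 : ℝ) ≤ n) (by linarith : 0 < r - 1 / 2)
  calc 2 * √(n : ℝ) * Real.log n ≤ 2 * (n : ℝ) ^ (1 / 2 : ℝ) * ((n : ℝ) ^ (r - 1 / 2) / (r - 1 / 2)) := by
        rw [Real.sqrt_eq_rpow]
        exact mul_le_mul_of_nonneg_left h4 (by positivity)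
    _ = 2 / (r - 1 / 2) * ((n : ℝ) ^ (1 / 2 : ℝ) * (n : ℝ) ^ (r - 1 / 2)) := by ring
    _ = _ := by
        rw [← Real.rpow_add (by positivity)]
        congr 2
        ring

lemma dL_absc {s : ℂ} (hs : 1 / 2 < s.re) : abscissaOfAbsConv (fun n => (dL n : ℂ)) < s.re := by
  obtain ⟨r, h1, h2⟩ := exists_between hs
  have h3 := (dL_summable (s := (r : ℂ)) (by simpa using h1)).abscissaOfAbsConv_le
  rw [Complex.ofReal_re] at h3
  exact h3.trans_lt (by exact_mod_cast h2)

/-- the indicator of `n ≥ 2` -/
lemma log_identity {s : ℂ} (hs : 1 < s.re) :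
    LSeries (fun n => (ArithmeticFunction.vonMangoldt n : ℂ)) s =
      -deriv (LSeries cC) s + (riemannZeta s - 1) + LSeries (fun n => (dL n : ℂ)) s := by
  have h0 : abscissaOfAbsConv cC < s.re := cC_absc.trans_lt (by exact_mod_cast hs)
  rw [LSeries_deriv h0, neg_neg]
  have hsum1 : LSeriesSummable (logMul cC) s := LSeriesSummable_logMul_of_lt_re h0
  have hsum2 : LSeriesSummable (fun n => (dL n : ℂ)) s := dL_summable (by linarith)
  have hsum3 : LSeriesSummable 1 s := LSeriesSummable_one_iff.2 hs
  have hsum4 : LSeriesSummable LSeries.delta s := by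
    unfold LSeriesSummable
    have : LSeries.term LSeries.delta s = fun n => if n = 1 then 1 else 0 := by
      ext n
      exact LSeries.term_delta s n
    rw [this]
    exact (hasSum_ite_eq 1 (1 : ℂ)).summable
  rw [← LSeries_one_eq_riemannZeta hs]
  have e1 : (1 : ℂ) = LSeries LSeries.delta s := by rw [LSeries_delta]; rfl
  rw [e1, ← LSeries_sub hsum3 hsum4, ← LSeries_add hsum1 (hsum3.sub hsum4),
    ← LSeries_add (hsum1.add (hsum3.sub hsum4)) hsum2]
  refine LSeries_congr (fun {n} hn => ?_) s
  simp only [Pi.add_apply, Pi.sub_apply, Pi.one_apply, logMul]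
  unfold cC cR dL LSeries.delta
  rcases Nat.lt_or_ge n 2 with h | h
  · have : n = 1 := by omega
    subst this
    simp
  · have h1 := log_ge_half h
    have h2 : Real.log n ≠ 0 := by linarith
    have h3 : Complex.log n ≠ 0 := by
      rw [← Complex.natCast_log]
      exact_mod_cast h2
    rw [if_pos h, if_neg (show ¬n = 1 by omega), ← Complex.natCast_log]
    by_cases hp : n.Prime
    · rw [if_pos hp, if_pos hp]
      push_cast
      field_simp
      ring
    · rw [if_neg hp, if_neg hp]
      push_cast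
      field_simp
      ring

/-- zero-free half-planes from the continuation of `∑ (1_prime - 1 / log n) n ^ (-s)` -/
theorem zero_free_of_cont {β : ℝ} (hβ : 1 / 2 ≤ β) {G : ℂ → ℂ} (hG : DifferentiableOn ℂ G {s | β < s.re})
    (hEq : ∀ s : ℂ, 1 < s.re → β < s.re → G s = LSeries cC s) :
    ∀ s : ℂ, β < s.re → riemannZeta s ≠ 0 := by
  set U : Set ℂ := {s | β < s.re} with hU
  have hUo : IsOpen U := isOpen_lt continuous_const Complex.continuous_re
  have hUc : IsPreconnected U := (convex_halfSpace_re_gt β).isPreconnected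
  have hG' : DifferentiableOn ℂ (deriv G) U := hG.deriv hUo
  have hA : DifferentiableOn ℂ (LSeries fun n => (dL n : ℂ)) U :=
    (LSeries_differentiableOn _).mono fun s hs => dL_absc (lt_of_le_of_lt hβ hs)
  have hZ : Differentiable ℂ riemannZeta₁ := differentiable_riemannZeta₁
  have hZ' : Differentiable ℂ (deriv riemannZeta₁) := fun z => (hZ.analyticAt z).deriv.differentiableAt
  set g : ℂ → ℂ := fun s => 1 - riemannZeta₁ s + (s - 1) * (1 + deriv G s - LSeries (fun n => (dL n : ℂ)) s) with hg
  have hgd : DifferentiableOn ℂ g U := by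
    have h1 : DifferentiableOn ℂ (fun s : ℂ => s - 1) U := by fun_prop
    have h2 : DifferentiableOn ℂ riemannZeta₁ U := hZ.differentiableOn
    exact ((differentiableOn_const _).sub h2).add (h1.mul (((differentiableOn_const _).add hG').sub hA))
  have hf1 : DifferentiableOn ℂ (fun s => (s - 1) * deriv riemannZeta₁ s) U := by
    have h1 : DifferentiableOn ℂ (fun s : ℂ => s - 1) U := by fun_prop
    exact h1.mul hZ'.differentiableOn
  have hf2 : DifferentiableOn ℂ (fun s => riemannZeta₁ s * g s) U := hZ.differentiableOn.mul hgd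
  -- the identity for `re s > 1`
  have hloc : ∀ s : ℂ, 1 < s.re → β < s.re → (s - 1) * deriv riemannZeta₁ s = riemannZeta₁ s * g s := by
    intro s hs hsβ
    have hs1 : s ≠ 1 := by rintro rfl; simp at hs
    have hs2 : s - 1 ≠ 0 := sub_ne_zero.2 hs1
    have h1 := log_identity hs
    rw [ArithmeticFunction.LSeries_vonMangoldt_eq_deriv_riemannZeta_div hs] at h1
    have h2 : deriv G s = deriv (LSeries cC) s := by
      refine Filter.EventuallyEq.deriv_eq ?_
      have ho : IsOpen {s : ℂ | 1 < s.re ∧ β < s.re} :=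
        (isOpen_lt continuous_const Complex.continuous_re).inter hUo
      filter_upwards [ho.mem_nhds ⟨hs, hsβ⟩] with z hz
      exact hEq z hz.1 hz.2
    have h3 := riemannZeta_ne_zero_of_one_lt_re hs
    have h4 : riemannZeta₁ s = (s - 1) * riemannZeta s := by
      rw [riemannZeta_eq_inv_sub_mul hs1, ← mul_assoc, mul_inv_cancel₀ hs2, one_mul]
    have h5 := deriv_riemannZeta_eq_neg_inv_sub_sq_mul_add hs1
    have h6 : (s - 1) * deriv riemannZeta₁ s = (s - 1) ^ 2 * deriv riemannZeta s + riemannZeta₁ s := by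
      rw [h5]
      field_simp
      ring
    rw [h6, hg]
    simp only
    rw [h2]
    rw [div_eq_iff h3] at h1
    have h7 : deriv riemannZeta s = -((-deriv (LSeries cC) s + (riemannZeta s - 1) +
        LSeries (fun n => (dL n : ℂ)) s) * riemannZeta s) := by
      rw [← h1, neg_neg]
    rw [h7, h4]
    ring
  -- the identity theorem
  have hall : Set.EqOn (fun s => (s - 1) * deriv riemannZeta₁ s) (fun s => riemannZeta₁ s * g s) U := by
    have hz0 : ((max β 1 + 1 : ℝ) : ℂ) ∈ U := by
      rw [hU, Set.mem_ofPred_eq, Complex.ofReal_re]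
      have := le_max_left β 1
      linarith
    refine (hf1.analyticOnNhd hUo).eqOn_of_preconnected_of_eventuallyEq (hf2.analyticOnNhd hUo) hUc hz0 ?_
    have ho : IsOpen {s : ℂ | 1 < s.re ∧ β < s.re} :=
      (isOpen_lt continuous_const Complex.continuous_re).inter hUo
    filter_upwards [ho.mem_nhds (⟨by
      rw [Complex.ofReal_re]
      have := le_max_right β 1
      linarith, hz0⟩ : ((max β 1 + 1 : ℝ) : ℂ) ∈ {s : ℂ | 1 < s.re ∧ β < s.re})] with z hz
    exact hloc z hz.1 hz.2
  -- orders of vanishing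
  intro ρ hρ h0
  have hρ1 : ρ ≠ 1 := by
    rintro rfl
    exact riemannZeta_ne_zero_of_one_le_re (by simp) h0
  have hρ2 : ρ - 1 ≠ 0 := sub_ne_zero.2 hρ1
  have hZ0 : riemannZeta₁ ρ = 0 := by
    have h4 : riemannZeta₁ ρ = (ρ - 1) * riemannZeta ρ := by
      rw [riemannZeta_eq_inv_sub_mul hρ1, ← mul_assoc, mul_inv_cancel₀ hρ2, one_mul]
    rw [h4, h0, mul_zero]
  have hZa : AnalyticAt ℂ riemannZeta₁ ρ := hZ.analyticAt ρ
  have hne : analyticOrderAt riemannZeta₁ ρ ≠ ⊤ := by
    intro htop
    rw [analyticOrderAt_eq_top] at htop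
    have h1 : AnalyticOnNhd ℂ riemannZeta₁ Set.univ := fun z _ => hZ.analyticAt z
    have h2 := h1.eqOn_zero_of_preconnected_of_eventuallyEq_zero isPreconnected_univ (Set.mem_univ ρ) htop
    have h3 := h2 (Set.mem_univ 1)
    rw [riemannZeta₁_one] at h3
    exact one_ne_zero h3
  have hga : AnalyticAt ℂ g ρ := hgd.analyticAt (hUo.mem_nhds hρ)
  have h1 : analyticOrderAt (fun s => (s - 1) * deriv riemannZeta₁ s) ρ =
      analyticOrderAt (fun s => riemannZeta₁ s * g s) ρ := by
    refine analyticOrderAt_congr ?_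
    filter_upwards [hUo.mem_nhds hρ] with z hz
    exact hall hz
  have ha1 : AnalyticAt ℂ (fun s : ℂ => s - 1) ρ := by fun_prop
  have h2 : analyticOrderAt (fun s => (s - 1) * deriv riemannZeta₁ s) ρ = analyticOrderAt (deriv riemannZeta₁) ρ := by
    have := analyticOrderAt_mul ha1 hZa.deriv
    rw [show (fun s => (s - 1) * deriv riemannZeta₁ s) = (fun s : ℂ => s - 1) * deriv riemannZeta₁ from rfl, this,
      (ha1.analyticOrderAt_eq_zero).2 hρ2, zero_add]
  have h3 : analyticOrderAt (fun s => riemannZeta₁ s * g s) ρ = analyticOrderAt riemannZeta₁ ρ + analyticOrderAt g ρ :=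
    analyticOrderAt_mul hZa hga
  have h4 := hZa.analyticOrderAt_deriv_add_one
  simp only [hZ0, sub_zero] at h4
  rw [h2, h3] at h1
  rw [h1] at h4
  have h5 : analyticOrderAt riemannZeta₁ ρ + 1 ≤ analyticOrderAt riemannZeta₁ ρ := by
    calc analyticOrderAt riemannZeta₁ ρ + 1 ≤ analyticOrderAt riemannZeta₁ ρ + analyticOrderAt g ρ + 1 := by
          gcongr
          exact le_self_add
      _ = analyticOrderAt (fun x => riemannZeta₁ x) ρ := h4
      _ = _ := rfl
  obtain ⟨n, hn⟩ := ENat.ne_top_iff_exists.1 hne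
  rw [← hn] at h5
  have h6 : n + 1 ≤ n := by exact_mod_cast h5
  omega

end

end Pool.Agent.Helper88.ZO
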