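import Pool.Agent.Helper88.ZO.N
import Pool.Agent.Helper88.ZO.K
import Pool.Graph.R_seed8.W190.A17

/-!
# The equivalences
-/

set_option autoImplicit false

open Filter Topology Complex LSeries MeasureTheory

namespace Pool.Agent.Helper88.ZO

noncomputable section

variable {a : ℕ → ℕ}

lemma P_anti : AntitoneOn P (Set.Ioi 0) := by
  intro s hs t ht hst
  refine (pT_summable (Set.mem_Ioi.1 ht)).tsum_le_tsum (fun m => ?_) (pT_summable (Set.mem_Ioi.1 hs))
  unfold pT
  split_ifs with h
  · exact phi_anti (mul_le_mul_of_nonneg_right hst (Nat.cast_nonneg m))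
  · exact le_rfl

lemma I_anti : AntitoneOn I (Set.Ioi 0) := by
  intro s hs t ht hst
  refine (iT_summable (Set.mem_Ioi.1 ht)).tsum_le_tsum (fun m => ?_) (iT_summable (Set.mem_Ioi.1 hs))
  unfold iT
  split_ifs with h
  · exact div_le_div_of_nonneg_right (phi_anti (mul_le_mul_of_nonneg_right hst (Nat.cast_nonneg m)))
      (by linarith [log_ge_half h])
  · exact le_rfl

lemma FC_loc : LocallyIntegrableOn FC (Set.Ioi 0) := by
  rw [locallyIntegrableOn_iff isOpen_Ioi.isLocallyClosed]
  intro k hk hkc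
  have h1 : IntegrableOn P k := (P_anti.mono hk).integrableOn_isCompact hkc
  have h2 : IntegrableOn I k := (I_anti.mono hk).integrableOn_isCompact hkc
  exact (h1.sub h2).ofReal

lemma exp_prod_le {t : ℝ} (ht : 1 ≤ t) {m : ℕ} (hm : 1 ≤ m) :
    Real.exp (-t * m) ≤ Real.exp (-1 * t) * Real.exp 1 * Real.exp (-1 * m) := by
  rw [← Real.exp_add, ← Real.exp_add, Real.exp_le_exp]
  have h : (1 : ℝ) ≤ m := by exact_mod_cast hm
  nlinarith

lemma FC_top : FC =O[atTop] fun t : ℝ => Real.exp (-1 * t) := by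
  have hS := summable_exp_nat (c := 1) one_pos
  set S := ∑' m : ℕ, Real.exp (-1 * m) with hSdef
  refine Asymptotics.IsBigO.of_bound (3 * (Real.exp 1 * S)) ?_
  filter_upwards [eventually_ge_atTop 1] with t ht
  have ht0 : 0 < t := by linarith
  have h1 : P t ≤ Real.exp (-1 * t) * Real.exp 1 * S := by
    unfold P
    rw [hSdef, ← tsum_mul_left]
    refine (pT_summable ht0).tsum_le_tsum (fun m => ?_) (hS.mul_left _)
    by_cases hm : m.Prime
    · exact (pT_le t m).trans (exp_prod_le ht hm.one_le)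
    · unfold pT
      rw [if_neg hm]
      positivity
  have h2 : I t ≤ 2 * (Real.exp (-1 * t) * Real.exp 1) * S := by
    unfold I
    rw [hSdef, ← tsum_mul_left]
    refine (iT_summable ht0).tsum_le_tsum (fun m => ?_) (hS.mul_left _)
    by_cases hm : 2 ≤ m
    · have := exp_prod_le ht (show 1 ≤ m by omega)
      have h3 := iT_le t m
      linarith
    · unfold iT
      rw [if_neg hm]
      positivity
  have h3 : 0 ≤ P t := tsum_nonneg (pT_nonneg t)
  have h4 := I_nonneg t
  unfold FC
  rw [Complex.norm_real, Real.norm_eq_abs, Real.norm_of_nonneg (Real.exp_pos _).le]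
  rw [abs_le]
  constructor <;> nlinarith

theorem free_of_PI {β C : ℝ} (hβ : 1 / 2 ≤ β) (h : ∀ t : ℝ, 0 < t → t ≤ 1 → |P t - I t| ≤ C * t ^ (-β)) :
    ∀ s : ℂ, β < s.re → riemannZeta s ≠ 0 := by
  have hbot : FC =O[𝓝[>] 0] (fun t : ℝ => t ^ (-β)) := by
    refine Asymptotics.IsBigO.of_bound C ?_
    have h1 : Set.Ioc (0 : ℝ) 1 ∈ 𝓝[>] (0 : ℝ) := Ioc_mem_nhdsGT one_pos
    filter_upwards [h1] with t ht
    unfold FC
    rw [Complex.norm_real, Real.norm_eq_abs, Real.norm_of_nonneg (Real.rpow_nonneg ht.1.le _)]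
    exact h t ht.1 ht.2
  have hd : ∀ s : ℂ, β < s.re → DifferentiableAt ℂ (mellin FC) s := fun s hs =>
    mellin_differentiableAt_of_isBigO_rpow_exp one_pos FC_loc FC_top hbot hs
  refine zero_free_of_cont hβ
    (G := fun s => mellin FC s / (Complex.Gamma s * ((1 - (2 : ℂ) ^ (-s)) * riemannZeta (s + 1)))) ?_ ?_
  · intro s hs
    have hs0 : β < s.re := hs
    have hsr : 0 < s.re := by linarith
    refine DifferentiableAt.differentiableWithinAt ?_
    refine (hd s hs0).div ?_ (mul_ne_zero (Complex.Gamma_ne_zero_of_re_pos hsr) (eta_factor_ne hsr))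
    refine (Complex.differentiableAt_Gamma s fun m hm => ?_).mul (DifferentiableAt.mul ?_ ?_)
    · rw [hm] at hsr
      simp at hsr
      have : (0 : ℝ) ≤ m := Nat.cast_nonneg m
      linarith
    · refine (differentiableAt_const _).sub ?_
      exact DifferentiableAt.const_cpow (differentiableAt_id.neg) (Or.inl two_ne_zero)
    · have h1 : s + 1 ≠ 1 := by
        intro h2
        have : s = 0 := by simpa using h2
        rw [this] at hsr
        simp at hsr
      exact (differentiableAt_riemannZeta h1).comp s (differentiableAt_id.add_const 1)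
  · intro s hs _
    have hsr : 0 < s.re := by linarith
    have h1 := mellin_FC hs
    rw [eta_eq hsr] at h1
    have h2 := Complex.Gamma_ne_zero_of_re_pos hsr
    have h3 := eta_factor_ne hsr
    rw [h1, div_eq_iff (mul_ne_zero h2 h3)]
    ring

/-- the forward direction with the zeta hypothesis -/
theorem forward_zeta (ha : Cost a) {b : ℝ} (hb : 1 / 2 ≤ b) (hb1 : b < 1)
    (hfree : ∀ s : ℂ, b < s.re → riemannZeta s ≠ 0) {ε : ℝ} (hε : 0 < ε) :
    ∀ᶠ n : ℕ in atTop, |Real.log (W a n) - L n| ≤ (n : ℝ) ^ (b / 2 + ε) := by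
  set δ := min ε (1 - b) with hδ
  have hδ0 : 0 < δ := lt_min hε (by linarith)
  have hδ1 : δ ≤ ε := min_le_left _ _
  have hδ2 : δ ≤ 1 - b := min_le_right _ _
  obtain ⟨C, hC0, hC⟩ := Pool.Agent.W190.psi_of_free b hb hfree (b + δ) (by linarith) (by linarith)
  obtain ⟨K, hK0, hK⟩ := dd_bound (β := b + δ) (by linarith) hC0 hC
  obtain ⟨C2, hC20, hC2⟩ := H_sub_P ha (β := b + δ) (by linarith) (by linarith)
  have h1 := forward ha (β := b + δ) (C := C2 + 6 * K) (by linarith) (by linarith) (by linarith) (fun t ht ht1 => by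
    have h2 := P_sub_I (β := b + δ) (by linarith) (by linarith) hK0.le hK ht ht1
    have h3 := hC2 t ht ht1
    have h4 : H a t - I t = (H a t - P t) + (P t - I t) := by ring
    rw [h4, add_mul]
    exact (abs_add_le _ _).trans (add_le_add h3 h2)) (ε := δ / 12) (by linarith) (by linarith)
  filter_upwards [h1, eventually_ge_atTop 1] with n hn hn1
  refine hn.trans (Real.rpow_le_rpow_of_exponent_le (by exact_mod_cast hn1) (by linarith))

/-- the converse direction -/
theorem backward_zeta (ha : Cost a) {κ : ℝ} (hκ : 1 / 4 < κ) (hκ1 : κ ≤ 1 / 2)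
    (hev : ∀ᶠ n : ℕ in atTop, |Real.log (W a n) - L n| ≤ (n : ℝ) ^ κ) :
    ∀ s : ℂ, 2 * κ < s.re → riemannZeta s ≠ 0 := by
  obtain ⟨N, hN⟩ := eventually_atTop.1 hev
  set C := 1 + ∑ n ∈ Finset.range N, |Real.log (W a n) - L n| with hC
  have hC1 : 1 ≤ C := by
    have : 0 ≤ ∑ n ∈ Finset.range N, |Real.log (W a n) - L n| := Finset.sum_nonneg fun _ _ => abs_nonneg _
    linarith
  have hall : ∀ n : ℕ, |Real.log (W a n) - L n| ≤ C * ((n : ℝ) + 1) ^ κ := by
    intro n
    have h1 : 1 ≤ ((n : ℝ) + 1) ^ κ := Real.one_le_rpow (by have : (0 : ℝ) ≤ n := Nat.cast_nonneg n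
                                                            linarith) (by linarith)
    rcases Nat.lt_or_ge n N with h | h
    · have h2 : |Real.log (W a n) - L n| ≤ ∑ n ∈ Finset.range N, |Real.log (W a n) - L n| :=
        Finset.single_le_sum (f := fun n : ℕ => |Real.log (W a n) - L n|) (fun _ _ => abs_nonneg _)
          (Finset.mem_range.2 h)
      nlinarith
    · have h2 := hN n h
      have h3 : (n : ℝ) ^ κ ≤ ((n : ℝ) + 1) ^ κ := Real.rpow_le_rpow (Nat.cast_nonneg n) (by linarith) (by linarith)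
      nlinarith
  obtain ⟨C', hC'0, hC'⟩ := H_sub_I ha (by linarith : 0 ≤ C) (by linarith : 0 < κ) hall
  obtain ⟨C2, hC20, hC2⟩ := H_sub_P ha (β := 2 * κ) (by linarith) (by linarith)
  refine free_of_PI (β := 2 * κ) (C := C2 + C') (by linarith) fun t ht ht1 => ?_
  have h4 : P t - I t = -(H a t - P t) + (H a t - I t) := by ring
  rw [h4, add_mul]
  refine (abs_add_le _ _).trans (add_le_add ?_ (hC' t ht ht1))
  rw [abs_neg]
  exact hC2 t ht ht1

/-- the equivalence for a fixed abscissa -/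
theorem equiv_zeta (ha : Cost a) {b : ℝ} (hb : 1 / 2 ≤ b) (hb1 : b < 1) :
    (∀ s : ℂ, b < s.re → riemannZeta s ≠ 0) ↔
      ∀ ε : ℝ, 0 < ε → ∀ᶠ n : ℕ in atTop, |Real.log (W a n) - L n| ≤ (n : ℝ) ^ (b / 2 + ε) := by
  constructor
  · intro h ε hε
    exact forward_zeta ha hb hb1 h hε
  · intro h s hs
    rcases le_or_gt 1 s.re with h1 | h1
    · exact riemannZeta_ne_zero_of_one_le_re h1
    · exact backward_zeta ha (κ := b / 2 + (s.re - b) / 4) (by linarith) (by linarith)
        (h _ (by linarith)) s (by linarith)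

/-- the equivalence for some half-plane -/
theorem equiv_some (ha : Cost a) :
    (∃ b : ℝ, b < 1 ∧ ∀ s : ℂ, b < s.re → riemannZeta s ≠ 0) ↔
      ∃ δ : ℝ, 0 < δ ∧ ∀ᶠ n : ℕ in atTop, |Real.log (W a n) - L n| ≤ (n : ℝ) ^ (1 / 2 - δ) := by
  constructor
  · rintro ⟨b, hb, h⟩
    have h1 : max b (1 / 2) < 1 := max_lt hb (by norm_num)
    refine ⟨(1 - max b (1 / 2)) / 4, by linarith, ?_⟩
    have h2 := forward_zeta ha (b := max b (1 / 2)) (le_max_right _ _) h1
      (fun s hs => h s ((le_max_left _ _).trans_lt hs)) (ε := (1 - max b (1 / 2)) / 4) (by linarith)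
    refine h2.mono fun n hn => ?_
    have e : max b (1 / 2) / 2 + (1 - max b (1 / 2)) / 4 = 1 / 2 - (1 - max b (1 / 2)) / 4 := by ring
    rwa [e] at hn
  · rintro ⟨δ, hδ, h⟩
    refine ⟨2 * max (1 / 2 - δ) (3 / 8), ?_, ?_⟩
    · have : max (1 / 2 - δ) (3 / 8) < 1 / 2 := max_lt (by linarith) (by norm_num)
      linarith
    · refine backward_zeta ha (lt_of_lt_of_le (by norm_num) (le_max_right (1 / 2 - δ) (3 / 8)))
        (max_le (by linarith) (by norm_num)) ?_
      filter_upwards [h, eventually_ge_atTop 1] with n hn hn1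
      exact hn.trans (Real.rpow_le_rpow_of_exponent_le (by exact_mod_cast hn1) (le_max_left _ _))

end

end Pool.Agent.Helper88.ZO
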