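import Pool.Agent.Helper88.ZO.M
import Pool.Agent.Helper88.ZO.F

/-!
# The Mellin transform of `P - I`
-/

set_option autoImplicit false

open Filter Topology Complex LSeries MeasureTheory

namespace Pool.Agent.Helper88.ZO

noncomputable section

/-- the coefficients of `log (1 + e ^ (-v))` -/
def bR (k : ℕ) : ℝ := (-1) ^ k / (k + 1)

lemma abs_bR_le (k : ℕ) : |bR k| ≤ 1 := by
  unfold bR
  rw [abs_div, abs_pow, abs_neg, abs_one, one_pow, abs_of_pos (by positivity)]
  rw [div_le_one (by positivity)]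
  have : (0 : ℝ) ≤ k := Nat.cast_nonneg k
  linarith

lemma hasSum_phi {v : ℝ} (hv : 0 < v) : HasSum (fun k : ℕ => bR k * Real.exp (-((k : ℝ) + 1) * v)) (phi v) := by
  have h := Real.hasSum_pow_div_log_of_abs_lt_one (x := -Real.exp (-v)) (by
    rw [abs_neg, abs_of_pos (Real.exp_pos _), Real.exp_lt_one_iff]
    linarith)
  have h2 := h.neg
  rw [neg_neg, sub_neg_eq_add] at h2
  unfold phi
  refine h2.congr_fun fun k => ?_
  unfold bR
  rw [neg_pow (Real.exp (-v)), ← Real.exp_nat_mul, pow_succ]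
  have e : -((k : ℝ) + 1) * v = ((k + 1 : ℕ) : ℝ) * -v := by push_cast; ring
  rw [e]
  ring

lemma double_summable {t : ℝ} (ht : 0 < t) :
    Summable fun i : ℕ × ℕ => cR i.1 * bR i.2 * Real.exp (-((i.1 : ℝ) * (i.2 + 1)) * t) := by
  have h1 : Summable fun i : ℕ × ℕ => Real.exp (-t * i.1) * Real.exp (-(2 * t) * i.2) :=
    (summable_exp_nat ht).mul_of_nonneg (summable_exp_nat (by linarith)) (fun _ => (Real.exp_pos _).le)
      (fun _ => (Real.exp_pos _).le)
  refine Summable.of_norm_bounded (h1.mul_left 3) fun i => ?_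
  obtain ⟨n, k⟩ := i
  simp only
  rw [Real.norm_eq_abs, abs_mul, abs_mul, abs_of_pos (Real.exp_pos _)]
  rcases Nat.lt_or_ge n 2 with h | h
  · have : cR n = 0 := by unfold cR; rw [if_neg (by omega)]
    rw [this, abs_zero, zero_mul, zero_mul]
    positivity
  · have h2 : |cR n| * |bR k| ≤ 3 := by
      have h3 := abs_cR_le n
      have h4 := abs_bR_le k
      have h5 := abs_nonneg (cR n)
      have h6 := abs_nonneg (bR k)
      nlinarith
    have h3 : Real.exp (-((n : ℝ) * (k + 1)) * t) ≤ Real.exp (-t * n) * Real.exp (-(2 * t) * k) := by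
      rw [← Real.exp_add, Real.exp_le_exp]
      have h4 : (2 : ℝ) ≤ n := by exact_mod_cast h
      have h5 : (0 : ℝ) ≤ k := Nat.cast_nonneg k
      have h6 : 0 ≤ t * k * (n - 2) := mul_nonneg (by positivity) (by linarith)
      nlinarith
    exact mul_le_mul h2 h3 (Real.exp_pos _).le (by norm_num)

lemma cR_mul_phi (t : ℝ) (n : ℕ) : cR n * phi (t * n) = pT t n - iT t n := by
  unfold cR pT iT
  by_cases h : 2 ≤ n
  · rw [if_pos h, if_pos h]
    by_cases hp : n.Prime
    · rw [if_pos hp, if_pos hp]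
      ring
    · rw [if_neg hp, if_neg hp]
      ring
  · rw [if_neg h, if_neg h, if_neg (fun hp => h hp.two_le)]
    ring

lemma double_hasSum {t : ℝ} (ht : 0 < t) :
    HasSum (fun i : ℕ × ℕ => cR i.1 * bR i.2 * Real.exp (-((i.1 : ℝ) * (i.2 + 1)) * t)) (P t - I t) := by
  have hs := double_summable ht
  have hin : ∀ n : ℕ, HasSum (fun k : ℕ => cR n * bR k * Real.exp (-((n : ℝ) * (k + 1)) * t)) (cR n * phi (t * n)) := by
    intro n
    rcases Nat.lt_or_ge n 2 with h | h
    · have : cR n = 0 := by unfold cR; rw [if_neg (by omega)]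
      rw [this]
      simp only [zero_mul]
      exact hasSum_zero
    · have h4 : (2 : ℝ) ≤ n := by exact_mod_cast h
      refine ((hasSum_phi (v := t * n) (by positivity)).mul_left (cR n)).congr_fun fun k => ?_
      rw [← mul_assoc]
      congr 2
      ring
  have h1 := hs.hasSum.prod_fiberwise hin
  have h2 : HasSum (fun n => cR n * phi (t * n)) (P t - I t) := by
    simp only [cR_mul_phi]
    exact (pT_summable ht).hasSum.sub (iT_summable ht).hasSum
  have h3 := h1.unique h2
  rw [← h3]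
  exact hs.hasSum

/-- the function `P - I` with complex values -/
def FC (t : ℝ) : ℂ := ((P t - I t : ℝ) : ℂ)

lemma cR_summable {σ : ℝ} (hσ : 1 < σ) : Summable fun n : ℕ => ‖(cR n : ℂ)‖ / (n : ℝ) ^ σ := by
  have h1 : Summable fun n : ℕ => 3 * (1 / (n : ℝ) ^ σ) := (Real.summable_one_div_nat_rpow.2 hσ).mul_left 3
  refine Summable.of_nonneg_of_le (fun n => by positivity) (fun n => ?_) h1
  rw [Complex.norm_real, Real.norm_eq_abs, mul_one_div]
  exact div_le_div_of_nonneg_right (abs_cR_le n) (by positivity)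

lemma bR_summable {σ : ℝ} (hσ : 0 < σ) : Summable fun k : ℕ => ‖(bR k : ℂ)‖ / ((k : ℝ) + 1) ^ σ := by
  have h1 : Summable fun n : ℕ => 1 / (n : ℝ) ^ (σ + 1) := Real.summable_one_div_nat_rpow.2 (by linarith)
  have h2 := (summable_nat_add_iff 1).2 h1
  refine h2.congr fun k => ?_
  rw [Complex.norm_real, Real.norm_eq_abs]
  unfold bR
  rw [abs_div, abs_pow, abs_neg, abs_one, one_pow, abs_of_pos (by positivity), div_div]
  push_cast
  rw [Real.rpow_add (by positivity), Real.rpow_one, mul_comm]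

/-- the alternating zeta function -/
def eta (s : ℂ) : ℂ := ∑' k : ℕ, (bR k : ℂ) / ((k : ℂ) + 1) ^ s

lemma norm_cpow_succ (k : ℕ) (s : ℂ) : ‖((k : ℂ) + 1) ^ s‖ = ((k : ℝ) + 1) ^ s.re := by
  have h : ((k : ℂ) + 1) = (((k : ℝ) + 1 : ℝ) : ℂ) := by push_cast; rfl
  rw [h, Complex.norm_cpow_eq_rpow_re_of_pos (by positivity)]

theorem mellin_FC {s : ℂ} (hs : 1 < s.re) : mellin FC s = Complex.Gamma s * (LSeries cC s * eta s) := by
  have hs0 : s ≠ 0 := by rintro rfl; norm_num at hs
  have key := hasSum_mellin (ι := ℕ × ℕ) (a := fun i => (cR i.1 : ℂ) * (bR i.2 : ℂ))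
    (p := fun i => (i.1 : ℝ) * (i.2 + 1)) (F := FC) (s := s) (fun i => by
      rcases Nat.eq_zero_or_pos i.1 with h | h
      · left
        have : cR i.1 = 0 := by unfold cR; rw [if_neg (by omega)]
        rw [this]
        simp
      · right
        positivity) (by linarith) (fun t ht => by
      have h1 := double_hasSum (Set.mem_Ioi.1 ht)
      have h2 := Complex.hasSum_ofReal.2 h1
      unfold FC
      convert h2 using 2 with i
      push_cast
      rfl) (by
      have h1 := (cR_summable hs).mul_of_nonneg (bR_summable (by linarith : 0 < s.re)) (fun _ => by positivity)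
        (fun _ => by positivity)
      refine h1.congr fun i => ?_
      rw [norm_mul, Real.mul_rpow (by positivity) (by positivity)]
      field_simp)
  rw [← key.tsum_eq]
  have e1 : ∀ i : ℕ × ℕ, Complex.Gamma s * ((cR i.1 : ℂ) * (bR i.2 : ℂ)) / (((i.1 : ℝ) * (i.2 + 1) : ℝ) : ℂ) ^ s =
      Complex.Gamma s * (((cR i.1 : ℂ) / (i.1 : ℂ) ^ s) * ((bR i.2 : ℂ) / ((i.2 : ℂ) + 1) ^ s)) := by
    intro i
    rw [Complex.ofReal_mul, Complex.mul_cpow_ofReal_nonneg (by positivity) (by positivity)]
    push_cast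
    rw [mul_div_assoc, mul_div_mul_comm]
  simp only [e1]
  rw [tsum_mul_left]
  congr 1
  have hc0 : cC 0 = 0 := by unfold cC cR; simp
  rw [LSeries_def₀ hc0]
  unfold eta cC
  rw [tsum_mul_tsum_of_summable_norm]
  · refine (cR_summable hs).congr fun n => ?_
    rw [norm_div]
    congr 1
    rcases Nat.eq_zero_or_pos n with rfl | hn
    · rw [Nat.cast_zero, Nat.cast_zero, Real.zero_rpow (by linarith), Complex.zero_cpow hs0, norm_zero]
    · have h : (n : ℂ) = ((n : ℝ) : ℂ) := by push_cast; rfl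
      rw [h, Complex.norm_cpow_eq_rpow_re_of_pos (by positivity)]
  · refine (bR_summable (by linarith : 0 < s.re)).congr fun k => ?_
    rw [norm_div, norm_cpow_succ]

/-- the alternating series -/
theorem eta_eq {s : ℂ} (hs : 0 < s.re) : eta s = (1 - 2 ^ (-s)) * riemannZeta (s + 1) := by
  have hs1 : 1 < (s + 1).re := by simp; exact hs
  set g : ℕ → ℂ := fun k => 1 / ((k : ℂ) + 1) ^ (s + 1) with hg
  have hgs : Summable g := by
    have h1 : Summable fun n : ℕ => 1 / (n : ℝ) ^ (s.re + 1) := Real.summable_one_div_nat_rpow.2 (by linarith)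
    have h2 := (summable_nat_add_iff 1).2 h1
    refine Summable.of_norm ?_
    refine h2.congr fun k => ?_
    rw [hg]
    simp only
    rw [norm_div, norm_one, norm_cpow_succ]
    push_cast
    simp
  have hz : riemannZeta (s + 1) = ∑' k, g k := zeta_eq_tsum_one_div_nat_add_one_cpow hs1
  have he : Summable fun j => g (2 * j) := hgs.comp_injective (fun a b h => by simpa using h)
  have ho : Summable fun j => g (2 * j + 1) := hgs.comp_injective (fun a b h => by simpa using h)
  have h1 : ∑' j, g (2 * j) + ∑' j, g (2 * j + 1) = ∑' k, g k := tsum_even_add_odd he ho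
  have h2 : ∑' j, g (2 * j + 1) = 2 ^ (-(s + 1)) * ∑' k, g k := by
    rw [← tsum_mul_left]
    refine tsum_congr fun j => ?_
    rw [hg]
    simp only
    have e : (((2 * j + 1 : ℕ) : ℂ) + 1) = ((2 : ℝ) : ℂ) * (((j : ℝ) + 1 : ℝ) : ℂ) := by push_cast; ring
    rw [e, Complex.mul_cpow_ofReal_nonneg (by norm_num) (by positivity), Complex.cpow_neg]
    push_cast
    rw [one_div, mul_inv, one_div]
  have h3 : eta s = ∑' j, g (2 * j) - ∑' j, g (2 * j + 1) := by
    unfold eta
    set b : ℕ → ℂ := fun k => (bR k : ℂ) / ((k : ℂ) + 1) ^ s with hb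
    have hbg : ∀ k, b k = (-1) ^ k * g k := by
      intro k
      rw [hb, hg]
      simp only
      unfold bR
      have : ((k : ℂ) + 1) ≠ 0 := by exact_mod_cast Nat.succ_ne_zero k
      rw [Complex.cpow_add _ _ this, Complex.cpow_one]
      push_cast
      field_simp
    have hbe : ∀ j, b (2 * j) = g (2 * j) := fun j => by rw [hbg, pow_mul]; simp
    have hbo : ∀ j, b (2 * j + 1) = -g (2 * j + 1) := fun j => by rw [hbg, pow_succ, pow_mul]; simp
    rw [← tsum_even_add_odd (f := b) (by simpa only [hbe] using he) (by simpa only [hbo] using ho.neg)]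
    simp only [hbe, hbo]
    rw [tsum_neg]
    ring
  have h4 : (2 : ℂ) ^ (-(s + 1)) * 2 = 2 ^ (-s) := by
    have : -s = -(s + 1) + 1 := by ring
    rw [this, Complex.cpow_add _ _ (by norm_num), Complex.cpow_one]
  rw [h3, hz, h2, ← h4]
  rw [h2] at h1
  linear_combination h1

lemma eta_factor_ne {s : ℂ} (hs : 0 < s.re) : (1 - (2 : ℂ) ^ (-s)) * riemannZeta (s + 1) ≠ 0 := by
  refine mul_ne_zero ?_ (riemannZeta_ne_zero_of_one_lt_re (by simp; exact hs))
  intro h
  have h1 : ‖(2 : ℂ) ^ (-s)‖ = 1 := by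
    rw [← sub_eq_zero.1 h, norm_one]
  have h2 : ‖(2 : ℂ) ^ (-s)‖ < 1 := by
    have e : (2 : ℂ) = ((2 : ℝ) : ℂ) := by norm_num
    rw [e, Complex.norm_cpow_eq_rpow_re_of_pos (by norm_num)]
    exact Real.rpow_lt_one_of_one_lt_of_neg (by norm_num) (by simp; exact hs)
  linarith

end

end Pool.Agent.Helper88.ZO
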