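import Pool.Agent.Helper88.ZO.A

/-!
# Orders of elements of the symmetric group
-/

set_option autoImplicit false

namespace Pool.Agent.Helper88.ZO

lemma cost_eq_sum (a : ℕ → ℕ) (m : ℕ) : cost a m = ∑ p ∈ m.primeFactors, a (p ^ m.factorization p) := rfl

lemma cost_lcm_le (a : ℕ → ℕ) {m n : ℕ} (hm : m ≠ 0) (hn : n ≠ 0) : cost a (m.lcm n) ≤ cost a m + cost a n := by
  classical
  rw [cost_eq_sum, cost_eq_sum a m, cost_eq_sum a n]
  have h1 : (m.lcm n).primeFactors = m.primeFactors ∪ n.primeFactors := by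
    ext p
    simp only [Finset.mem_union, Nat.mem_primeFactors]
    constructor
    · rintro ⟨hp, hd, -⟩
      rcases (hp.dvd_lcm).1 hd with h | h
      · exact Or.inl ⟨hp, h, hm⟩
      · exact Or.inr ⟨hp, h, hn⟩
    · rintro (⟨hp, hd, -⟩ | ⟨hp, hd, -⟩)
      · exact ⟨hp, hd.trans (Nat.dvd_lcm_left m n), Nat.lcm_ne_zero hm hn⟩
      · exact ⟨hp, hd.trans (Nat.dvd_lcm_right m n), Nat.lcm_ne_zero hm hn⟩
  have h2 : ∑ p ∈ m.primeFactors, a (p ^ m.factorization p) =
      ∑ p ∈ m.primeFactors ∪ n.primeFactors, (if p ∈ m.primeFactors then a (p ^ m.factorization p) else 0) := by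
    rw [← Finset.sum_filter]
    congr 1
    ext p
    simp only [Finset.mem_filter, Finset.mem_union]
    tauto
  have h3 : ∑ p ∈ n.primeFactors, a (p ^ n.factorization p) =
      ∑ p ∈ m.primeFactors ∪ n.primeFactors, (if p ∈ n.primeFactors then a (p ^ n.factorization p) else 0) := by
    rw [← Finset.sum_filter]
    congr 1
    ext p
    simp only [Finset.mem_filter, Finset.mem_union]
    tauto
  rw [h1, h2, h3, ← Finset.sum_add_distrib]
  refine Finset.sum_le_sum fun p hp => ?_
  have h4 : (m.lcm n).factorization p = max (m.factorization p) (n.factorization p) := by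
    rw [Nat.factorization_lcm hm hn]
    rfl
  rw [h4]
  have hpp : p.Prime := by
    rcases Finset.mem_union.1 hp with h | h <;> exact Nat.prime_of_mem_primeFactors h
  rcases le_total (n.factorization p) (m.factorization p) with h | h
  · rw [max_eq_left h]
    have hmem : p ∈ m.primeFactors := by
      rcases Finset.mem_union.1 hp with h5 | h5
      · exact h5
      · have h6 := fact_pos h5
        exact Nat.mem_primeFactors.2 ⟨hpp, Nat.dvd_of_factorization_pos (by omega), hm⟩
    rw [if_pos hmem]
    exact Nat.le_add_right _ _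
  · rw [max_eq_right h]
    have hmem : p ∈ n.primeFactors := by
      rcases Finset.mem_union.1 hp with h5 | h5
      · have h6 := fact_pos h5
        exact Nat.mem_primeFactors.2 ⟨hpp, Nat.dvd_of_factorization_pos (by omega), hn⟩
      · exact h5
    rw [if_pos hmem]
    exact Nat.le_add_left _ _

lemma cost_multiset_lcm_le (a : ℕ → ℕ) (S : Multiset ℕ) (hS : ∀ s ∈ S, s ≠ 0) :
    S.lcm ≠ 0 ∧ cost a S.lcm ≤ (S.map (cost a)).sum := by
  induction S using Multiset.induction with
  | empty =>
    rw [Multiset.lcm_zero]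
    exact ⟨one_ne_zero, by simp [cost_one]⟩
  | cons s S ih =>
    obtain ⟨h1, h2⟩ := ih fun x hx => hS x (Multiset.mem_cons_of_mem hx)
    have h3 : s ≠ 0 := hS s (Multiset.mem_cons_self s S)
    rw [Multiset.lcm_cons, Multiset.map_cons, Multiset.sum_cons]
    exact ⟨Nat.lcm_ne_zero h3 h1, (cost_lcm_le a h3 h1).trans (by omega)⟩

lemma cost_id_le (m : ℕ) : cost id m ≤ m := by
  induction m using Nat.recOnPosPrimePosCoprime with
  | prime_pow p n hp hn => rw [cost_prime_pow id hp hn]; exact le_rfl
  | zero => rw [cost_zero]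
  | one => rw [cost_one]; exact Nat.zero_le _
  | coprime a b ha hb hab iha ihb =>
    rw [cost_mul id hab]
    nlinarith

/-- the prime powers of `m` -/
def pps (m : ℕ) : Multiset ℕ := m.primeFactors.val.map fun p => p ^ m.factorization p

lemma lcm_pps {m : ℕ} (hm : m ≠ 0) : (pps m).lcm = m := by
  refine Nat.dvd_antisymm ?_ ?_
  · rw [Multiset.lcm_dvd]
    intro b hb
    unfold pps at hb
    rw [Multiset.mem_map] at hb
    obtain ⟨p, _, rfl⟩ := hb
    exact Nat.ordProj_dvd m p
  · rw [Nat.dvd_iff_prime_pow_dvd_dvd]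
    intro p k hp hd
    rcases Nat.eq_zero_or_pos k with rfl | hk
    · rw [pow_zero]; exact one_dvd _
    have h1 : k ≤ m.factorization p := (hp.pow_dvd_iff_le_factorization hm).1 hd
    refine (pow_dvd_pow p h1).trans (Multiset.dvd_lcm ?_)
    unfold pps
    rw [Multiset.mem_map]
    refine ⟨p, ?_, rfl⟩
    exact Nat.mem_primeFactors.2 ⟨hp, (dvd_pow_self p hk.ne').trans hd, hm⟩

lemma sum_pps (a : ℕ → ℕ) (m : ℕ) : ((pps m).map a).sum = cost a m := by
  unfold pps
  rw [Multiset.map_map]
  rfl

/-- the orders of the elements of the symmetric group -/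
theorem symm_orders (n : ℕ) :
    {m : ℕ | ∃ σ : Equiv.Perm (Fin n), orderOf σ = m} = {m : ℕ | 0 < m ∧ cost id m ≤ n} := by
  ext m
  constructor
  · rintro ⟨σ, rfl⟩
    refine ⟨orderOf_pos σ, ?_⟩
    rw [← Equiv.Perm.lcm_cycleType]
    have h1 := (cost_multiset_lcm_le id σ.cycleType fun s hs => by
      have := Equiv.Perm.two_le_of_mem_cycleType hs
      omega).2
    refine h1.trans ?_
    have h2 : (σ.cycleType.map (cost id)).sum ≤ (σ.cycleType.map id).sum :=
      Multiset.sum_map_le_sum_map _ _ fun s _ => cost_id_le s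
    refine h2.trans ?_
    rw [Multiset.map_id, Equiv.Perm.sum_cycleType]
    exact (Finset.card_le_univ _).trans (by simp)
  · rintro ⟨hm, h⟩
    have h1 : (∃ σ : Equiv.Perm (Fin n), σ.cycleType = pps m) := by
      rw [Equiv.Perm.exists_with_cycleType_iff]
      refine ⟨?_, fun q hq => ?_⟩
      · rw [Fintype.card_fin, ← Multiset.map_id (pps m), sum_pps]
        exact h
      · unfold pps at hq
        rw [Multiset.mem_map] at hq
        obtain ⟨p, hp, rfl⟩ := hq
        exact (Nat.prime_of_mem_primeFactors hp).two_le.trans (Nat.le_self_pow (by have := fact_pos hp; omega) p)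
    obtain ⟨σ, hσ⟩ := h1
    refine ⟨σ, ?_⟩
    rw [← Equiv.Perm.lcm_cycleType, hσ, lcm_pps hm.ne']

lemma cost_id : Cost id where
  le := fun p k _ _ => le_rfl
  ge := fun p k _ _ => by simp only [id]; omega
  prime := fun p _ => by simp only [id]; omega

end Pool.Agent.Helper88.ZO
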